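import Pool.Agent.H77Z.Py.Lin

namespace Pool.Agent.H77Z.Py

open Polynomial Module Submodule

variable {K L : Type*} [Field K] [Field L] [Algebra K L]

lemma finrank_degLT (n : ℕ) : finrank K (degreeLT K n) = n := by
  rw [(degreeLTEquiv K n).finrank_eq, Module.finrank_fin_fun]

instance finite_degLT (n : ℕ) : Module.Finite K (degreeLT K n) :=
  Module.Finite.equiv (degreeLTEquiv K n).symm

lemma finrank_inf_comap [FiniteDimensional K L] {A A' S : Submodule K L} (hA : A ≤ A')
    (hd : finrank K A' ≤ finrank K A + 1) {f : L →ₗ[K] L} (hf : Function.Injective f)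
    (hS : S.map f ≤ A') : finrank K S ≤ finrank K (S ⊓ A.comap f : Submodule K L) + 1 := by
  have h1 := Submodule.finrank_sup_add_finrank_inf_eq (S.map f) A
  have h2 : finrank K (S.map f ⊔ A : Submodule K L) ≤ finrank K A' :=
    Submodule.finrank_mono (sup_le hS hA)
  have h3 : finrank K (S.map f) = finrank K S := (Submodule.equivMapOfInjective f hf S).finrank_eq.symm
  rw [Submodule.map_inf_eq_map_inf_comap] at h1
  have h4 : finrank K ((S ⊓ A.comap f).map f) = finrank K (S ⊓ A.comap f : Submodule K L) :=
    (Submodule.equivMapOfInjective f hf _).finrank_eq.symm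
  omega

/-- Growth by two when `p` generates the extension. -/
lemma growth_gen [FiniteDimensional K L] {p q : L}
    (hp : ∀ f : K[X], f.degree < (finrank K L : WithBot ℕ) → aeval p f = 0 → f = 0)
    (hq : ∀ f : K[X], f.degree < ((2 : ℕ) : WithBot ℕ) → q ≠ aeval p f) (k : ℕ) :
    min (finrank K L) (2 * k + 1) ≤ finrank K (Wlt K p q (k + 1)) := by
  classical
  set e := finrank K L with he
  have hT : ∀ (s : L), s ≠ 0 → ∀ n, n ≤ e →
      finrank K ((degreeLT K n).map ((LinearMap.mulRight K s).comp (aeval p).toLinearMap)) = n := by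
    intro s hs n hn
    have hinj : Function.Injective
        (((LinearMap.mulRight K s).comp (aeval p).toLinearMap).domRestrict (degreeLT K n)) := by
      rw [injective_iff_map_eq_zero]
      rintro ⟨f, hf⟩ h
      have h1 : aeval p f * s = 0 := h
      have h2 : aeval p f = 0 := (mul_eq_zero.1 h1).resolve_right hs
      exact Subtype.ext (hp f ((mem_degreeLT.1 hf).trans_le (by exact_mod_cast hn)) h2)
    rw [← LinearMap.range_domRestrict, LinearMap.finrank_range_of_inj hinj, finrank_degLT]
  have hadj : Algebra.adjoin K {p, q} = ⊤ := by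
    have h1 := eq_top_of_finrank_eq (hT 1 one_ne_zero e le_rfl)
    rw [eq_top_iff]
    intro z _
    obtain ⟨f, -, rfl⟩ : z ∈ (degreeLT K e).map
      ((LinearMap.mulRight K (1 : L)).comp (aeval p).toLinearMap) := h1 ▸ mem_top
    have h2 : aeval p f ∈ Algebra.adjoin K {p} := Polynomial.aeval_mem_adjoin_singleton K p
    simpa using Algebra.adjoin_mono (by simp) h2
  refine growth_of hadj (fun k hk ih => ?_) k
  set A := Wlt K p q (k + 1) with hA
  set A' := Wlt K p q (k + 2) with hA'
  have hAA : A ≤ A' := Wlt_mono p q (by omega)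
  have hm : finrank K A ≤ finrank K A' := Submodule.finrank_mono hAA
  have hs := Wlt_step hadj k
  rw [← hA, ← hA', ← he] at hs
  have hle : finrank K A ≤ e := finrank_le _
  by_contra hcon
  have ha : finrank K A + 2 ≤ e := by omega
  have hd : finrank K A' ≤ finrank K A + 1 := by omega
  have hp0 : p ≠ 0 := by
    intro h
    have := hp X (by rw [degree_X]; exact_mod_cast (by omega : 1 < e)) (by simp [h])
    exact X_ne_zero this
  obtain ⟨a, ha'⟩ : ∃ a, finrank K A = a + 1 := ⟨finrank K A - 1, by omega⟩
  have hS : ∀ i : ℕ, ∃ S : Submodule K L, (∀ s ∈ S, ∀ j ≤ i, p ^ j * s ∈ A) ∧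
      finrank K A ≤ finrank K S + i := by
    intro i
    induction i with
    | zero => exact ⟨A, fun s hs j hj => by simpa [Nat.le_zero.1 hj] using hs, le_rfl⟩
    | succ i ih =>
      obtain ⟨S, hS1, hS2⟩ := ih
      have hinj : Function.Injective (LinearMap.mulLeft K (p ^ (i + 1))) :=
        mul_right_injective₀ (pow_ne_zero _ hp0)
      have h1 := finrank_inf_comap (S := S) hAA hd hinj (by
        rintro _ ⟨s, hs, rfl⟩
        have := (mul_left_mem p q (hS1 s hs i le_rfl)).1
        rw [LinearMap.mulLeft_apply, pow_succ', mul_assoc]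
        exact this)
      refine ⟨S ⊓ A.comap (LinearMap.mulLeft K (p ^ (i + 1))), fun s hs j hj => ?_, by omega⟩
      rcases eq_or_lt_of_le hj with h | h
      · rw [h]; exact hs.2
      · exact hS1 s hs.1 j (by omega)
  obtain ⟨S, hS1, hS2⟩ := hS a
  obtain ⟨s, hsS, hs0⟩ : ∃ s ∈ S, s ≠ 0 := by
    refine Submodule.exists_mem_ne_zero_of_ne_bot fun h => ?_
    rw [h, finrank_bot] at hS2
    omega
  have hTA : (degreeLT K (a + 2)).map ((LinearMap.mulRight K s).comp (aeval p).toLinearMap) ≤ A' := by
    rw [degreeLT_eq_span_X_pow, map_span, span_le]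
    rintro _ ⟨_, hf, rfl⟩
    obtain ⟨j, hj, rfl⟩ := Finset.mem_image.1 (Finset.mem_coe.1 hf)
    have hj' : j < a + 2 := Finset.mem_range.1 hj
    change aeval p (X ^ j : K[X]) * s ∈ A'
    rw [map_pow, aeval_X]
    rcases le_or_gt j a with h | h
    · exact hAA (hS1 s hsS j h)
    · have := (mul_left_mem p q (hS1 s hsS a le_rfl)).1
      rw [show j = a + 1 by omega, pow_succ', mul_assoc]
      exact this
  have hTeq := Submodule.eq_of_le_of_finrank_le hTA (by rw [hT s hs0 _ (by omega)]; omega)
  have hqj : ∀ j ≤ a, ∃ g : K[X], g.degree < ((a + 2 : ℕ) : WithBot ℕ) ∧ aeval p g = q * p ^ j := by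
    intro j hj
    have h1 := (mul_left_mem p q (hS1 s hsS j hj)).2
    rw [← hA', ← hTeq] at h1
    obtain ⟨g, hg, hgs⟩ := h1
    refine ⟨g, mem_degreeLT.1 hg, mul_right_cancel₀ hs0 ?_⟩
    rw [mul_assoc]; exact hgs
  obtain ⟨f, hf1, hf2⟩ := hqj 0 (Nat.zero_le _)
  rw [pow_zero, mul_one] at hf2
  have hf3 : 2 ≤ f.natDegree := by
    by_contra h
    refine hq f ?_ hf2.symm
    exact degree_le_natDegree.trans_lt (by exact_mod_cast (by omega : f.natDegree < 2))
  have hf0 : f ≠ 0 := by rintro rfl; simp at hf3
  have hf4 : f.natDegree < a + 2 := (natDegree_lt_iff_degree_lt hf0).2 hf1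
  obtain ⟨g, hg1, hg2⟩ := hqj (a + 2 - f.natDegree) (by omega)
  have hdeg : (f * X ^ (a + 2 - f.natDegree)).degree = ((a + 2 : ℕ) : WithBot ℕ) := by
    rw [degree_mul_X_pow, degree_eq_natDegree hf0]
    norm_cast
    omega
  have hdeg2 : (f * X ^ (a + 2 - f.natDegree) - g).degree = ((a + 2 : ℕ) : WithBot ℕ) := by
    rw [degree_sub_eq_left_of_degree_lt (by rw [hdeg]; exact hg1), hdeg]
  have hz := hp (f * X ^ (a + 2 - f.natDegree) - g)
    (by rw [hdeg2]; exact_mod_cast (by omega : a + 2 < e))
    (by rw [map_sub, map_mul, map_pow, aeval_X, hf2, hg2, sub_self])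
  rw [hz, degree_zero] at hdeg2
  exact WithBot.bot_ne_natCast _ hdeg2

lemma conic_indep (hreal : ∀ a b : K, a ^ 2 + b ^ 2 = 0 → a = 0) {β : K} {P Q : K[X]}
    (h : P ^ 2 - (C β - X ^ 2) * Q ^ 2 = 0) : P = 0 ∧ Q = 0 := by
  have hQ : Q = 0 := by
    by_contra hQ
    set n := max P.natDegree (Q.natDegree + 1) with hn
    have h1 : P.natDegree ≤ n := le_max_left _ _
    have h2 : (X * Q).natDegree ≤ n := by rw [natDegree_X_mul hQ]; exact le_max_right _ _
    have h3 : P * P + (X * Q) * (X * Q) = C β * (Q * Q) := by linear_combination h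
    have h4 := congrArg (fun f => f.coeff (n + n)) h3
    simp only [coeff_add, coeff_C_mul] at h4
    rw [coeff_mul_add_eq_of_natDegree_le h1 h1, coeff_mul_add_eq_of_natDegree_le h2 h2,
      coeff_eq_zero_of_natDegree_lt (p := Q * Q) (natDegree_mul_le.trans_lt (by omega)),
      mul_zero] at h4
    have h5 : P.coeff n = 0 := hreal _ ((X * Q).coeff n) (by linear_combination h4)
    have h6 : (X * Q).coeff n = 0 := hreal _ (P.coeff n) (by linear_combination h4)
    rcases le_total P.natDegree (Q.natDegree + 1) with h7 | h7
    · rw [hn, max_eq_right h7, coeff_X_mul] at h6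
      exact hQ (leadingCoeff_eq_zero.1 h6)
    · rw [hn, max_eq_left h7] at h5
      have h8 : P = 0 := leadingCoeff_eq_zero.1 h5
      rw [h8] at h7
      simp at h7
  rw [hQ] at h
  exact ⟨by simpa using h, hQ⟩

/-- Growth by two for a point of a conic without real points at infinity. -/
lemma growth_conic [FiniteDimensional K L] {x y : L} {β : K}
    (hreal : ∀ a b : K, a ^ 2 + b ^ 2 = 0 → a = 0) (hxy : x ^ 2 + y ^ 2 = algebraMap K L β)
    (hadj : Algebra.adjoin K {x, y} = ⊤) (k : ℕ) :
    min (finrank K L) (2 * k + 1) ≤ finrank K (Wlt K x y (k + 1)) := by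
  classical
  refine growth_of hadj (fun k hk _ => ?_) k
  have hxi : IsIntegral K x := Algebra.IsIntegral.isIntegral x
  have hmin : ∀ f : K[X], f.natDegree < (minpoly K x).natDegree → aeval x f = 0 → f = 0 := by
    intro f hf h0
    by_contra hne
    have := natDegree_le_natDegree (minpoly.degree_le_of_ne_zero K x hne h0)
    omega
  let Ψ : (degreeLT K (k + 2) × degreeLT K (k + 1)) →ₗ[K] L :=
    LinearMap.coprod ((aeval x).toLinearMap.domRestrict _)
      (((LinearMap.mulRight K y).comp (aeval x).toLinearMap).domRestrict _)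
  have hΨ : ∀ u, Ψ u = aeval x u.1.1 + aeval x u.2.1 * y := fun u => rfl
  have hinj : Function.Injective Ψ := by
    rw [injective_iff_map_eq_zero]
    rintro ⟨⟨P, hP⟩, ⟨Q, hQ⟩⟩ h
    rw [hΨ] at h
    simp only at h
    have hP' : P.natDegree ≤ k + 1 := by
      rw [degreeLT_succ_eq_degreeLE, mem_degreeLE] at hP
      exact natDegree_le_iff_degree_le.2 hP
    have hQ' : Q.natDegree ≤ k := by
      rw [degreeLT_succ_eq_degreeLE, mem_degreeLE] at hQ
      exact natDegree_le_iff_degree_le.2 hQ
    have key : P = 0 ∧ Q = 0 := by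
      by_cases hex : 2 * k + 2 < (minpoly K x).natDegree
      · refine conic_indep hreal (β := β) (hmin _ (lt_of_le_of_lt ?_ hex) ?_)
        · refine (natDegree_sub_le _ _).trans (max_le (natDegree_pow_le.trans (by omega)) ?_)
          refine natDegree_mul_le.trans ?_
          have h1 : (C β - X ^ 2 : K[X]).natDegree ≤ 2 :=
            (natDegree_sub_le _ _).trans (max_le (by simp) (by simp))
          have h2 : (Q ^ 2).natDegree ≤ 2 * k := natDegree_pow_le.trans (by omega)
          omega
        · simp only [map_sub, map_mul, map_pow, aeval_C, aeval_X]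
          rw [← hxy]
          have : aeval x P = -(aeval x Q * y) := eq_neg_of_add_eq_zero_left h
          rw [this]; ring
      · set E := IntermediateField.adjoin K {x} with hE
        have hfin : finrank K E = (minpoly K x).natDegree := IntermediateField.adjoin.finrank hxi
        have hxE : x ∈ E := IntermediateField.mem_adjoin_simple_self K x
        have haE : ∀ f : K[X], aeval x f ∈ E := fun f =>
          IntermediateField.algebra_adjoin_le_adjoin K _ (Polynomial.aeval_mem_adjoin_singleton K x)
        have hyE : y ∉ E := by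
          intro hy
          have h1 : Algebra.adjoin K {x, y} ≤ E.toSubalgebra := by
            refine Algebra.adjoin_le ?_
            rintro _ (rfl | rfl)
            · exact hxE
            · exact hy
          have h2 : E = ⊤ := by
            rw [eq_top_iff]
            intro z _
            exact h1 (hadj ▸ Algebra.mem_top)
          rw [h2, IntermediateField.finrank_top'] at hfin
          omega
        have hQ0 : aeval x Q = 0 := by
          by_contra hne
          apply hyE
          have : y = -(aeval x P) / aeval x Q := by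
            rw [eq_div_iff hne]; linear_combination h
          rw [this]
          exact div_mem (neg_mem (haE P)) (haE Q)
        have hP0 : aeval x P = 0 := by rw [hQ0] at h; simpa using h
        have hsp : span E ({1, y} : Set L) = ⊤ := by
          have h1 : ∀ z ∈ Algebra.adjoin K {x, y}, ∀ w ∈ span E ({1, y} : Set L),
              z * w ∈ span E ({1, y} : Set L) := by
            intro z hz
            induction hz using Algebra.adjoin_induction with
            | mem z hz =>
              intro w hw
              rcases hz with rfl | rfl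
              · exact smul_mem _ (⟨z, hxE⟩ : E) hw
              · obtain ⟨a, b, rfl⟩ := mem_span_pair.1 hw
                refine mem_span_pair.2 ⟨b * ⟨algebraMap K L β - x ^ 2,
                  sub_mem (E.algebraMap_mem β) (pow_mem hxE 2)⟩, a, ?_⟩
                simp only [IntermediateField.smul_def, smul_eq_mul, MulMemClass.coe_mul]
                rw [← hxy]; ring
            | algebraMap c =>
              intro w hw
              exact smul_mem _ (⟨algebraMap K L c, E.algebraMap_mem c⟩ : E) hw
            | add x z _ _ hx hz => intro w hw; rw [add_mul]; exact add_mem (hx w hw) (hz w hw)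
            | mul x z _ _ hx hz => intro w hw; rw [mul_assoc]; exact hx _ (hz w hw)
          rw [eq_top_iff]
          intro z _
          simpa using h1 z (hadj ▸ Algebra.mem_top) 1 (subset_span (by simp))
        have h2 : finrank E L ≤ 2 := by
          rw [← finrank_top, ← hsp]
          have := finrank_span_finset_le_card (R := E) ({1, y} : Finset L)
          rw [Finset.coe_pair] at this
          exact this.trans Finset.card_le_two
        have h3 := Module.finrank_mul_finrank K E L
        have h4 : finrank K L ≤ finrank K E * 2 := h3 ▸ Nat.mul_le_mul_left _ h2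
        exact ⟨hmin P (by omega) hP0, hmin Q (by omega) hQ0⟩
    ext1
    · exact Subtype.ext key.1
    · exact Subtype.ext key.2
  have hr : LinearMap.range Ψ ≤ Wlt K x y (k + 2) := by
    rintro _ ⟨⟨⟨P, hP⟩, ⟨Q, hQ⟩⟩, rfl⟩
    rw [hΨ]
    refine add_mem ?_ ?_
    · have := aeval_mul_mem x y (mem_degreeLT.1 hP) (g := 1) (b := 1) (k := k + 2) (by simp) le_rfl
      simpa using this
    · have := aeval_mul_mem x y (mem_degreeLT.1 hQ) (g := X) (b := 2) (k := k + 2)
        (by rw [degree_X]; exact_mod_cast one_lt_two) le_rfl
      simpa using this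
  have := Submodule.finrank_mono hr
  rw [LinearMap.finrank_range_of_inj hinj, Module.finrank_prod, finrank_degLT, finrank_degLT] at this
  omega

end Pool.Agent.H77Z.Py
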