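import Pool.Agent.H77Z.Py.Disc
import Pool.Agent.H77Z.Py.Grow

namespace Pool.Agent.H77Z.Py

open Polynomial Module Submodule

lemma sqfree_pair (j : ℕ) : ∃ (t D : ℤ) (q : ℕ), Squarefree D ∧ 0 < q ∧ q ≤ 256 ∧
    |t| ≤ 2 ^ (j + 1) ∧ D * q ^ 2 = 4 * (2 ^ (j + 1)) ^ 2 - t ^ 2 := by
  classical
  set n : ℕ := 2 ^ (j + 1) with hn
  have hn0 : 0 < n := by positivity
  set Bad := (Finset.Ioc 0 (4 * n)).filter (fun s => ∃ q, 16 < q ∧ q ^ 2 ∣ s) with hBad
  have hcard : 4 * Bad.card ≤ n := by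
    have h1 : Bad ⊆ (Finset.Ioc 16 (4 * n + 16)).biUnion
        (fun q => (Finset.Ioc 0 (4 * n)).filter (fun s => q ^ 2 ∣ s)) := by
      intro s hs
      obtain ⟨hs1, q, hq1, hq2⟩ := Finset.mem_filter.1 hs
      refine Finset.mem_biUnion.2 ⟨q, Finset.mem_Ioc.2 ⟨hq1, ?_⟩, Finset.mem_filter.2 ⟨hs1, hq2⟩⟩
      have h2 := Nat.le_of_dvd (Finset.mem_Ioc.1 hs1).1 hq2
      have h3 := (Finset.mem_Ioc.1 hs1).2
      nlinarith
    have h2 := (Finset.card_le_card h1).trans Finset.card_biUnion_le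
    simp only [Nat.Ioc_filter_dvd_card_eq_div] at h2
    have h3 : (Bad.card : ℝ) ≤ ∑ q ∈ Finset.Ioc 16 (4 * n + 16), (4 * n : ℝ) * ((q : ℝ) ^ 2)⁻¹ := by
      refine le_trans (Nat.cast_le.2 h2) ?_
      push_cast
      refine Finset.sum_le_sum fun q _ => ?_
      refine Nat.cast_div_le.trans (le_of_eq ?_)
      push_cast
      rw [div_eq_mul_inv]
    rw [← Finset.mul_sum] at h3
    have h4 := sum_Ioc_inv_sq_le_sub (α := ℝ) (k := 16) (n := 4 * n + 16) (by norm_num) (by omega)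
    have h5 : (0 : ℝ) ≤ ((4 * n + 16 : ℕ) : ℝ)⁻¹ := by positivity
    have h6 : (0 : ℝ) ≤ n := by positivity
    have h7 : (4 * Bad.card : ℝ) ≤ n := by
      push_cast at h4 h5
      nlinarith
    exact_mod_cast h7
  have hex : ∃ i ∈ Finset.range n, n + 2 * i + 1 ∉ Bad ∧ n + 2 * (n - 1 - i) + 1 ∉ Bad := by
    by_contra hcon
    push Not at hcon
    have h1 : Finset.range n ⊆ (Finset.range n).filter (fun i => n + 2 * i + 1 ∈ Bad) ∪
        (Finset.range n).filter (fun i => n + 2 * (n - 1 - i) + 1 ∈ Bad) := by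
      intro i hi
      by_cases h : n + 2 * i + 1 ∈ Bad
      · exact Finset.mem_union_left _ (Finset.mem_filter.2 ⟨hi, h⟩)
      · exact Finset.mem_union_right _ (Finset.mem_filter.2 ⟨hi, hcon i hi h⟩)
    have h2 := (Finset.card_le_card h1).trans (Finset.card_union_le _ _)
    have h3 : ((Finset.range n).filter (fun i => n + 2 * i + 1 ∈ Bad)).card ≤ Bad.card :=
      Finset.card_le_card_of_injOn (fun i => n + 2 * i + 1)
        (fun i hi => (Finset.mem_filter.1 hi).2) (fun a _ b _ h => by simp only at h; omega)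
    have h4 : ((Finset.range n).filter (fun i => n + 2 * (n - 1 - i) + 1 ∈ Bad)).card ≤ Bad.card :=
      Finset.card_le_card_of_injOn (fun i => n + 2 * (n - 1 - i) + 1)
        (fun i hi => (Finset.mem_filter.1 hi).2) (fun a ha b hb h => by
          have ha' := Finset.mem_range.1 (Finset.mem_filter.1 ha).1
          have hb' := Finset.mem_range.1 (Finset.mem_filter.1 hb).1
          simp only at h; omega)
    rw [Finset.card_range] at h2
    omega
  obtain ⟨i, hi, h1, h2⟩ := hex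
  have hi' := Finset.mem_range.1 hi
  have hgood : ∀ s, 0 < s → s ≤ 4 * n → s ∉ Bad → ∃ a b, b ^ 2 * a = s ∧ Squarefree a ∧ 0 < b ∧ b ≤ 16 := by
    intro s h0 h4 hs
    obtain ⟨a, b, hab, ha⟩ := Nat.sq_mul_squarefree s
    refine ⟨a, b, hab, ha, ?_, ?_⟩
    · rcases Nat.eq_zero_or_pos b with h | h
      · rw [h] at hab; omega
      · exact h
    · by_contra h
      exact hs (Finset.mem_filter.2 ⟨Finset.mem_Ioc.2 ⟨h0, h4⟩, b, by omega, ⟨a, hab.symm⟩⟩)
  obtain ⟨a, b, hab, ha, hb0, hb⟩ := hgood _ (by omega) (by omega) h1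
  obtain ⟨a', b', hab', ha', hb0', hb'⟩ := hgood _ (by omega) (by omega) h2
  have hcop : Nat.Coprime (n + 2 * i + 1) (n + 2 * (n - 1 - i) + 1) := by
    have h3 : Nat.Coprime (n + 2 * i + 1) (2 ^ (j + 3)) := by
      refine Nat.Coprime.pow_right _ ?_
      rw [Nat.coprime_two_right]
      exact ⟨2 ^ j + i, by rw [hn]; ring⟩
    have h4 : 2 ^ (j + 3) = (n + 2 * (n - 1 - i) + 1) + (n + 2 * i + 1) := by
      have : 2 ^ (j + 3) = 4 * n := by rw [hn]; ring
      omega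
    rw [h4, Nat.coprime_add_self_right] at h3
    exact h3
  have hcop' : Nat.Coprime a a' := by
    rw [← hab, ← hab'] at hcop
    exact (hcop.coprime_mul_left).coprime_mul_left_right
  refine ⟨(n : ℤ) - 2 * i - 1, ((a * a' : ℕ) : ℤ), b * b', ?_, by positivity, by nlinarith, ?_, ?_⟩
  · exact Int.squarefree_natCast.2 (Nat.squarefree_mul_iff.2 ⟨hcop', ha, ha'⟩)
  · have : ((2 : ℤ)) ^ (j + 1) = n := by rw [hn]; push_cast; rfl
    rw [this, abs_le]
    constructor <;> omega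
  · have e0 : ((2 : ℤ)) ^ (j + 1) = n := by rw [hn]; push_cast; rfl
    have e1 : (b : ℤ) ^ 2 * a = n + 2 * i + 1 := by exact_mod_cast hab
    have e2 : (b' : ℤ) ^ 2 * a' = 3 * n - 2 * i - 1 := by
      have : (b' : ℤ) ^ 2 * a' = ((n + 2 * (n - 1 - i) + 1 : ℕ) : ℤ) := by exact_mod_cast hab'
      rw [this]; omega
    rw [e0]
    push_cast
    calc (a : ℤ) * a' * (b * b') ^ 2 = ((b : ℤ) ^ 2 * a) * ((b' : ℤ) ^ 2 * a') := by ring
      _ = _ := by rw [e1, e2]; ring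

lemma exists_M (C : ℝ) (k : ℕ) : ∃ M : ℕ, C * ((M : ℝ) + 1) ^ k < 2 ^ M := by
  have h := tendsto_pow_const_div_const_pow_of_one_lt k (r := 2) one_lt_two
  have h2 := (h.comp (Filter.tendsto_add_atTop_nat 1)).eventually
    (gt_mem_nhds (show (0 : ℝ) < 1 / (2 * (|C| + 1)) by positivity))
  obtain ⟨M, hM⟩ := h2.exists
  refine ⟨M, ?_⟩
  simp only [Function.comp] at hM
  push_cast at hM
  rw [div_lt_div_iff₀ (by positivity) (by positivity), pow_succ] at hM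
  have h3 : C * ((M : ℝ) + 1) ^ k ≤ (|C| + 1) * ((M : ℝ) + 1) ^ k :=
    mul_le_mul_of_nonneg_right (by linarith [le_abs_self C]) (by positivity)
  nlinarith

lemma numeric {κ q m d r M : ℕ} {b cc Z : ℝ} (hm1 : 1 ≤ m) (hm : m ≤ 2 * r * (M + 1))
    (hq : q ≤ 256) (hb0 : 0 < b) (hcc : 1 ≤ cc) (hb : 2 * cc ^ (2 * r) ≤ b ^ (4 * d))
    (hM : (512 * κ * (2 * r + 1) ^ 8 : ℝ) ^ (4 * d) * cc ^ (2 * r + 2) * ((M : ℝ) + 1) ^ (32 * d)
      < 2 ^ M) (hZ0 : 0 ≤ Z) (hZ : Z ^ 4 ≤ (cc ^ (m + 2)) ^ m)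
    (h : 1 ≤ (κ * q * (m * (m / (b ^ M / 2))) * (m + 1) ^ 6 : ℝ) ^ (m * d) * Z) : False := by
  obtain ⟨Q, hQ⟩ : ∃ Q : ℝ, Q = κ * q * (m * (m / (b ^ M / 2))) * (m + 1) ^ 6 := ⟨_, rfl⟩
  rw [← hQ] at h
  have hQ0 : 0 ≤ Q := by rw [hQ]; positivity
  have h1 : 1 ≤ (Q ^ (4 * d) * cc ^ (m + 2)) ^ m := by
    have h2 : (1 : ℝ) ≤ (Q ^ (m * d) * Z) ^ 4 := one_le_pow₀ h
    refine h2.trans ?_
    rw [mul_pow, mul_pow, ← pow_mul, ← pow_mul, show m * d * 4 = 4 * d * m by ring]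
    exact mul_le_mul_of_nonneg_left hZ (by positivity)
  have h2 : 1 ≤ Q ^ (4 * d) * cc ^ (m + 2) := by
    by_contra hcon
    push Not at hcon
    exact absurd h1 (not_le.2 (pow_lt_one₀ (by positivity) hcon (by omega)))
  have hm' : (m : ℝ) + 1 ≤ (2 * r + 1) * (M + 1) := by
    have : (m : ℝ) ≤ 2 * r * (M + 1) := by exact_mod_cast hm
    have : (0 : ℝ) ≤ M := by positivity
    nlinarith
  have hq' : (q : ℝ) ≤ 256 := by exact_mod_cast hq
  have h3 : Q * b ^ M ≤ 512 * κ * (2 * r + 1) ^ 8 * ((M : ℝ) + 1) ^ 8 := by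
    have e : Q * b ^ M = 2 * κ * q * (m * m * (m + 1) ^ 6) := by
      rw [hQ]; field_simp
    have h4 : (m : ℝ) * m * (m + 1) ^ 6 ≤ ((2 * r + 1) * (M + 1)) ^ 8 := by
      calc (m : ℝ) * m * (m + 1) ^ 6 ≤ ((m : ℝ) + 1) * (m + 1) * (m + 1) ^ 6 := by
            gcongr <;> linarith
        _ = ((m : ℝ) + 1) ^ 8 := by ring
        _ ≤ _ := by gcongr
    rw [e]
    calc 2 * (κ : ℝ) * q * (m * m * (m + 1) ^ 6) ≤ 2 * κ * 256 * ((2 * r + 1) * (M + 1)) ^ 8 := by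
          gcongr
      _ = _ := by ring
  have h4 : Q ^ (4 * d) * (b ^ (4 * d)) ^ M ≤
      (512 * κ * (2 * r + 1) ^ 8 : ℝ) ^ (4 * d) * ((M : ℝ) + 1) ^ (32 * d) := by
    have := pow_le_pow_left₀ (by positivity) h3 (4 * d)
    rw [mul_pow, mul_pow _ (((M : ℝ) + 1) ^ 8), ← pow_mul, ← pow_mul,
      show 8 * (4 * d) = 32 * d by ring, mul_comm M, pow_mul b] at this
    exact this
  have h5 : (2 * cc ^ (2 * r)) ^ M ≤ (b ^ (4 * d)) ^ M := pow_le_pow_left₀ (by positivity) hb M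
  have h6 : cc ^ (m + 2) ≤ (cc ^ (2 * r)) ^ M * cc ^ (2 * r + 2) := by
    rw [← pow_mul, ← pow_add]
    exact pow_le_pow_right₀ hcc (by nlinarith)
  have h7 : (2 : ℝ) ^ M ≤ Q ^ (4 * d) * (b ^ (4 * d)) ^ M * cc ^ (2 * r + 2) := by
    calc (2 : ℝ) ^ M ≤ 2 ^ M * (Q ^ (4 * d) * cc ^ (m + 2)) :=
          le_mul_of_one_le_right (by positivity) h2
      _ ≤ 2 ^ M * (Q ^ (4 * d) * ((cc ^ (2 * r)) ^ M * cc ^ (2 * r + 2))) := by gcongr
      _ = Q ^ (4 * d) * (2 * cc ^ (2 * r)) ^ M * cc ^ (2 * r + 2) := by rw [mul_pow]; ring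
      _ ≤ _ := by gcongr
  have h8 : Q ^ (4 * d) * (b ^ (4 * d)) ^ M * cc ^ (2 * r + 2) ≤
      (512 * κ * (2 * r + 1) ^ 8 : ℝ) ^ (4 * d) * ((M : ℝ) + 1) ^ (32 * d) * cc ^ (2 * r + 2) := by
    gcongr
  nlinarith

/-- The trivial power basis of a field over itself. -/
noncomputable def pbOne (F : Type*) [Field F] : PowerBasis F F :=
  ⟨0, 1, Basis.singleton (Fin 1) F, fun i => by simp [Subsingleton.elim i 0]⟩

variable {F : Type*} [Field F] [NumberField F]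

lemma core {L : Type*} [Field L] [Algebra F L] [FiniteDimensional F L] (hL : TR L) {κ : ℕ}
    (hκ0 : 0 < κ)
    (hκ : ∀ (T : F) (D : ℤ), Squarefree D → IsIntegral ℤ (T ^ 2 * D) → IsIntegral ℤ (κ * T))
    {α β : F} (cA cB : (F →+* ℝ) → ℝ) (hcA : ∀ φ, 0 ≤ cA φ) (hcB : ∀ φ, 0 ≤ cB φ)
    (hA : ∀ φ : F →+* ℝ, φ α = 4 * cA φ ^ 2) (hB : ∀ φ : F →+* ℝ, φ β = 4 * cB φ ^ 2)
    {cc : ℝ} (hcc : 1 ≤ cc) (hPA : ∏ φ, cA φ ^ 2 ≤ cc) (hPB : ∏ φ, cB φ ^ 2 ≤ cc ^ 2)
    {x y u : L} (hx : IsIntegral ℤ x) (hy : IsIntegral ℤ y) (hu : IsIntegral ℤ u)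
    (hxy : x ^ 2 + y ^ 2 = algebraMap F L β) (hadj : Algebra.adjoin F {x, y} = ⊤)
    {r M b q : ℕ} {t D : ℤ} (hm : finrank F L ≤ 2 * r * (M + 1)) (hb0 : 0 < b)
    (hb : 2 * cc ^ (2 * r) ≤ (b : ℝ) ^ (4 * finrank ℚ F))
    (hM : (512 * κ * (2 * r + 1) ^ 8 : ℝ) ^ (4 * finrank ℚ F) * cc ^ (2 * r + 2) *
      ((M : ℝ) + 1) ^ (32 * finrank ℚ F) < 2 ^ M)
    (hD : Squarefree D) (hq0 : 0 < q) (hq : q ≤ 256) (ht : |t| ≤ b ^ (M + 1))
    (hDq : D * q ^ 2 = 4 * (b ^ (M + 1)) ^ 2 - t ^ 2)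
    (hut : (dickson 1 ((b : L) ^ 2) (M + 1)).eval u = t) :
    3 ≤ finrank F L ∧ ∀ (k : ℕ) (γ : Fin k → L), (∀ i, IsIntegral ℤ (γ i)) →
      algebraMap F L α = ∑ i, γ i ^ 2 → ∀ i, γ i ∈ Set.range (algebraMap F L) := by
  classical
  haveI : CharZero L := charZero_of_injective_algebraMap (algebraMap F L).injective
  have hF : TR F := hL.of_algebra
  set m := finrank F L with hmdef
  have hm1 : 1 ≤ m := finrank_pos
  set E := (dickson 2 ((b : L) ^ 2) M).eval u with hEdef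
  have hb' : (0 : ℝ) < b := by exact_mod_cast hb0
  have hid : (D : L) * q ^ 2 = (4 * b ^ 2 - u ^ 2) * E ^ 2 := by
    have h1 := congrArg (eval u) (D_sq ((b : L) ^ 2) M)
    simp only [eval_sub, eval_mul, eval_pow, eval_X, eval_C, eval_ofNat] at h1
    rw [hut] at h1
    have h2 : (D : L) * q ^ 2 = 4 * (b ^ (M + 1)) ^ 2 - t ^ 2 := by exact_mod_cast hDq
    rw [h2]
    linear_combination -h1
  have hEb : ∀ σ : L →+* ℝ, (b : ℝ) ^ M / 2 ≤ |σ E| := by
    intro σ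
    have h1 := congrArg σ hid
    simp only [map_mul, map_pow, map_sub, map_intCast, map_natCast, map_ofNat] at h1
    have h2 : (D : ℝ) * q ^ 2 = 4 * (b ^ (M + 1)) ^ 2 - t ^ 2 := by exact_mod_cast hDq
    have h3 : |(t : ℝ)| ≤ b ^ (M + 1) := by exact_mod_cast ht
    have h4 : (t : ℝ) ^ 2 ≤ (b ^ (M + 1)) ^ 2 := by
      rw [← sq_abs]; exact pow_le_pow_left₀ (abs_nonneg _) h3 2
    refine (sq_le_sq₀ (by positivity) (abs_nonneg _)).1 ?_
    rw [sq_abs]
    have h5 : (4 * (b : ℝ) ^ 2) * ((b : ℝ) ^ M / 2) ^ 2 ≤ (4 * (b : ℝ) ^ 2) * σ E ^ 2 := by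
      have h6 : (4 * (b : ℝ) ^ 2) * ((b : ℝ) ^ M / 2) ^ 2 = (b ^ (M + 1)) ^ 2 := by ring
      rw [h6]
      nlinarith [mul_nonneg (sq_nonneg (σ u)) (sq_nonneg (σ E)), sq_nonneg ((b : ℝ) ^ (M + 1))]
    exact le_of_mul_le_mul_left h5 (by positivity)
  obtain ⟨φ0⟩ := nonempty_emb hF
  obtain ⟨σ0, hσ0⟩ := hL.extend φ0
  have hEne : E ≠ 0 := by
    intro h
    have h1 := hEb σ0
    rw [h, map_zero, abs_zero] at h1
    have : (0 : ℝ) < b ^ M / 2 := by positivity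
    linarith
  have hint : ∀ z : L, IsIntegral ℤ z → IsIntegral ℤ ((q * (z * E⁻¹)) ^ 2 * D) := by
    intro z hz
    have e : ((q : L) * (z * E⁻¹)) ^ 2 * D = z ^ 2 * (4 * b ^ 2 - u ^ 2) := by
      have : ((q : L) * (z * E⁻¹)) ^ 2 * D = z ^ 2 * (D * q ^ 2) * (E ^ 2)⁻¹ := by
        rw [← inv_pow]; ring
      rw [this, hid]; field_simp
    rw [e]
    refine (hz.pow 2).mul (IsIntegral.sub ?_ (hu.pow 2))
    have := (isIntegral_algebraMap (R := ℤ) (A := L) (x := 4 * b ^ 2))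
    rw [eq_intCast] at this
    push_cast at this
    exact this
  have hreal : ∀ a c : L, a ^ 2 + c ^ 2 = 0 → a = 0 := by
    intro a c h
    have h1 := congrArg σ0 h
    simp only [map_add, map_pow, map_zero] at h1
    have h2 : σ0 a = 0 := by nlinarith [sq_nonneg (σ0 a), sq_nonneg (σ0 c)]
    exact (map_eq_zero σ0).1 h2
  have hA4 : ∀ φ : F →+* ℝ, φ (α / 4) = cA φ ^ 2 := fun φ => by
    rw [map_div₀, hA, map_ofNat]; ring
  have hB4 : ∀ φ : F →+* ℝ, φ (β / 4) = cB φ ^ 2 := fun φ => by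
    rw [map_div₀, hB, map_ofNat]; ring
  have hxyb : ∀ (φ : F →+* ℝ) (σ : L →+* ℝ), (∀ x, σ (algebraMap F L x) = φ x) →
      σ x ^ 2 ≤ 4 * cB φ ^ 2 ∧ σ y ^ 2 ≤ 4 * cB φ ^ 2 := by
    intro φ σ hσ
    have h1 := congrArg σ hxy
    rw [map_add, map_pow, map_pow, hσ, hB] at h1
    constructor <;> nlinarith [sq_nonneg (σ x), sq_nonneg (σ y)]
  have hPA0 : 0 ≤ ∏ φ, cA φ ^ 2 := by positivity
  have hPB0 : 0 ≤ ∏ φ, cB φ ^ 2 := by positivity
  have hEm : (0 : ℝ) < (b : ℝ) ^ M / 2 := by positivity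
  have fin : ∀ {X Y : ℝ} {I J s t : ℕ}, 0 ≤ X → 0 ≤ Y → X ≤ cc ^ s → Y ≤ cc ^ t →
      s * (4 * I) + t * (4 * J) ≤ (m + 2) * m →
      1 ≤ (κ * q * (m * (m / ((b : ℝ) ^ M / 2))) * (m + 1) ^ 6 : ℝ) ^ (m * finrank ℚ F) *
        X ^ I * Y ^ J → False := by
    intro X Y I J s t hX hY hXs hYt hexp h
    rw [mul_assoc] at h
    refine numeric hm1 hm hq hb' hcc hb hM (by positivity) ?_ h
    rw [mul_pow, ← pow_mul, ← pow_mul, ← pow_mul]
    calc X ^ (I * 4) * Y ^ (J * 4) ≤ (cc ^ s) ^ (I * 4) * (cc ^ t) ^ (J * 4) := by gcongr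
      _ = cc ^ (s * (4 * I) + t * (4 * J)) := by rw [← pow_mul, ← pow_mul, ← pow_add]; congr 1; ring
      _ ≤ _ := pow_le_pow_right₀ hcc hexp
  have hγ0 : IsIntegral ℤ (algebraMap F L (pbOne F).gen) := by
    simpa [pbOne] using isIntegral_zero
  have hm3 : 3 ≤ m := by
    by_contra hcon
    obtain ⟨I, J, hI, hJ, h⟩ := disc_ineq (K := F) hL hκ0 hκ (pbOne F) hγ0 hx hy
      (growth_of hadj fun k hk _ => by omega) cA cB hcA hcB hA4 hB4
      (fun φ σ hσ => ⟨by simp only [pbOne, map_zero]; nlinarith [sq_nonneg (cA φ)], hxyb φ σ hσ⟩)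
      hEm hEb hEne hD hq0 hint
    refine fin (s := 1) (t := 2) hPA0 hPB0 (by simpa using hPA) hPB ?_ h
    have : I = 0 := by simpa [pbOne] using hI
    rw [← hmdef] at hJ
    have h2 : m ≤ 2 := by omega
    nlinarith
  refine ⟨hm3, fun k γ hγ hα i0 => ?_⟩
  by_contra hi0
  have hγb : ∀ (φ : F →+* ℝ) (σ : L →+* ℝ), (∀ x, σ (algebraMap F L x) = φ x) →
      ∀ i, σ (γ i) ^ 2 ≤ 4 * cA φ ^ 2 := by
    intro φ σ hσ i
    have h1 := congrArg σ hα
    rw [hσ, hA, map_sum] at h1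
    rw [h1, ← map_pow]
    refine Finset.single_le_sum (f := fun i => σ (γ i ^ 2)) (fun j _ => ?_) (Finset.mem_univ i)
    rw [map_pow]; exact sq_nonneg _
  set K := IntermediateField.adjoin F {γ i0} with hK
  have hi : IsIntegral F (γ i0) := Algebra.IsIntegral.isIntegral _
  by_cases htop : K = ⊤
  · have hdeg : (minpoly F (γ i0)).natDegree = m := by
      rw [← IntermediateField.adjoin.finrank hi, ← hK, htop, IntermediateField.finrank_top']
    have hp : ∀ f : F[X], f.degree < (finrank F L : WithBot ℕ) → aeval (γ i0) f = 0 → f = 0 := by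
      intro f hf h0
      by_contra hne
      have h1 := minpoly.degree_le_of_ne_zero F (γ i0) hne h0
      rw [degree_eq_natDegree (minpoly.ne_zero hi), hdeg] at h1
      exact absurd (h1.trans_lt hf) (lt_irrefl _)
    have hex : ∃ i1, ∀ f : F[X], f.degree < ((2 : ℕ) : WithBot ℕ) → γ i1 ≠ aeval (γ i0) f := by
      by_contra hcon
      push Not at hcon
      choose f hf1 hf2 using hcon
      have hf3 : ∀ i, (f i).natDegree ≤ 1 := fun i => by
        by_cases h0 : f i = 0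
        · simp [h0]
        · have := (natDegree_lt_iff_degree_lt h0).2 (hf1 i)
          omega
      have h1 : ∑ i, f i * f i - C α = 0 := by
        refine hp _ ?_ ?_
        · refine degree_le_natDegree.trans_lt ?_
          have h2 : (∑ i, f i * f i - C α).natDegree ≤ 2 := by
            refine (natDegree_sub_le _ _).trans (max_le ?_ (by simp))
            refine natDegree_sum_le_of_forall_le _ _ fun i _ => natDegree_mul_le.trans ?_
            have := hf3 i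
            omega
          exact_mod_cast (by omega : _ < m)
        · rw [map_sub, map_sum, aeval_C, hα]
          simp only [map_mul, ← hf2, sq, sub_self]
      have h2 := congrArg (fun g => φ0 (g.coeff (1 + 1))) h1
      simp only [coeff_sub, finset_sum_coeff, coeff_mul_add_eq_of_natDegree_le (hf3 _) (hf3 _),
        coeff_C_succ, sub_zero, coeff_zero, map_zero, map_sum, map_mul] at h2
      have h3 := (Finset.sum_eq_zero_iff_of_nonneg (fun i _ => mul_self_nonneg _)).1 h2 i0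
        (Finset.mem_univ _)
      have h4 : (f i0).coeff 1 = 0 := (map_eq_zero φ0).1 (mul_self_eq_zero.1 h3)
      apply hi0
      refine ⟨(f i0).coeff 0, ?_⟩
      rw [hf2 i0, eq_X_add_C_of_natDegree_le_one (hf3 i0), h4]
      simp
    obtain ⟨i1, hi1⟩ := hex
    obtain ⟨I, J, hI, hJ, h⟩ := disc_ineq (K := F) hL hκ0 hκ (pbOne F) hγ0 (hγ i0) (hγ i1)
      (growth_gen hp hi1) cA cA hcA hcA hA4 hA4
      (fun φ σ hσ => ⟨by simp only [pbOne, map_zero]; nlinarith [sq_nonneg (cA φ)],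
        hγb φ σ hσ _, hγb φ σ hσ _⟩)
      hEm hEb hEne hD hq0 hint
    refine fin (s := 1) (t := 1) hPA0 hPA0 (by simpa using hPA) (by simpa using hPA) ?_ h
    have : I = 0 := by simpa [pbOne] using hI
    rw [← hmdef] at hJ
    nlinarith
  · have hadjK : Algebra.adjoin K {x, y} = ⊤ := by
      rw [eq_top_iff]
      intro z _
      have h1 : Algebra.adjoin F {x, y} ≤ (Algebra.adjoin K {x, y}).restrictScalars F :=
        Algebra.adjoin_le Algebra.subset_adjoin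
      exact h1 (hadj ▸ Algebra.mem_top)
    have hgen : algebraMap K L (IntermediateField.adjoin.powerBasis hi).gen = γ i0 := rfl
    obtain ⟨I, J, hI, hJ, h⟩ := disc_ineq (K := K) hL hκ0 hκ
      (IntermediateField.adjoin.powerBasis hi) (by rw [hgen]; exact hγ i0) hx hy
      (growth_conic (β := algebraMap F K β) (fun a c h => by
          have h1 := hreal (algebraMap K L a) (algebraMap K L c) (by
            rw [← map_pow, ← map_pow, ← map_add, h, map_zero])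
          exact (map_eq_zero _).1 h1)
        (by rw [hxy, ← IsScalarTower.algebraMap_apply]) hadjK)
      cA cB hcA hcB hA4 hB4
      (fun φ σ hσ => ⟨by rw [hgen]; exact hγb φ σ hσ i0, hxyb φ σ hσ⟩)
      hEm hEb hEne hD hq0 hint
    refine fin (s := 1) (t := 2) hPA0 hPB0 (by simpa using hPA) hPB ?_ h
    rw [← (IntermediateField.adjoin.powerBasis hi).finrank, ← hmdef] at hI
    rw [← hmdef] at hJ
    have h1 : finrank F K * finrank K L = m := Module.finrank_mul_finrank F K L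
    have h2 : finrank F K ≠ 1 := fun h => hi0 (by
      have := IntermediateField.finrank_adjoin_simple_eq_one_iff.1 h
      exact IntermediateField.mem_bot.1 this)
    have h3 : finrank K L ≠ 1 := fun h => htop (IntermediateField.finrank_eq_one_iff_eq_top.1 h)
    have h4 : 0 < finrank F K := finrank_pos
    have h5 : 0 < finrank K L := finrank_pos
    obtain ⟨a, ha⟩ : ∃ a, finrank F K = a + 2 := ⟨finrank F K - 2, by omega⟩
    obtain ⟨e, he⟩ : ∃ e, finrank K L = e + 2 := ⟨finrank K L - 2, by omega⟩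
    change 2 * I = m * (finrank F K - 1) at hI
    rw [ha, he] at h1
    rw [ha, show a + 2 - 1 = a + 1 by omega] at hI
    rw [he] at hJ
    have h6 : 2 * (a + 1) + 2 * (e + 2) ≤ m + 2 := by nlinarith [Nat.zero_le (a * e)]
    have h7 := Nat.mul_le_mul_right m h6
    nlinarith

end Pool.Agent.H77Z.Py
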