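import Mathlib

namespace Pool.Agent.H77Z.Py

open Polynomial Module Submodule

section greedy
variable (K : Type*) {V : Type*} [Field K] [AddCommGroup V] [Module K V] {ι : Type*}
  [LinearOrder ι] (v : ι → V)

/-- Indices of the vectors that are not in the span of the earlier ones. -/
def newIdx : Set ι := {i | v i ∉ span K (v '' Set.Iio i)}

lemma mem_span_new [WellFoundedLT ι] (i : ι) : v i ∈ span K (v '' (newIdx K v ∩ Set.Iic i)) := by
  induction i using WellFoundedLT.induction with
  | ind i ih =>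
    by_cases h : i ∈ newIdx K v
    · exact subset_span ⟨i, ⟨h, Set.self_mem_Iic⟩, rfl⟩
    · have h1 : v i ∈ span K (v '' Set.Iio i) := by simpa [newIdx] using h
      refine span_le.2 ?_ h1
      rintro _ ⟨j, hj, rfl⟩
      refine span_mono (Set.image_mono ?_) (ih j hj)
      exact Set.inter_subset_inter_right _ (Set.Iic_subset_Iic.2 (le_of_lt hj))

lemma linIndep_new : LinearIndependent K (fun i : newIdx K v => v i) := by
  classical
  rw [linearIndependent_iff']
  intro s g hs
  by_contra hcon
  push Not at hcon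
  have hne : (s.filter fun i => g i ≠ 0).Nonempty := by
    obtain ⟨i, hi, hg⟩ := hcon
    exact ⟨i, Finset.mem_filter.2 ⟨hi, hg⟩⟩
  obtain ⟨i, hi, hmax⟩ := Finset.exists_max_image _ (fun i : newIdx K v => (i : ι)) hne
  obtain ⟨his, hgi⟩ := Finset.mem_filter.1 hi
  apply i.2
  rw [← Finset.add_sum_erase _ _ his] at hs
  have h1 : v i = -(g i)⁻¹ • ∑ j ∈ s.erase i, g j • v j := by
    have : ∑ j ∈ s.erase i, g j • v j = -(g i • v i) := eq_neg_of_add_eq_zero_right hs
    rw [this, smul_neg, neg_smul, neg_neg, smul_smul, inv_mul_cancel₀ hgi, one_smul]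
  rw [h1]
  refine smul_mem _ _ (sum_mem fun j hj => ?_)
  by_cases hg : g j = 0
  · rw [hg, zero_smul]; exact zero_mem _
  · obtain ⟨hji, hjs⟩ := Finset.mem_erase.1 hj
    refine smul_mem _ _ (subset_span ⟨j, ?_, rfl⟩)
    exact lt_of_le_of_ne (hmax j (Finset.mem_filter.2 ⟨hjs, hg⟩)) fun h => hji (Subtype.ext h)

end greedy

variable (K : Type*) {L : Type*} [Field K] [Field L] [Algebra K L]

/-- The span of the monomials of degree less than `k` in `p` and `q`. -/
def Wlt (p q : L) (k : ℕ) : Submodule K L := span K {z | ∃ a b, a + b < k ∧ z = p ^ a * q ^ b}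

variable {K}

lemma Wlt_mono (p q : L) {k l : ℕ} (h : k ≤ l) : Wlt K p q k ≤ Wlt K p q l :=
  span_mono fun _ ⟨a, b, h1, h2⟩ => ⟨a, b, h1.trans_le h, h2⟩

lemma mon_mem (p q : L) {a b k : ℕ} (h : a + b < k) : p ^ a * q ^ b ∈ Wlt K p q k :=
  subset_span ⟨a, b, h, rfl⟩

lemma one_mem_Wlt (p q : L) (k : ℕ) : (1 : L) ∈ Wlt K p q (k + 1) := by
  simpa using mon_mem (K := K) p q (a := 0) (b := 0) (k := k + 1) (by omega)

lemma mul_left_mem (p q : L) {k : ℕ} {y : L} (hy : y ∈ Wlt K p q k) :
    p * y ∈ Wlt K p q (k + 1) ∧ q * y ∈ Wlt K p q (k + 1) := by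
  induction hy using span_induction with
  | mem z hz =>
    obtain ⟨a, b, h, rfl⟩ := hz
    constructor
    · have := mon_mem (K := K) p q (a := a + 1) (b := b) (k := k + 1) (by omega)
      convert this using 1; ring
    · have := mon_mem (K := K) p q (a := a) (b := b + 1) (k := k + 1) (by omega)
      convert this using 1; ring
  | zero => simp
  | add x y _ _ hx hy =>
    rw [mul_add, mul_add]; exact ⟨add_mem hx.1 hy.1, add_mem hx.2 hy.2⟩
  | smul c x _ hx =>
    rw [mul_smul_comm, mul_smul_comm]; exact ⟨smul_mem _ _ hx.1, smul_mem _ _ hx.2⟩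

lemma aeval_mul_mem (p q : L) {f g : K[X]} {a b k : ℕ} (hf : f.degree < (a : WithBot ℕ))
    (hg : g.degree < (b : WithBot ℕ)) (h : a + b ≤ k + 1) :
    aeval p f * aeval q g ∈ Wlt K p q k := by
  rw [aeval_eq_sum_range, aeval_eq_sum_range, Finset.sum_mul_sum]
  refine sum_mem fun i _ => sum_mem fun j _ => ?_
  by_cases hi : f.coeff i = 0
  · simp [hi]
  by_cases hj : g.coeff j = 0
  · simp [hj]
  have h1 : i < a := by exact_mod_cast (le_degree_of_ne_zero hi).trans_lt hf
  have h2 : j < b := by exact_mod_cast (le_degree_of_ne_zero hj).trans_lt hg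
  rw [smul_mul_smul_comm]
  exact smul_mem _ _ (mon_mem p q (by omega))

lemma modif_mem (p q : L) {f g : K[X]} {a b : ℕ} (hf : (f - X ^ a).degree < (a : WithBot ℕ))
    (hg : (g - X ^ b).degree < (b : WithBot ℕ)) :
    aeval p f * aeval q g - p ^ a * q ^ b ∈ Wlt K p q (a + b) := by
  have h1 : g.degree < ((b + 1 : ℕ) : WithBot ℕ) := by
    have : g = (g - X ^ b) + X ^ b := by ring
    rw [this]
    refine (degree_add_le _ _).trans_lt (max_lt (hg.trans ?_) ((degree_X_pow_le _).trans_lt ?_)) <;>
      exact_mod_cast Nat.lt_succ_self b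
  have h2 : (X ^ a : K[X]).degree < ((a + 1 : ℕ) : WithBot ℕ) :=
    (degree_X_pow_le _).trans_lt (by exact_mod_cast Nat.lt_succ_self a)
  have h3 := aeval_mul_mem p q hf h1 (k := a + b) (by omega)
  have h4 := aeval_mul_mem p q h2 hg (k := a + b) (by omega)
  convert add_mem h3 h4 using 1
  simp only [map_sub, map_pow, aeval_X]
  ring

lemma sum_sub_le (N : ℕ) : ∀ e : ℕ, 4 * ∑ k ∈ Finset.range N, (e - (2 * k + 1)) ≤ e ^ 2 := by
  induction N with
  | zero => simp
  | succ N ih =>
    intro e
    rw [Finset.sum_range_succ']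
    have h1 := ih (e - 2)
    have h2 : ∑ k ∈ Finset.range N, (e - (2 * (k + 1) + 1)) =
        ∑ k ∈ Finset.range N, (e - 2 - (2 * k + 1)) :=
      Finset.sum_congr rfl fun k _ => by omega
    rw [h2]
    rcases le_or_gt 2 e with h | h
    · obtain ⟨e', rfl⟩ : ∃ e', e = e' + 2 := ⟨e - 2, by omega⟩
      simp only [Nat.add_sub_cancel] at h1 ⊢
      have : e' + 2 - (2 * 0 + 1) = e' + 1 := by omega
      rw [this]
      nlinarith
    · have h3 : e - 2 = 0 := by omega
      have h4 : e - (2 * 0 + 1) = 0 := by omega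
      rw [h3] at h1 ⊢
      rw [h4]
      omega

/-- A monomial basis adapted to the degree filtration. -/
lemma adapted [FiniteDimensional K L] (p q : L)
    (hW : ∀ k, min (finrank K L) (2 * k + 1) ≤ finrank K (Wlt K p q (k + 1))) :
    ∃ (J : Type) (_ : Fintype J) (w : Basis J K L) (a b : J → ℕ),
      (∀ j, w j = p ^ a j * q ^ b j) ∧ 4 * ∑ j, (a j + b j) ≤ finrank K L ^ 2 ∧
      (∀ j, a j + b j ≤ finrank K L) ∧
      ∀ k, Wlt K p q k ≤ span K (w '' {j | a j + b j < k}) := by
  classical
  set e := finrank K L with he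
  let v : ℕ ×ₗ ℕ → L := fun i =>
    if (ofLex i).2 ≤ (ofLex i).1 then p ^ (ofLex i).2 * q ^ ((ofLex i).1 - (ofLex i).2) else 0
  have hli := linIndep_new K v
  haveI : Finite (newIdx K v) := hli.finite
  letI : Fintype (newIdx K v) := Fintype.ofFinite _
  have hle : ∀ j : newIdx K v, (ofLex j.1).2 ≤ (ofLex j.1).1 := by
    intro j
    by_contra h
    apply j.2
    simp only [v, if_neg h]
    exact zero_mem _
  have hWle : ∀ k, Wlt K p q k ≤
      span K ((fun j : newIdx K v => v j) '' {j | (ofLex j.1).1 < k}) := by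
    intro k
    refine span_le.2 ?_
    rintro _ ⟨a, b, hab, rfl⟩
    have h1 := mem_span_new K v (toLex (a + b, a))
    have h2 : v (toLex (a + b, a)) = p ^ a * q ^ b := by simp [v]
    rw [h2] at h1
    refine span_mono ?_ h1
    rintro _ ⟨i, ⟨hi1, hi2⟩, rfl⟩
    refine ⟨⟨i, hi1⟩, ?_, rfl⟩
    have h3 : (ofLex i).1 ≤ a + b := Prod.Lex.monotone_fst _ _ hi2
    exact h3.trans_lt hab
  have htop : Wlt K p q (e + 1) = ⊤ := by
    refine eq_top_of_finrank_eq (le_antisymm (finrank_le _) ?_)
    have := hW e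
    rwa [min_eq_left (by omega)] at this
  have hsp : ⊤ ≤ span K (Set.range fun j : newIdx K v => v j) := by
    rw [← htop]
    exact (hWle _).trans (span_mono (Set.image_subset_range _ _))
  have hdeg : ∀ j : newIdx K v, (ofLex j.1).1 ≤ e := by
    intro j
    by_contra h
    apply j.2
    have h1 : v j ∈ Wlt K p q (e + 1) := htop ▸ mem_top
    refine span_mono ?_ (hWle _ h1)
    rintro _ ⟨i, hi, rfl⟩
    refine ⟨i, ?_, rfl⟩
    have hi' : (ofLex i.1).1 < e + 1 := hi
    exact Prod.Lex.lt_iff.2 (Or.inl (by omega))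
  have hab : ∀ j : newIdx K v, (ofLex j.1).2 + ((ofLex j.1).1 - (ofLex j.1).2) = (ofLex j.1).1 :=
    fun j => by have := hle j; omega
  refine ⟨newIdx K v, inferInstance, Basis.mk hli hsp, fun j => (ofLex j.1).2,
    fun j => (ofLex j.1).1 - (ofLex j.1).2, fun j => ?_, ?_, fun j => ?_, fun k => ?_⟩
  · rw [Basis.mk_apply]; simp only [v, if_pos (hle j)]
  · simp only [hab]
    have hcard : Fintype.card (newIdx K v) = e := (finrank_eq_card_basis (Basis.mk hli hsp)).symm
    have h1 : ∑ j : newIdx K v, (ofLex j.1).1 = ∑ k ∈ Finset.range e,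
        (Finset.univ.filter fun j : newIdx K v => k < (ofLex j.1).1).card := by
      simp only [Finset.card_filter]
      rw [Finset.sum_comm]
      refine Finset.sum_congr rfl fun j _ => ?_
      rw [← Finset.card_filter]
      have : (Finset.range e).filter (fun k => k < (ofLex j.1).1) = Finset.range (ofLex j.1).1 := by
        ext k
        simp only [Finset.mem_filter, Finset.mem_range]
        have := hdeg j
        omega
      rw [this, Finset.card_range]
    rw [h1]
    refine le_trans (Nat.mul_le_mul_left 4 (Finset.sum_le_sum fun k _ => ?_)) (sum_sub_le e e)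
    have h2 := Finset.card_filter_add_card_filter_not (s := Finset.univ)
      (fun j : newIdx K v => k < (ofLex j.1).1)
    rw [Finset.card_univ, hcard] at h2
    have h3 : finrank K (Wlt K p q (k + 1)) ≤
        (Finset.univ.filter fun j : newIdx K v => ¬ k < (ofLex j.1).1).card := by
      refine (Submodule.finrank_mono (hWle (k + 1))).trans ?_
      have h4 : ((fun j : newIdx K v => v j) '' {j | (ofLex j.1).1 < k + 1}) =
          ((Finset.univ.filter fun j : newIdx K v => ¬ k < (ofLex j.1).1).image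
            (fun j : newIdx K v => v j) : Finset L) := by
        rw [Finset.coe_image]
        congr 1
        ext j
        simp only [Set.mem_setOf_eq, Finset.coe_filter, Finset.mem_univ, true_and]
        omega
      rw [h4]
      exact (finrank_span_finset_le_card _).trans Finset.card_image_le
    have h5 := hW k
    omega
  · rw [hab]; exact hdeg j
  · simp only [hab, Basis.coe_mk]
    exact hWle k

lemma Wlt_step [FiniteDimensional K L] {p q : L} (hadj : Algebra.adjoin K {p, q} = ⊤) (k : ℕ)
    (h : finrank K (Wlt K p q (k + 1)) < finrank K L) :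
    finrank K (Wlt K p q (k + 1)) < finrank K (Wlt K p q (k + 2)) := by
  refine finrank_lt_finrank_of_lt (lt_of_le_of_ne (Wlt_mono p q (by omega)) fun heq => ?_)
  have h1 : ∀ z ∈ Algebra.adjoin K {p, q}, ∀ y ∈ Wlt K p q (k + 1), z * y ∈ Wlt K p q (k + 1) := by
    intro z hz
    induction hz using Algebra.adjoin_induction with
    | mem z hz =>
      intro y hy
      rw [heq]
      rcases hz with rfl | rfl
      · exact (mul_left_mem _ _ hy).1
      · exact (mul_left_mem _ _ hy).2
    | algebraMap c => intro y hy; rw [← Algebra.smul_def]; exact smul_mem _ _ hy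
    | add x z _ _ hx hz => intro y hy; rw [add_mul]; exact add_mem (hx y hy) (hz y hy)
    | mul x z _ _ hx hz => intro y hy; rw [mul_assoc]; exact hx _ (hz y hy)
  have h2 : Wlt K p q (k + 1) = ⊤ := by
    rw [eq_top_iff]
    intro z _
    simpa using h1 z (hadj ▸ Algebra.mem_top) 1 (one_mem_Wlt p q k)
  rw [h2, finrank_top] at h
  exact lt_irrefl _ h

lemma growth_of [FiniteDimensional K L] {p q : L} (hadj : Algebra.adjoin K {p, q} = ⊤)
    (h2 : ∀ k, 2 * k + 3 ≤ finrank K L → 2 * k + 1 ≤ finrank K (Wlt K p q (k + 1)) →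
      2 * k + 3 ≤ finrank K (Wlt K p q (k + 2))) (k : ℕ) :
    min (finrank K L) (2 * k + 1) ≤ finrank K (Wlt K p q (k + 1)) := by
  induction k with
  | zero =>
    refine (min_le_right _ _).trans ?_
    rw [mul_zero, zero_add, Nat.one_le_iff_ne_zero, ne_eq, Submodule.finrank_eq_zero]
    intro h
    have := one_mem_Wlt (K := K) p q 0
    rw [h] at this
    simp at this
  | succ k ih =>
    have hm : finrank K (Wlt K p q (k + 1)) ≤ finrank K (Wlt K p q (k + 2)) :=
      Submodule.finrank_mono (Wlt_mono p q (by omega))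
    have hs := Wlt_step hadj k
    have h3 := h2 k
    have h4 : finrank K (Wlt K p q (k + 1)) ≤ finrank K L := finrank_le _
    change _ ≤ finrank K (Wlt K p q (k + 2))
    omega

end Pool.Agent.H77Z.Py
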