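import Mathlib

namespace Pool.Agent.H77Z.Py

open NumberField Module

/-- Totally real fields. -/
def TR (F : Type*) [Field F] : Prop := ∀ φ : F →+* ℂ, ∀ x, (φ x).im = 0

section
variable {F : Type*} [Field F]

/-- The real embedding attached to a complex embedding with real values. -/
def reEmb (φ : F →+* ℂ) (h : ∀ x, (φ x).im = 0) : F →+* ℝ where
  toFun x := (φ x).re
  map_one' := by simp
  map_mul' x y := by simp [h]
  map_zero' := by simp
  map_add' x y := by simp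

lemma ofReal_reEmb (φ : F →+* ℂ) (h : ∀ x, (φ x).im = 0) (x : F) :
    ((reEmb φ h x : ℝ) : ℂ) = φ x := by
  apply Complex.ext
  · simp [reEmb]
  · simp [h]

/-- Real and complex embeddings of a totally real field. -/
def embEquiv (h : TR F) : (F →+* ℝ) ≃ (F →+* ℂ) where
  toFun φ := Complex.ofRealHom.comp φ
  invFun φ := reEmb φ (h φ)
  left_inv φ := by ext x; simp [reEmb]
  right_inv φ := by
    refine RingHom.ext fun x => ?_
    exact ofReal_reEmb φ (h φ) x

lemma TR.of_algebra {L : Type*} [Field L] [Algebra F L] [Algebra.IsAlgebraic F L] (h : TR L) :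
    TR F := by
  intro φ x
  letI : Algebra F ℂ := φ.toAlgebra
  let ψ : L →ₐ[F] ℂ := IsAlgClosed.lift
  have : φ x = ψ (algebraMap F L x) := (ψ.commutes x).symm
  rw [this]
  exact h ψ.toRingHom _

lemma TR.extend {L : Type*} [Field L] [Algebra F L] [Algebra.IsAlgebraic F L] (h : TR L)
    (φ : F →+* ℝ) : ∃ σ : L →+* ℝ, ∀ x, σ (algebraMap F L x) = φ x := by
  letI : Algebra F ℂ := (Complex.ofRealHom.comp φ).toAlgebra
  let ψ : L →ₐ[F] ℂ := IsAlgClosed.lift
  refine ⟨reEmb ψ.toRingHom (h _), fun x => ?_⟩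
  apply Complex.ofReal_injective
  rw [ofReal_reEmb]
  exact ψ.commutes x

end

variable {F : Type*} [Field F] [NumberField F]

/-- The product of the absolute values of the real conjugates. -/
noncomputable def NP (x : F) : ℝ := ∏ φ : F →+* ℝ, |φ x|

lemma card_emb (h : TR F) : Fintype.card (F →+* ℝ) = finrank ℚ F := by
  rw [Fintype.card_congr (embEquiv h), Embeddings.card]

lemma nonempty_emb (h : TR F) : Nonempty (F →+* ℝ) := by
  rw [← Fintype.card_pos_iff, card_emb h]; exact finrank_pos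

lemma NP_eq (h : TR F) (x : F) : NP x = |((Algebra.norm ℚ x : ℚ) : ℝ)| := by
  have h1 := Algebra.norm_eq_prod_embeddings ℚ ℂ x
  have h2 : ‖algebraMap ℚ ℂ (Algebra.norm ℚ x)‖ = |((Algebra.norm ℚ x : ℚ) : ℝ)| := by
    simp
  rw [← h2, h1, norm_prod, NP]
  refine Fintype.prod_equiv ((embEquiv h).trans (RingHom.equivRatAlgHom F ℂ)) _ _ fun φ => ?_
  simp [embEquiv]

lemma NP_nonneg (x : F) : 0 ≤ NP x := Finset.prod_nonneg fun _ _ => abs_nonneg _

lemma NP_mul (x y : F) : NP (x * y) = NP x * NP y := by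
  simp [NP, Finset.prod_mul_distrib]

lemma one_le_NP (h : TR F) {x : F} (hx : IsIntegral ℤ x) (h0 : x ≠ 0) : 1 ≤ NP x := by
  rw [NP_eq h]
  have h1 : IsIntegral ℤ (Algebra.norm ℚ x) := Algebra.isIntegral_norm ℚ hx
  obtain ⟨z, hz⟩ := IsIntegrallyClosed.isIntegral_iff.1 h1
  have h2 : Algebra.norm ℚ x ≠ 0 := Algebra.norm_ne_zero_iff.2 h0
  rw [← hz] at h2 ⊢
  have h3 : z ≠ 0 := fun h => h2 (by rw [h, map_zero])
  have h4 : (1 : ℝ) ≤ |(z : ℝ)| := by exact_mod_cast Int.one_le_abs h3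
  simpa using h4

lemma NP_algebraMap {L : Type*} [Field L] [NumberField L] [Algebra F L] (h : TR L) (x : F) :
    NP (algebraMap F L x) = NP x ^ finrank F L := by
  haveI : IsScalarTower ℚ F L := IsScalarTower.of_algebraMap_eq' (by ext; simp)
  haveI : FiniteDimensional F L := Module.Finite.of_restrictScalars_finite ℚ F L
  rw [NP_eq h, NP_eq h.of_algebra, ← Algebra.norm_norm (S := F), Algebra.norm_algebraMap, map_pow]
  push_cast
  rw [abs_pow]

lemma box (h : TR F) : ∃ C : ℝ, 0 < C ∧ ∀ Y : (F →+* ℝ) → ℝ, (∀ φ, 0 < Y φ) → 1 ≤ ∏ φ, Y φ →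
    ∃ a : F, IsIntegral ℤ a ∧ a ≠ 0 ∧ ∀ φ, |φ a| ≤ C * Y φ := by
  classical
  have hreal : ∀ φ : F →+* ℂ, ComplexEmbedding.IsReal φ := by
    intro φ
    rw [ComplexEmbedding.isReal_iff]
    refine RingHom.ext fun x => ?_
    rw [ComplexEmbedding.conjugate_coe_eq]
    exact Complex.conj_eq_iff_im.2 (h φ x)
  haveI : IsTotallyReal F := ⟨fun w => ⟨w.embedding, hreal _, w.mk_embedding⟩⟩
  let e : (F →+* ℝ) ≃ InfinitePlace F :=
    { toFun := fun φ => InfinitePlace.mk (embEquiv h φ)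
      invFun := fun w => (embEquiv h).symm w.embedding
      left_inv := fun φ => by
        simp only
        rw [InfinitePlace.embedding_mk_eq_of_isReal (hreal _), Equiv.symm_apply_apply]
      right_inv := fun w => by
        simp only
        rw [Equiv.apply_symm_apply, InfinitePlace.mk_embedding] }
  obtain ⟨B, hB⟩ : ∃ B : NNReal, mixedEmbedding.minkowskiBound F ↑(1 : (FractionalIdeal (nonZeroDivisors (𝓞 F)) F)ˣ) < B := by
    have h1 := mixedEmbedding.minkowskiBound_lt_top F (1 : (FractionalIdeal (nonZeroDivisors (𝓞 F)) F)ˣ)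
    obtain ⟨B, hB, -⟩ := ENNReal.lt_iff_exists_nnreal_btwn.1 h1
    exact ⟨B, hB⟩
  refine ⟨B + 1, by positivity, fun Y hY hprod => ?_⟩
  let f : InfinitePlace F → NNReal := fun w => ⟨(B + 1) * Y (e.symm w), by
    have := hY (e.symm w); positivity⟩
  have hvol : mixedEmbedding.minkowskiBound F ↑(1 : (FractionalIdeal (nonZeroDivisors (𝓞 F)) F)ˣ) <
      MeasureTheory.volume (mixedEmbedding.convexBodyLT F f) := by
    rw [mixedEmbedding.convexBodyLT_volume]
    refine hB.trans_le ?_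
    rw [← ENNReal.coe_mul, ENNReal.coe_le_coe]
    refine le_trans ?_ (le_mul_of_one_le_left (zero_le) (mixedEmbedding.one_le_convexBodyLTFactor F))
    simp only [IsTotallyReal.mult_eq, pow_one]
    rw [← NNReal.coe_le_coe, NNReal.coe_prod]
    have h2 : ∏ w, (f w : ℝ) = ∏ φ : F →+* ℝ, ((B + 1) * Y φ) :=
      (Fintype.prod_equiv e _ _ fun φ => by
        change _ = (B + 1) * Y (e.symm (e φ))
        rw [Equiv.symm_apply_apply]).symm
    rw [h2, Finset.prod_mul_distrib, Finset.prod_const, Finset.card_univ]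
    have h3 : Fintype.card (F →+* ℝ) ≠ 0 := by rw [card_emb h]; exact finrank_pos.ne'
    have h4 : (B : ℝ) + 1 ≤ ((B : ℝ) + 1) ^ Fintype.card (F →+* ℝ) :=
      le_self_pow₀ (by have := B.2; linarith [B.coe_nonneg]) h3
    have h5 : (0 : ℝ) ≤ ((B : ℝ) + 1) ^ Fintype.card (F →+* ℝ) := by positivity
    nlinarith
  obtain ⟨a, ha0, ha⟩ := mixedEmbedding.exists_ne_zero_mem_ringOfIntegers_lt F hvol
  refine ⟨a, a.2, RingOfIntegers.coe_ne_zero_iff.2 ha0, fun φ => ?_⟩
  have h1 := (ha (e φ)).le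
  have h2 : (e φ) (a : F) = |φ a| := by
    simp [e, embEquiv]
  have h3 : (f (e φ) : ℝ) = (B + 1) * Y φ := by
    change (B + 1) * Y (e.symm (e φ)) = _
    rw [Equiv.symm_apply_apply]
  rw [← h2, ← h3]
  exact h1

lemma approx (h : TR F) : ∃ C : ℝ, 0 < C ∧ ∀ Y : (F →+* ℝ) → ℝ, (∀ φ, 0 < Y φ) → 1 ≤ ∏ φ, Y φ →
    ∀ x : F, ∃ n : F, IsIntegral ℤ n ∧ ∀ φ : F →+* ℝ, |φ (x - n)| ≤ C * Y φ := by
  classical
  obtain ⟨C, hC, hbox⟩ := box h
  set η := integralBasis F with hη
  set C2 : ℝ := ∑ φ : F →+* ℝ, ∑ i, |φ (η i)| + 1 with hC2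
  have hC2pos : 0 < C2 := by positivity
  refine ⟨C * C2, by positivity, fun Y hY hprod x => ?_⟩
  obtain ⟨a, hai, ha0, ha⟩ := hbox Y hY hprod
  set q := η.repr (x / a) with hq
  refine ⟨a * ∑ i, (⌊q i⌋ : ℤ) • η i, hai.mul (IsIntegral.sum _ fun i _ => ?_), fun φ => ?_⟩
  · refine IsIntegral.zsmul ?_ _
    rw [hη, integralBasis_apply]
    exact (RingOfIntegers.basis F i).2
  · have h1 : x - a * ∑ i, (⌊q i⌋ : ℤ) • η i = a * ∑ i, Int.fract (q i) • η i := by
      have h2 : x = a * ∑ i, q i • η i := by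
        rw [η.sum_repr]; field_simp
      conv_lhs => rw [h2]
      rw [← mul_sub, ← Finset.sum_sub_distrib]
      congr 1
      refine Finset.sum_congr rfl fun i _ => ?_
      rw [Int.fract, sub_smul, Int.cast_smul_eq_zsmul]
    rw [h1, map_mul, abs_mul, map_sum]
    have h3 : |∑ i, φ (Int.fract (q i) • η i)| ≤ C2 := by
      refine (Finset.abs_sum_le_sum_abs _ _).trans ?_
      have h4 : ∑ i, |φ (Int.fract (q i) • η i)| ≤ ∑ i, |φ (η i)| := by
        refine Finset.sum_le_sum fun i _ => ?_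
        rw [Rat.smul_def, map_mul, map_ratCast, abs_mul]
        refine mul_le_of_le_one_left (abs_nonneg _) ?_
        have h5 : (0 : ℝ) ≤ (Int.fract (q i) : ℚ) := by exact_mod_cast Int.fract_nonneg _
        have h6 : ((Int.fract (q i) : ℚ) : ℝ) ≤ 1 := by exact_mod_cast (Int.fract_lt_one _).le
        rw [abs_of_nonneg h5]; exact h6
      have h7 : ∑ i, |φ (η i)| ≤ ∑ φ : F →+* ℝ, ∑ i, |φ (η i)| :=
        Finset.single_le_sum (f := fun φ : F →+* ℝ => ∑ i, |φ (η i)|)
          (fun _ _ => by positivity) (Finset.mem_univ φ)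
      linarith
    calc |φ a| * |∑ i, φ (Int.fract (q i) • η i)| ≤ (C * Y φ) * C2 :=
          mul_le_mul (ha φ) h3 (abs_nonneg _) (by have := hY φ; positivity)
      _ = _ := by ring

lemma sqrt_trick {K L : Type*} [Field K] [Field L] [Algebra K L] [CharZero K]
    [FiniteDimensional K L]
    (D : ℤ) {z : L} (hz : IsIntegral ℤ (z ^ 2 * D)) :
    IsIntegral ℤ ((Algebra.trace K L z) ^ 2 * D) := by
  let E := AlgebraicClosure K
  obtain ⟨s, hs⟩ := IsAlgClosed.exists_pow_nat_eq (D : E) (n := 2) (by norm_num)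
  have h1 : IsIntegral ℤ (algebraMap K E (Algebra.trace K L z) * s) := by
    rw [trace_eq_sum_embeddings E, Finset.sum_mul]
    refine IsIntegral.sum _ fun σ _ => ?_
    refine IsIntegral.of_pow (n := 2) (by norm_num) ?_
    have : (σ z * s) ^ 2 = σ (z ^ 2 * D) := by
      rw [mul_pow, hs, map_mul, map_pow, map_intCast]
    rw [this]
    exact map_isIntegral_int σ.toRingHom hz
  have h2 : algebraMap K E ((Algebra.trace K L z) ^ 2 * D) =
      (algebraMap K E (Algebra.trace K L z) * s) ^ 2 := by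
    rw [mul_pow, hs, map_mul, map_pow, map_intCast]
  exact (isIntegral_algebraMap_iff (algebraMap K E).injective).1 (h2 ▸ h1.pow 2)

lemma rat_int_of_sq {τ : ℚ} {D : ℤ} (hD : Squarefree D) (h : IsIntegral ℤ (τ ^ 2 * D)) :
    ∃ z : ℤ, (z : ℚ) = τ := by
  obtain ⟨w, hw⟩ := IsIntegrallyClosed.isIntegral_iff.1 h
  have hw' : (w : ℚ) = τ ^ 2 * D := by simpa using hw
  have h1 : w * (τ.den : ℤ) ^ 2 = τ.num ^ 2 * D := by
    have : (w : ℚ) * (τ.den : ℚ) ^ 2 = (τ.num : ℚ) ^ 2 * D := by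
      rw [hw', ← Rat.mul_den_eq_num τ]; ring
    exact_mod_cast this
  have h2 : IsCoprime ((τ.den : ℤ) ^ 2) (τ.num ^ 2) := by
    refine IsCoprime.pow ?_
    rw [Int.isCoprime_iff_gcd_eq_one, Int.gcd_comm]
    exact τ.reduced
  have h3 : (τ.den : ℤ) ^ 2 ∣ D := h2.dvd_of_dvd_mul_left ⟨w, by rw [← h1]; ring⟩
  have h4 : IsUnit (τ.den : ℤ) := hD _ (by rwa [← sq])
  have h5 : τ.den = 1 := by
    have := Int.isUnit_iff_natAbs_eq.1 h4
    simpa using this
  exact ⟨τ.num, (Rat.den_eq_one_iff τ).1 h5⟩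

lemma kappa (F : Type*) [Field F] [NumberField F] : ∃ κ : ℕ, 0 < κ ∧ ∀ (T : F) (D : ℤ),
    Squarefree D → IsIntegral ℤ (T ^ 2 * D) → IsIntegral ℤ (κ * T) := by
  classical
  set η := integralBasis F with hη
  have hηi : ∀ i, IsIntegral ℤ (η i) := fun i => by
    rw [hη, integralBasis_apply]
    exact (RingOfIntegers.basis F i).2
  set B := Algebra.traceForm ℚ F
  have hB : B.Nondegenerate := traceForm_nondegenerate ℚ F
  set ζ := B.dualBasis hB η
  have hz : ∀ i, ∃ k : ℕ, 0 < k ∧ IsIntegral ℤ (k * ζ i) := by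
    intro i
    have ha : IsAlgebraic ℤ (ζ i) :=
      (IsFractionRing.isAlgebraic_iff ℤ ℚ F).2 (Algebra.IsAlgebraic.isAlgebraic _)
    obtain ⟨y, hy0, hy⟩ := ha.exists_integral_multiple
    refine ⟨y.natAbs, Int.natAbs_pos.2 hy0, ?_⟩
    rw [zsmul_eq_mul] at hy
    rcases Int.natAbs_eq y with h | h
    · rw [h] at hy; simpa using hy
    · have := hy.neg
      rw [h] at this; simpa using this
  choose k hk0 hk using hz
  refine ⟨∏ i, k i, Finset.prod_pos fun i _ => hk0 i, fun T D hD hT => ?_⟩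
  have hT' : T = ∑ i, ζ.repr T i • ζ i := (ζ.sum_repr T).symm
  rw [hT', Finset.mul_sum]
  refine IsIntegral.sum _ fun i _ => ?_
  have h1 : ζ.repr T i = Algebra.trace ℚ F (T * η i) := by
    rw [LinearMap.BilinForm.dualBasis_repr_apply]; rfl
  have h2 : IsIntegral ℤ ((T * η i) ^ 2 * D) := by
    have : (T * η i) ^ 2 * D = (T ^ 2 * D) * η i ^ 2 := by ring
    rw [this]; exact hT.mul ((hηi i).pow 2)
  obtain ⟨z, hz⟩ := rat_int_of_sq hD (sqrt_trick (K := ℚ) D h2)
  rw [h1, ← hz, ← Finset.mul_prod_erase _ _ (Finset.mem_univ i)]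
  have : ((k i * ∏ x ∈ Finset.univ.erase i, k x : ℕ) : F) * (z : ℚ) • ζ i =
      ((z * ∏ x ∈ Finset.univ.erase i, k x : ℤ) : F) * (k i * ζ i) := by
    rw [Rat.smul_def]; push_cast; ring
  rw [this]
  exact (isIntegral_algebraMap (R := ℤ) (A := F)).mul (hk i)

lemma trace_bound {L : Type*} [Field L] [Algebra F L] [FiniteDimensional F L] (h : TR L)
    (φ : F →+* ℝ) (z : L) {B : ℝ}
    (hB : ∀ σ : L →+* ℝ, (∀ x, σ (algebraMap F L x) = φ x) → |σ z| ≤ B) :
    |φ (Algebra.trace F L z)| ≤ finrank F L * B := by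
  letI : Algebra F ℂ := (Complex.ofRealHom.comp φ).toAlgebra
  have h1 := trace_eq_sum_embeddings ℂ (K := F) (L := L) (x := z)
  have h2 : |φ (Algebra.trace F L z)| = ‖algebraMap F ℂ (Algebra.trace F L z)‖ := by
    change _ = ‖((φ (Algebra.trace F L z) : ℝ) : ℂ)‖
    rw [Complex.norm_real, Real.norm_eq_abs]
  rw [h2, h1]
  refine (norm_sum_le _ _).trans ?_
  have h3 : ∀ σ : L →ₐ[F] ℂ, ‖σ z‖ ≤ B := by
    intro σ
    have h4 := hB (reEmb σ.toRingHom (h _)) (fun x => by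
      apply Complex.ofReal_injective
      rw [ofReal_reEmb]
      exact σ.commutes x)
    have h5 := ofReal_reEmb σ.toRingHom (h _) z
    change _ = σ z at h5
    rw [← h5, Complex.norm_real, Real.norm_eq_abs]
    exact h4
  refine (Finset.sum_le_sum fun σ _ => h3 σ).trans ?_
  rw [Finset.sum_const, Finset.card_univ, AlgHom.card, nsmul_eq_mul]

end Pool.Agent.H77Z.Py
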