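import Pool.Agent.H77Z.Py.Dk
import Pool.Agent.H77Z.Py.NF
import Pool.Agent.H77Z.Py.Lin

namespace Pool.Agent.H77Z.Py

open Polynomial Module Submodule

lemma det_bound {n : Type*} [Fintype n] [DecidableEq n] (G : Matrix n n ℝ) (s : n → ℝ) {c : ℝ}
    (hc : 0 ≤ c) (hs : ∀ x, 0 ≤ s x) (h : ∀ x y, |G x y| ≤ c * s x * s y) :
    |G.det| ≤ (Fintype.card n * c) ^ Fintype.card n * ∏ x, s x ^ 2 := by
  rw [Matrix.det_apply]
  refine (Finset.abs_sum_le_sum_abs _ _).trans ?_
  have h1 : ∀ π : Equiv.Perm n, |Equiv.Perm.sign π • ∏ i, G (π i) i| ≤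
      c ^ Fintype.card n * ∏ x, s x ^ 2 := by
    intro π
    have h2 : |Equiv.Perm.sign π • ∏ i, G (π i) i| = ∏ i, |G (π i) i| := by
      rw [← Finset.abs_prod]
      rcases Int.units_eq_one_or (Equiv.Perm.sign π) with h | h <;> simp [h]
    rw [h2]
    refine (Finset.prod_le_prod (fun i _ => abs_nonneg _) fun i _ => h (π i) i).trans (le_of_eq ?_)
    rw [Finset.prod_mul_distrib, Finset.prod_mul_distrib, Finset.prod_const, Finset.card_univ,
      Equiv.prod_comp π s, Finset.prod_pow]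
    ring
  refine (Finset.sum_le_sum fun π _ => h1 π).trans ?_
  rw [Finset.sum_const, Finset.card_univ, Fintype.card_perm, nsmul_eq_mul, mul_pow, mul_assoc]
  have h3 : ((Fintype.card n).factorial : ℝ) ≤ (Fintype.card n : ℝ) ^ Fintype.card n := by
    exact_mod_cast Nat.factorial_le_pow _
  exact mul_le_mul_of_nonneg_right h3 (by positivity)

lemma det_toMatrix_eq_one {F L ι : Type*} [Field F] [AddCommGroup L] [Module F L] [Fintype ι]
    [DecidableEq ι] (ω : Basis ι F L) (ω' : ι → L) (deg : ι → ℕ)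
    (h : ∀ y, ω' y - ω y ∈ span F (ω '' {x | deg x < deg y})) : (ω.toMatrix ω').det = 1 := by
  have h1 : ∀ x y, deg y ≤ deg x → ω.toMatrix ω' x y = if x = y then 1 else 0 := by
    intro x y hxy
    have h2 : ω.repr (ω' y - ω y) x = 0 := by
      by_contra hne
      have := ω.mem_span_image.1 (h y) (Finsupp.mem_support_iff.2 hne)
      exact absurd (lt_of_lt_of_le this hxy) (lt_irrefl _)
    rw [map_sub, Finsupp.sub_apply, sub_eq_zero, Basis.repr_self, Finsupp.single_apply] at h2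
    rw [Basis.toMatrix_apply, h2]
    simp only [eq_comm]
  have h3 : (ω.toMatrix ω').BlockTriangular deg := by
    intro x y hxy
    rw [h1 x y hxy.le, if_neg]
    rintro rfl
    exact lt_irrefl _ hxy
  rw [h3.det]
  refine Finset.prod_eq_one fun a _ => ?_
  have : (ω.toMatrix ω').toSquareBlock deg a = 1 := by
    ext x y
    rw [Matrix.toSquareBlock_def, Matrix.of_apply, h1 _ _ (by rw [x.2, y.2]), Matrix.one_apply]
    simp only [Subtype.ext_iff]
  rw [this, Matrix.det_one]

variable {F : Type*} [Field F] [NumberField F]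

lemma gram_ineq {L ι : Type*} [Field L] [Algebra F L] [FiniteDimensional F L] [Fintype ι]
    (hL : TR L) {κ : ℕ} (hκ0 : 0 < κ)
    (hκ : ∀ (T : F) (D : ℤ), Squarefree D → IsIntegral ℤ (T ^ 2 * D) → IsIntegral ℤ (κ * T))
    (ω : Basis ι F L) (hω : ∀ x, IsIntegral ℤ (ω x)) (ω' : ι → L) (deg : ι → ℕ)
    (h : ∀ y, ω' y - ω y ∈ span F (ω '' {x | deg x < deg y}))
    (s : (F →+* ℝ) → ι → ℝ) (hs0 : ∀ φ x, 0 ≤ s φ x)
    (hs : ∀ (φ : F →+* ℝ) (σ : L →+* ℝ), (∀ x, σ (algebraMap F L x) = φ x) →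
      ∀ x, |σ (ω' x)| ≤ s φ x)
    {E : L} {Emin : ℝ} (hE0 : 0 < Emin) (hE : ∀ σ : L →+* ℝ, Emin ≤ |σ E|) (hEne : E ≠ 0)
    {D : ℤ} (hD : Squarefree D) {q : ℕ} (hq : 0 < q)
    (hint : ∀ y : L, IsIntegral ℤ y → IsIntegral ℤ ((q * (y * E⁻¹)) ^ 2 * D)) :
    1 ≤ ∏ φ : F →+* ℝ, ((κ * q * (finrank F L * (finrank F L / Emin))) ^ finrank F L *
      ∏ x, s φ x ^ 2) := by
  classical
  have hF : TR F := hL.of_algebra
  have hcard : Fintype.card ι = finrank F L := (finrank_eq_card_basis ω).symm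
  let Bf : LinearMap.BilinForm F L :=
    (Algebra.traceForm F L).comp LinearMap.id (LinearMap.mulRight F E⁻¹)
  have hBf : ∀ x y, Bf x y = Algebra.trace F L (x * y * E⁻¹) := fun x y => by
    simp [Bf, Algebra.traceForm_apply, mul_assoc]
  let T : Matrix ι ι F := Matrix.of fun x y => Bf (ω x) (ω y)
  let T' : Matrix ι ι F := Matrix.of fun x y => Bf (ω' x) (ω' y)
  have hTT : T' = (ω.toMatrix ω').transpose * T * ω.toMatrix ω' := by
    ext x y
    simp only [T', T, Matrix.of_apply, Matrix.mul_apply, Matrix.transpose_apply]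
    conv_lhs => rw [← ω.sum_toMatrix_smul_self ω' x, ← ω.sum_toMatrix_smul_self ω' y]
    simp only [map_sum, map_smul, LinearMap.sum_apply, LinearMap.smul_apply, smul_eq_mul,
      Finset.sum_mul, Finset.mul_sum]
    refine Finset.sum_congr rfl fun u _ => Finset.sum_congr rfl fun v _ => ?_
    ring
  have hdet : T'.det = T.det := by
    rw [hTT, Matrix.det_mul, Matrix.det_mul, Matrix.det_transpose, det_toMatrix_eq_one ω ω' deg h]
    ring
  have hne : T.det ≠ 0 := by
    intro h0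
    obtain ⟨v, hv0, hv⟩ := Matrix.exists_mulVec_eq_zero_iff.2 h0
    set z := ∑ y, v y • ω y with hz
    have h1 : ∀ x, Bf (ω x) z = 0 := by
      intro x
      have := congrFun hv x
      simp only [Matrix.mulVec, dotProduct, T, Matrix.of_apply, Pi.zero_apply] at this
      rw [hz, map_sum, ← this]
      refine Finset.sum_congr rfl fun y _ => ?_
      rw [map_smul, smul_eq_mul, mul_comm]
    have h2 : ∀ w, Bf w z = 0 := by
      intro w
      rw [← ω.sum_repr w, map_sum Bf, LinearMap.sum_apply]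
      refine Finset.sum_eq_zero fun x _ => ?_
      rw [map_smul, LinearMap.smul_apply, h1, smul_zero]
    have h3 : z * E⁻¹ = 0 := by
      refine (traceForm_nondegenerate F L).1 _ fun w => ?_
      have := h2 w
      rw [hBf] at this
      rw [Algebra.traceForm_apply, ← this]
      congr 1; ring
    have h4 : z = 0 := (mul_eq_zero.1 h3).resolve_right (inv_ne_zero hEne)
    apply hv0
    funext y
    exact Fintype.linearIndependent_iff.1 ω.linearIndependent v h4 y
  have hi : IsIntegral ℤ (((κ * q : F)) • T).det := by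
    refine IsIntegral.det fun x y => ?_
    have h1 := sqrt_trick (K := F) D (hint _ ((hω x).mul (hω y)))
    have h2 : Algebra.trace F L (q * (ω x * ω y * E⁻¹)) = q * T x y := by
      rw [← nsmul_eq_mul, map_nsmul, nsmul_eq_mul, ← hBf]; rfl
    rw [h2] at h1
    have h3 := hκ _ D hD h1
    rw [Matrix.smul_apply, smul_eq_mul, mul_assoc]
    exact h3
  have hκq : (κ * q : F) ≠ 0 := mul_ne_zero (Nat.cast_ne_zero.2 hκ0.ne') (Nat.cast_ne_zero.2 hq.ne')
  rw [Matrix.det_smul] at hi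
  refine (one_le_NP hF hi (mul_ne_zero (pow_ne_zero _ hκq) hne)).trans ?_
  refine Finset.prod_le_prod (fun _ _ => abs_nonneg _) fun φ _ => ?_
  rw [← hdet, map_mul, abs_mul, RingHom.map_det, map_pow, abs_pow, map_mul, map_natCast,
    map_natCast, hcard, mul_pow (κ * q : ℝ), mul_assoc, abs_of_nonneg (by positivity)]
  refine mul_le_mul_of_nonneg_left ?_ (by positivity)
  have h1 := det_bound (φ.mapMatrix T') (s φ) (c := finrank F L / Emin) (by positivity) (hs0 φ) (by
    intro x y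
    change |φ (Bf (ω' x) (ω' y))| ≤ _
    rw [hBf]
    refine (trace_bound hL φ _ (B := s φ x * s φ y / Emin) fun σ hσ => ?_).trans (le_of_eq (by ring))
    rw [map_mul, map_mul, map_inv₀, abs_mul, abs_mul, abs_inv, ← div_eq_mul_inv]
    exact div_le_div₀ (mul_nonneg (hs0 φ x) (hs0 φ y))
      (mul_le_mul (hs φ σ hσ x) (hs φ σ hσ y) (abs_nonneg _) (hs0 φ x)) hE0 (hE σ))
  rwa [hcard] at h1

lemma P_eval_bound {L : Type*} [Field L] [Algebra F L] (φ : F →+* ℝ) (σ : L →+* ℝ)
    (hσ : ∀ x, σ (algebraMap F L x) = φ x) {A : F} {c : ℝ} (hc : 0 ≤ c) (hA : φ A = c ^ 2) {z : L}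
    (hz : σ z ^ 2 ≤ 4 * c ^ 2) {k m : ℕ} (hk : k ≤ m) :
    |σ ((dickson 2 (algebraMap F L A) k).eval z)| ≤ (m + 1) * c ^ k := by
  rw [← eval₂_at_apply, ← eval_map, map_dickson, hσ, hA]
  refine (P_bound hc hz k).trans (mul_le_mul_of_nonneg_right ?_ (by positivity))
  have : (k : ℝ) ≤ m := by exact_mod_cast hk
  linarith

/-- The main discriminant inequality. -/
lemma disc_ineq {K L : Type*} [Field K] [Field L] [Algebra F K] [Algebra K L] [Algebra F L]
    [IsScalarTower F K L] [FiniteDimensional F L] (hL : TR L) {κ : ℕ} (hκ0 : 0 < κ)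
    (hκ : ∀ (T : F) (D : ℤ), Squarefree D → IsIntegral ℤ (T ^ 2 * D) → IsIntegral ℤ (κ * T))
    (pb : PowerBasis F K) (hγ : IsIntegral ℤ (algebraMap K L pb.gen)) {p q : L}
    (hp : IsIntegral ℤ p) (hq : IsIntegral ℤ q)
    (hW : ∀ k, min (finrank K L) (2 * k + 1) ≤ finrank K (Wlt K p q (k + 1)))
    {A B : F} (cA cB : (F →+* ℝ) → ℝ) (hcA : ∀ φ, 0 ≤ cA φ) (hcB : ∀ φ, 0 ≤ cB φ)
    (hA : ∀ φ : F →+* ℝ, φ A = cA φ ^ 2) (hB : ∀ φ : F →+* ℝ, φ B = cB φ ^ 2)
    (hsz : ∀ (φ : F →+* ℝ) (σ : L →+* ℝ), (∀ x, σ (algebraMap F L x) = φ x) →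
      σ (algebraMap K L pb.gen) ^ 2 ≤ 4 * cA φ ^ 2 ∧ σ p ^ 2 ≤ 4 * cB φ ^ 2 ∧
        σ q ^ 2 ≤ 4 * cB φ ^ 2)
    {E : L} {Emin : ℝ} (hE0 : 0 < Emin) (hE : ∀ σ : L →+* ℝ, Emin ≤ |σ E|) (hEne : E ≠ 0)
    {D : ℤ} (hD : Squarefree D) {qq : ℕ} (hqq : 0 < qq)
    (hint : ∀ y : L, IsIntegral ℤ y → IsIntegral ℤ ((qq * (y * E⁻¹)) ^ 2 * D)) :
    ∃ I J : ℕ, 2 * I = finrank F L * (pb.dim - 1) ∧ 4 * J ≤ finrank F L * finrank K L ∧
      1 ≤ (κ * qq * (finrank F L * (finrank F L / Emin)) * (finrank F L + 1) ^ 6 : ℝ) ^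
        (finrank F L * finrank ℚ F) * (∏ φ, cA φ ^ 2) ^ I * (∏ φ, cB φ ^ 2) ^ J := by
  classical
  haveI : FiniteDimensional K L := Module.Finite.of_restrictScalars_finite F K L
  obtain ⟨J, _, w, a, b, hw, hsum, hab, hspan⟩ := adapted p q hW
  set m := finrank F L with hm
  set γ := algebraMap K L pb.gen with hγdef
  have hcardJ : Fintype.card J = finrank K L := (finrank_eq_card_basis w).symm
  have hmm : pb.dim * finrank K L = m := by rw [← pb.finrank, Module.finrank_mul_finrank]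
  have he1 : 1 ≤ finrank K L := finrank_pos
  have hd1 : 1 ≤ pb.dim := pb.dim_pos
  have hle1 : pb.dim ≤ m := by rw [← hmm]; exact Nat.le_mul_of_pos_right _ he1
  have hle2 : finrank K L ≤ m := by rw [← hmm]; exact Nat.le_mul_of_pos_left _ hd1
  set ω := pb.basis.smulTower w with hω
  have hωx : ∀ x : Fin pb.dim × J, ω x = γ ^ (x.1 : ℕ) * w x.2 := by
    intro x
    rw [hω, Basis.smulTower_apply, pb.basis_eq_pow, Algebra.smul_def, map_pow]
  let ω' : Fin pb.dim × J → L := fun x => (dickson 2 (algebraMap F L A) x.1).eval γ *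
    ((dickson 2 (algebraMap F L B) (a x.2)).eval p * (dickson 2 (algebraMap F L B) (b x.2)).eval q)
  let deg : Fin pb.dim × J → ℕ := fun x => (a x.2 + b x.2) * pb.dim + x.1
  have hKF : ∀ (S : Set J) (z : L), z ∈ span K (w '' S) → ∀ c : K,
      c • z ∈ span F (ω '' {x | x.2 ∈ S}) := by
    intro S z hz
    induction hz using span_induction with
    | mem z hz =>
      obtain ⟨j, hj, rfl⟩ := hz
      intro c
      rw [← pb.basis.sum_repr c, Finset.sum_smul]
      refine sum_mem fun i _ => ?_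
      rw [smul_assoc]
      refine smul_mem _ _ (subset_span ⟨(i, j), hj, ?_⟩)
      rw [hω, Basis.smulTower_apply]
    | zero => intro c; simp
    | add x y _ _ hx hy => intro c; rw [smul_add]; exact add_mem (hx c) (hy c)
    | smul c' x _ hx => intro c; rw [smul_smul]; exact hx _
  have hev : ∀ (z : L) (k : ℕ), aeval z (dickson 2 (algebraMap F K B) k) =
      (dickson 2 (algebraMap F L B) k).eval z := by
    intro z k
    rw [aeval_def, ← eval_map, map_dickson, ← IsScalarTower.algebraMap_apply]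
  have htri : ∀ y, ω' y - ω y ∈ span F (ω '' {x | deg x < deg y}) := by
    rintro ⟨i, j⟩
    have e1 : (dickson 2 (algebraMap F L A) i).eval γ =
        algebraMap K L (aeval pb.gen (dickson 2 A i)) := by
      rw [← aeval_algebraMap_apply, aeval_def, ← eval_map, map_dickson]
    have h1 := modif_mem p q (P_degree (algebraMap F K B) (a j)) (P_degree (algebraMap F K B) (b j))
    rw [hev, hev, ← hw j] at h1
    have h2 := hKF _ _ (hspan _ h1) (aeval pb.gen (dickson 2 A i))
    have h3 : ((dickson 2 (algebraMap F L A) i).eval γ - γ ^ (i : ℕ)) * w j ∈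
        span F (ω '' {x | deg x < deg (i, j)}) := by
      have e2 : (dickson 2 (algebraMap F L A) i).eval γ - γ ^ (i : ℕ) =
          aeval γ (dickson 2 A i - X ^ (i : ℕ)) := by
        rw [map_sub, map_pow, aeval_X, aeval_def, ← eval_map, map_dickson]
      rw [e2, aeval_eq_sum_range, Finset.sum_mul]
      refine sum_mem fun l _ => ?_
      by_cases hl : (dickson 2 A i - X ^ (i : ℕ)).coeff l = 0
      · rw [hl]; simp
      · have hl' : l < i := by exact_mod_cast (le_degree_of_ne_zero hl).trans_lt (P_degree A i)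
        rw [smul_mul_assoc]
        refine smul_mem _ _ (subset_span ⟨(⟨l, hl'.trans i.2⟩, j), ?_, hωx _⟩)
        simp only [deg, Set.mem_setOf_eq]
        omega
    have h4 : span F (ω '' {x | x.2 ∈ {j' | a j' + b j' < a j + b j}}) ≤
        span F (ω '' {x | deg x < deg (i, j)}) := by
      refine span_mono (Set.image_mono fun x hx => ?_)
      have hx' : a x.2 + b x.2 + 1 ≤ a j + b j := hx
      have h5 := Nat.mul_le_mul_right pb.dim hx'
      have h6 := x.1.2
      simp only [deg, Set.mem_setOf_eq]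
      nlinarith
    convert add_mem (h4 h2) h3 using 1
    simp only [ω', hωx, Algebra.smul_def, ← e1]
    ring
  have key := gram_ineq hL hκ0 hκ ω (fun x => by
      rw [hωx, hw]; exact (hγ.pow _).mul ((hp.pow _).mul (hq.pow _))) ω' deg htri
    (fun φ x => ((m + 1) * cA φ ^ (x.1 : ℕ)) * (((m + 1) * cB φ ^ a x.2) * ((m + 1) * cB φ ^ b x.2)))
    (fun φ x => by have := hcA φ; have := hcB φ; positivity)
    (fun φ σ hσ x => by
      obtain ⟨h1, h2, h3⟩ := hsz φ σ hσ
      have := hcA φ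
      have := hcB φ
      have h4 := hab x.2
      simp only [ω', map_mul, abs_mul]
      refine mul_le_mul (P_eval_bound φ σ hσ (hcA φ) (hA φ) h1 (x.1.2.le.trans hle1))
        (mul_le_mul (P_eval_bound φ σ hσ (hcB φ) (hB φ) h2 (by omega))
          (P_eval_bound φ σ hσ (hcB φ) (hB φ) h3 (by omega)) (abs_nonneg _) (by positivity))
        (by positivity) (by positivity))
    hE0 hE hEne hD hqq hint
  refine ⟨∑ x : Fin pb.dim × J, (x.1 : ℕ), ∑ x : Fin pb.dim × J, (a x.2 + b x.2), ?_, ?_, ?_⟩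
  · rw [Fintype.sum_prod_type]
    simp only [Finset.sum_const, Finset.card_univ, smul_eq_mul, hcardJ]
    rw [← Finset.mul_sum, Fin.sum_univ_eq_sum_range (fun i => i) pb.dim, ← hmm]
    have := Finset.sum_range_id_mul_two pb.dim
    calc 2 * (finrank K L * ∑ i ∈ Finset.range pb.dim, i)
        = finrank K L * ((∑ i ∈ Finset.range pb.dim, i) * 2) := by ring
      _ = _ := by rw [this]; ring
  · rw [Fintype.sum_prod_type]
    simp only [Finset.sum_const, Finset.card_univ, smul_eq_mul, Fintype.card_fin]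
    rw [← hmm]
    nlinarith
  · refine key.trans (le_of_eq ?_)
    have hcard : Fintype.card (Fin pb.dim × J) = m := (finrank_eq_card_basis ω).symm
    have e1 : ∀ φ : F →+* ℝ, ∏ x : Fin pb.dim × J, (((m + 1) * cA φ ^ (x.1 : ℕ)) *
        (((m + 1) * cB φ ^ a x.2) * ((m + 1) * cB φ ^ b x.2))) ^ 2 =
        (((m : ℝ) + 1) ^ 6) ^ m * (cA φ ^ 2) ^ (∑ x : Fin pb.dim × J, (x.1 : ℕ)) *
          (cB φ ^ 2) ^ (∑ x : Fin pb.dim × J, (a x.2 + b x.2)) := by
      intro φ
      rw [← Finset.prod_pow_eq_pow_sum, ← Finset.prod_pow_eq_pow_sum, ← hcard, ← Finset.card_univ,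
        ← Finset.prod_const, ← Finset.prod_mul_distrib, ← Finset.prod_mul_distrib]
      refine Finset.prod_congr rfl fun x _ => ?_
      rw [Finset.card_univ, hcard]
      ring
    simp only [e1, Finset.prod_mul_distrib, Finset.prod_const, Finset.card_univ,
      card_emb (hL.of_algebra : TR F), Finset.prod_pow, ← hm]
    rw [pow_mul, mul_pow (κ * qq * (m * (m / Emin)) : ℝ), mul_pow]
    ring

end Pool.Agent.H77Z.Py
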