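import Mathlib

namespace Pool.Agent.H77Z.Py

open Polynomial

section ring
variable {R : Type*} [CommRing R]

lemma P_zero (a : R) : dickson 2 a 0 = 1 := by
  rw [dickson_zero]; norm_num

lemma D_zero (a : R) : dickson 1 a 0 = 2 := by
  rw [dickson_zero]; norm_num

lemma P_inv (a : R) (k : ℕ) : dickson 2 a (k + 1) ^ 2 - X * dickson 2 a (k + 1) * dickson 2 a k
    + C a * dickson 2 a k ^ 2 = C a ^ (k + 1) := by
  induction k with
  | zero => rw [P_zero, zero_add, dickson_one]; ring
  | succ k ih =>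
    rw [dickson_add_two]
    linear_combination (C a) * ih

lemma D_eq (a : R) (k : ℕ) : dickson 1 a (k + 1) = 2 * dickson 2 a (k + 1) - X * dickson 2 a k := by
  induction k using Nat.twoStepInduction with
  | zero => rw [P_zero, zero_add, dickson_one, dickson_one]; ring
  | one =>
    rw [dickson_add_two, dickson_add_two, P_zero, D_zero, zero_add, dickson_one, dickson_one]; ring
  | more k ih1 ih2 =>
    rw [show k + 2 + 1 = (k + 1) + 2 from rfl, dickson_add_two, ih1, ih2,
      dickson_add_two 2 a (k + 1), dickson_add_two 2 a k]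
    ring

lemma D_sq (a : R) (k : ℕ) : dickson 1 a (k + 1) ^ 2 - 4 * C a ^ (k + 1) =
    (X ^ 2 - 4 * C a) * dickson 2 a k ^ 2 := by
  rw [D_eq, ← P_inv]; ring

lemma D_mul (a : R) (n : ℕ) : ∀ k, dickson 1 a n * dickson 1 a (n + k) =
    dickson 1 a (2 * n + k) + C a ^ n * dickson 1 a k := by
  induction n using Nat.twoStepInduction with
  | zero => intro k; rw [D_zero]; simp only [zero_add, mul_zero, pow_zero]; ring
  | one =>
    intro k
    rw [dickson_one, show 2 * 1 + k = k + 2 by ring, dickson_add_two, add_comm 1 k]; ring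
  | more n ih1 ih2 =>
    intro k
    have h1 := ih1 (k + 2)
    have h2 := ih2 (k + 1)
    rw [show n + (k + 2) = n + 2 + k by ring, show 2 * n + (k + 2) = 2 * n + k + 2 by ring] at h1
    rw [show n + 1 + (k + 1) = n + 2 + k by ring,
      show 2 * (n + 1) + (k + 1) = 2 * n + k + 2 + 1 by ring] at h2
    rw [dickson_add_two 1 a n, show 2 * (n + 2) + k = (2 * n + k + 2) + 2 by ring,
      dickson_add_two 1 a (2 * n + k + 2)]
    have h3 := dickson_add_two 1 a k
    linear_combination X * h2 - C a * h1 - C a ^ (n + 1) * h3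

lemma D_double (a : R) (n : ℕ) : dickson 1 a (2 * n) = dickson 1 a n ^ 2 - 2 * C a ^ n := by
  have h := D_mul a n 0
  rw [D_zero, add_zero, add_zero] at h
  linear_combination -h

lemma dickson_degree (j : ℕ) (a : R) (k : ℕ) :
    (dickson j a (k + 1) - X ^ (k + 1)).degree < ((k + 1 : ℕ) : WithBot ℕ) := by
  have h0 : (dickson j a 0).degree ≤ 0 := by
    rw [dickson_zero]
    have : (3 - j : R[X]) = C (3 - j : R) := by simp [map_ofNat]
    rw [this]; exact degree_C_le
  have hle : ∀ k : ℕ, (dickson j a (k + 1) - X ^ (k + 1)).degree < ((k + 1 : ℕ) : WithBot ℕ) →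
      (dickson j a (k + 1)).degree ≤ ((k + 1 : ℕ) : WithBot ℕ) := by
    intro k h
    have : dickson j a (k + 1) = (dickson j a (k + 1) - X ^ (k + 1)) + X ^ (k + 1) := by ring
    rw [this]
    exact (degree_add_le _ _).trans (max_le h.le (degree_X_pow_le _))
  have step : ∀ k : ℕ, (dickson j a k).degree ≤ k →
      (dickson j a (k + 1) - X ^ (k + 1)).degree < ((k + 1 : ℕ) : WithBot ℕ) →
      (dickson j a (k + 2) - X ^ (k + 2)).degree < ((k + 2 : ℕ) : WithBot ℕ) := by
    intro k h1 h2
    have : dickson j a (k + 2) - X ^ (k + 2) =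
        (dickson j a (k + 1) - X ^ (k + 1)) * X - C a * dickson j a k := by
      rw [dickson_add_two]; ring
    rw [this]
    refine (degree_sub_le _ _).trans_lt (max_lt ?_ ?_)
    · refine (degree_mul_le _ _).trans_lt ?_
      calc (dickson j a (k + 1) - X ^ (k + 1)).degree + (X : R[X]).degree
          ≤ (dickson j a (k + 1) - X ^ (k + 1)).degree + 1 := by gcongr; exact degree_X_le
        _ < ((k + 1 : ℕ) : WithBot ℕ) + 1 := WithBot.add_lt_add_right (by simp) h2
        _ = _ := by norm_cast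
    · refine (degree_mul_le _ _).trans_lt ?_
      calc (C a).degree + (dickson j a k).degree ≤ 0 + (k : WithBot ℕ) :=
            add_le_add degree_C_le h1
        _ < _ := by rw [zero_add]; norm_cast; omega
  induction k using Nat.twoStepInduction with
  | zero => simp
  | one =>
    refine step 0 (by simpa using h0) (by simp)
  | more k ih1 ih2 => exact step (k + 1) (hle k ih1) ih2

lemma P_degree (a : R) (k : ℕ) : (dickson 2 a k - X ^ k).degree < (k : WithBot ℕ) := by
  cases k with
  | zero => rw [P_zero]; simp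
  | succ k => exact dickson_degree 2 a k

lemma D_natDegree_le (a : R) (k : ℕ) : (dickson 1 a k).natDegree ≤ k := by
  cases k with
  | zero =>
    rw [D_zero]
    have : (2 : R[X]) = C 2 := by simp [map_ofNat]
    rw [this, natDegree_C]
  | succ k =>
    have h := dickson_degree 1 a k
    have : dickson 1 a (k + 1) = (dickson 1 a (k + 1) - X ^ (k + 1)) + X ^ (k + 1) := by ring
    rw [this]
    exact natDegree_le_iff_degree_le.2
      ((degree_add_le _ _).trans (max_le h.le (degree_X_pow_le _)))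

lemma monic_of_degree_sub_lt [Nontrivial R] {p : R[X]} {k : ℕ} (h : (p - X ^ k).degree < (k : WithBot ℕ)) :
    p.Monic ∧ p.natDegree = k := by
  have : p = X ^ k + (p - X ^ k) := by ring
  rw [this]
  refine ⟨monic_X_pow_add h, ?_⟩
  rw [natDegree_add_eq_left_of_degree_lt (by rwa [degree_X_pow]), natDegree_X_pow]

lemma D_scale (a : R) (k : ℕ) :
    (dickson 1 (4 * a) k).comp (C 2 * X) = C (2 ^ k) * dickson 1 a k := by
  induction k using Nat.twoStepInduction with
  | zero => rw [D_zero, D_zero]; simp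
  | one => simp
  | more k ih1 ih2 =>
    rw [dickson_add_two, dickson_add_two, sub_comp, mul_comp, mul_comp, ih1, ih2, X_comp, C_comp]
    simp only [map_mul, map_pow, map_ofNat]
    ring

lemma D_two_pow (β : R) (s : ℕ) : ∃ A : R[X], dickson 1 β (2 ^ s) = X ^ (2 ^ s) + 2 * A := by
  induction s with
  | zero => exact ⟨0, by simp⟩
  | succ s ih =>
    obtain ⟨A, hA⟩ := ih
    refine ⟨2 * X ^ (2 ^ s) * A + 2 * A ^ 2 - C β ^ (2 ^ s), ?_⟩
    rw [pow_succ' 2 s, D_double, hA]
    ring

/-- The top coefficients of suitable Dickson polynomials are divisible by a high power of two. -/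
lemma D_top (β : R) (K : ℕ) : ∃ r, K ≤ r ∧ 1 ≤ r ∧ ∃ A B : R[X],
    dickson 1 β r = X ^ r + 2 ^ K * A + B ∧ B.natDegree + K ≤ r := by
  have key : ∀ i : ℕ, ∃ r, K ≤ r ∧ 1 ≤ r ∧ ∃ A B : R[X],
      dickson 1 β r = X ^ r + 2 ^ (i + 1) * A + B ∧ B.natDegree + K ≤ r := by
    intro i
    induction i with
    | zero =>
      obtain ⟨A, hA⟩ := D_two_pow β K
      exact ⟨2 ^ K, Nat.lt_two_pow_self.le, Nat.one_le_two_pow, A, 0, by rw [hA]; ring,
        by simpa using Nat.lt_two_pow_self.le⟩
    | succ i ih =>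
      obtain ⟨r, hK, h1, A, B, hD, hB⟩ := ih
      refine ⟨2 * r, by omega, by omega, X ^ r * A + 2 ^ i * A ^ 2,
        B * (2 * dickson 1 β r - B) - 2 * C β ^ r, ?_, ?_⟩
      · rw [D_double, hD]; ring
      · have e2 : (2 : R[X]) = C 2 := by simp [map_ofNat]
        have h2 : (2 * dickson 1 β r - B).natDegree ≤ r := by
          refine (natDegree_sub_le _ _).trans (max_le ?_ (by omega))
          rw [e2]
          exact (natDegree_C_mul_le _ _).trans (D_natDegree_le β r)
        have h3 : (B * (2 * dickson 1 β r - B)).natDegree ≤ B.natDegree + r :=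
          natDegree_mul_le.trans (by omega)
        have h4 : (2 * C β ^ r).natDegree = 0 := by
          rw [e2, ← map_pow, ← map_mul, natDegree_C]
        have h5 := natDegree_sub_le (B * (2 * dickson 1 β r - B)) (2 * C β ^ r)
        rw [h4] at h5
        omega
  obtain ⟨r, hK, h1, A, B, hD, hB⟩ := key K
  exact ⟨r, hK, h1, 2 * A, B, by rw [hD]; ring, hB⟩

end ring

lemma P_bound {c t : ℝ} (hc : 0 ≤ c) (ht : t ^ 2 ≤ 4 * c ^ 2) (k : ℕ) :
    |(dickson 2 (c ^ 2) k).eval t| ≤ (k + 1) * c ^ k := by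
  induction k with
  | zero => rw [P_zero]; simp
  | succ k ih =>
    have h := congrArg (eval t) (P_inv (c ^ 2) k)
    simp only [eval_add, eval_sub, eval_mul, eval_pow, eval_X, eval_C] at h
    set p := (dickson 2 (c ^ 2) (k + 1)).eval t
    set q := (dickson 2 (c ^ 2) k).eval t
    have h1 : (p - t / 2 * q) ^ 2 ≤ (c ^ (k + 1)) ^ 2 := by
      have : (c ^ (k + 1)) ^ 2 = (c ^ 2) ^ (k + 1) := by ring
      rw [this, ← h]
      nlinarith [sq_nonneg q]
    have h2 : |p - t / 2 * q| ≤ c ^ (k + 1) := abs_le_of_sq_le_sq' h1 (by positivity) |> abs_le.2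
    have h3 : |t / 2| ≤ c := by
      refine abs_le.2 (abs_le_of_sq_le_sq' ?_ hc)
      nlinarith
    have h4 : |t / 2 * q| ≤ c * ((k + 1) * c ^ k) := by
      rw [abs_mul]; exact mul_le_mul h3 ih (abs_nonneg _) hc
    have h5 : |p| ≤ |p - t / 2 * q| + |t / 2 * q| := by
      have := abs_add_le (p - t / 2 * q) (t / 2 * q)
      simpa using this
    push_cast
    calc |p| ≤ c ^ (k + 1) + c * ((k + 1) * c ^ k) := by linarith
      _ = _ := by ring

lemma D_bound {c t : ℝ} (hc : 0 ≤ c) (ht : t ^ 2 ≤ 4 * c ^ 2) (k : ℕ) :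
    |(dickson 1 (c ^ 2) k).eval t| ≤ 2 * c ^ k := by
  cases k with
  | zero => rw [D_zero]; simp
  | succ k =>
    have h := congrArg (eval t) (D_sq (c ^ 2) k)
    simp only [eval_sub, eval_mul, eval_pow, eval_X, eval_C, eval_ofNat] at h
    refine abs_le.2 (abs_le_of_sq_le_sq' ?_ (by positivity))
    have h2 : (2 * c ^ (k + 1)) ^ 2 = 4 * (c ^ 2) ^ (k + 1) := by ring
    rw [h2]
    nlinarith [sq_nonneg ((dickson 2 (c ^ 2) k).eval t)]

lemma D_cos (c θ : ℝ) (k : ℕ) :
    (dickson 1 (c ^ 2) k).eval (2 * c * Real.cos θ) = 2 * c ^ k * Real.cos (k * θ) := by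
  induction k using Nat.twoStepInduction with
  | zero => rw [D_zero]; simp
  | one => simp
  | more k ih1 ih2 =>
    rw [dickson_add_two, eval_sub, eval_mul, eval_mul, ih1, ih2, eval_X, eval_C]
    have e1 : ((k + 2 : ℕ) : ℝ) * θ = ((k + 1 : ℕ) : ℝ) * θ + θ := by push_cast; ring
    have e2 : (k : ℝ) * θ = ((k + 1 : ℕ) : ℝ) * θ - θ := by push_cast; ring
    rw [e1, e2, Real.cos_add, Real.cos_sub]
    ring

/-- A polynomial of degree `r` close to the Dickson polynomial has all its roots in the interval. -/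
lemma real_roots {c : ℝ} (hc : 0 < c) {r : ℕ} (hr : 1 ≤ r) {p : ℝ[X]} (hp : p.natDegree ≤ r)
    (h : ∀ t : ℝ, t ^ 2 ≤ 4 * c ^ 2 → |p.eval t - (dickson 1 (c ^ 2) r).eval t| < 2 * c ^ r)
    {z : ℂ} (hz : aeval z p = 0) : z.im = 0 ∧ z.re ^ 2 ≤ 4 * c ^ 2 := by
  classical
  have hr' : (0 : ℝ) < r := by exact_mod_cast hr
  set t : ℕ → ℝ := fun j => 2 * c * Real.cos (j * (Real.pi / r)) with ht
  have htb : ∀ j, t j ^ 2 ≤ 4 * c ^ 2 := by
    intro j
    have := Real.cos_sq_le_one (j * (Real.pi / r))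
    simp only [ht]
    nlinarith [sq_nonneg c]
  have hanti : ∀ i j : ℕ, i < j → j ≤ r → t j < t i := by
    intro i j hij hj
    have hij' : (i : ℝ) < j := by exact_mod_cast hij
    have hj' : (j : ℝ) ≤ r := by exact_mod_cast hj
    have hpr : 0 < Real.pi / r := div_pos Real.pi_pos hr'
    have h1 : (j : ℝ) * (Real.pi / r) ≤ Real.pi := by
      calc (j : ℝ) * (Real.pi / r) ≤ r * (Real.pi / r) := by gcongr
        _ = Real.pi := by field_simp
    have := Real.cos_lt_cos_of_nonneg_of_le_pi (x := i * (Real.pi / r)) (y := j * (Real.pi / r))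
      (by positivity) h1 (by gcongr)
    simp only [ht]
    nlinarith
  have hsign : ∀ j : ℕ, 0 < (-1) ^ j * p.eval (t j) := by
    intro j
    have h1 := h (t j) (htb j)
    have h2 : (dickson 1 (c ^ 2) r).eval (t j) = 2 * c ^ r * (-1) ^ j := by
      simp only [ht]
      rw [D_cos, show (r : ℝ) * (j * (Real.pi / r)) = j * Real.pi by field_simp,
        Real.cos_nat_mul_pi]
    rw [h2] at h1
    rcases neg_one_pow_eq_or ℝ j with h3 | h3 <;> rw [h3] at h1 ⊢ <;>
      have := abs_lt.1 h1 <;> linarith [this.1, this.2]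
  have hp0 : p ≠ 0 := by
    intro h0
    have := hsign 0
    rw [h0] at this
    simp at this
  have hroot : ∀ j : ℕ, j < r → ∃ ρ, t (j + 1) < ρ ∧ ρ < t j ∧ p.eval ρ = 0 := by
    intro j hj
    have hlt := hanti j (j + 1) (by omega) hj
    have hcont : ContinuousOn (fun s => (-1 : ℝ) ^ j * p.eval s) (Set.Icc (t (j + 1)) (t j)) :=
      (continuous_const.mul p.continuous).continuousOn
    have h1 : (-1 : ℝ) ^ j * p.eval (t (j + 1)) < 0 := by
      have := hsign (j + 1)
      rw [pow_succ] at this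
      linarith
    obtain ⟨ρ, hρ, hρ0⟩ := intermediate_value_Ioo hlt.le hcont ⟨h1, hsign j⟩
    refine ⟨ρ, hρ.1, hρ.2, ?_⟩
    rcases mul_eq_zero.1 hρ0 with h2 | h2
    · exact absurd h2 (pow_ne_zero _ (by norm_num))
    · exact h2
  choose! ρ hρ1 hρ2 hρ3 using hroot
  have hinj : Set.InjOn (fun j => (ρ j : ℂ)) (Finset.range r : Set ℕ) := by
    have hlt : ∀ i j, i < j → j < r → ρ j < ρ i := by
      intro i j hij hj
      have h1 := hρ1 i (by omega)
      have h2 := hρ2 j hj
      rcases eq_or_lt_of_le (show i + 1 ≤ j from hij) with h3 | h3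
      · rw [h3] at h1; linarith
      · have := hanti (i + 1) j h3 hj.le
        linarith
    intro i hi j hj hij
    have hi' : i < r := by simpa using hi
    have hj' : j < r := by simpa using hj
    have hij' : ρ i = ρ j := Complex.ofReal_injective hij
    rcases lt_trichotomy i j with h1 | h1 | h1
    · have := hlt i j h1 hj'; linarith
    · exact h1
    · have := hlt j i h1 hi'; linarith
  have hmap : p.map (algebraMap ℝ ℂ) ≠ 0 := Polynomial.map_ne_zero hp0
  have hsub : (Finset.range r).image (fun j => (ρ j : ℂ)) ⊆ (p.aroots ℂ).toFinset := by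
    intro w hw
    obtain ⟨j, hj, rfl⟩ := Finset.mem_image.1 hw
    rw [Multiset.mem_toFinset, mem_aroots]
    refine ⟨hp0, ?_⟩
    have := hρ3 j (by simpa using hj)
    rw [show ((ρ j : ℝ) : ℂ) = algebraMap ℝ ℂ (ρ j) from rfl, aeval_algebraMap_apply,
      coe_aeval_eq_eval, this, map_zero]
  have hcard : (p.aroots ℂ).toFinset.card ≤ ((Finset.range r).image (fun j => (ρ j : ℂ))).card := by
    rw [Finset.card_image_of_injOn hinj, Finset.card_range]
    refine (Multiset.toFinset_card_le _).trans ((card_roots' _).trans ?_)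
    exact natDegree_map_le.trans hp
  have heq := Finset.eq_of_subset_of_card_le hsub hcard
  have hzm : z ∈ (p.aroots ℂ).toFinset := by
    rw [Multiset.mem_toFinset, mem_aroots]; exact ⟨hp0, hz⟩
  rw [← heq] at hzm
  obtain ⟨j, hj, rfl⟩ := Finset.mem_image.1 hzm
  have hj' : j < r := by simpa using hj
  refine ⟨by simp, ?_⟩
  simp only [Complex.ofReal_re]
  have h1 := hρ1 j hj'
  have h2 := hρ2 j hj'
  have h3 := abs_le_of_sq_le_sq' (show t j ^ 2 ≤ (2 * c) ^ 2 by nlinarith [htb j]) (by linarith)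
  have h4 := abs_le_of_sq_le_sq' (show t (j + 1) ^ 2 ≤ (2 * c) ^ 2 by nlinarith [htb (j + 1)])
    (by linarith)
  nlinarith [h3.2, h4.1]

end Pool.Agent.H77Z.Py
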