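import Pool.Agent.H77Z.Py.Dk
import Pool.Agent.H77Z.Py.NF

namespace Pool.Agent.H77Z.Py

open Polynomial NumberField Module

variable {F : Type*} [Field F] [NumberField F]

lemma exists_root_prod (h : TR F) (c : (F →+* ℝ) → ℝ) (hprod : 1 < ∏ φ, c φ) :
    ∃ ρ : ℝ, 1 < ρ ∧ ρ ^ finrank ℚ F = ∏ φ, c φ := by
  have hd : finrank ℚ F ≠ 0 := finrank_pos.ne'
  refine ⟨(∏ φ, c φ) ^ ((finrank ℚ F : ℝ)⁻¹), ?_, Real.rpow_inv_natCast_pow (by linarith) hd⟩
  exact Real.one_lt_rpow hprod (by positivity)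

lemma robinson (h : TR F) {β : F} (hβ : IsIntegral ℤ β) (c : (F →+* ℝ) → ℝ) (hc : ∀ φ, 0 < c φ)
    (hcβ : ∀ φ : F →+* ℝ, φ β = 4 * c φ ^ 2) (hprod : 1 < ∏ φ, c φ) (r0 : ℕ) :
    ∃ r, r0 ≤ r ∧ 1 ≤ r ∧ ∃ g : F[X], g.Monic ∧ g.natDegree = r ∧
      (∀ k, IsIntegral ℤ (g.coeff k)) ∧ ∀ (φ : F →+* ℝ) (t : ℝ), t ^ 2 ≤ 4 * c φ ^ 2 →
        |(g.map φ).eval t - (dickson 1 (c φ ^ 2) r).eval t| ≤ c φ ^ r / 2 := by
  classical
  obtain ⟨ρ, hρ1, hρ⟩ := exists_root_prod h c hprod
  obtain ⟨Cc, hC, happ⟩ := approx h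
  set θ : ℝ := ρ⁻¹ with hθ
  have hθ0 : 0 < θ := by positivity
  have hθ1 : θ < 1 := inv_lt_one_of_one_lt₀ hρ1
  have hY : ∀ j : ℕ, 1 ≤ ∏ φ, (θ * c φ) ^ j := by
    intro j
    rw [Finset.prod_pow, Finset.prod_mul_distrib, Finset.prod_const, Finset.card_univ, card_emb h,
      ← hρ, ← mul_pow, hθ, inv_mul_cancel₀ (by linarith), one_pow, one_pow]
  have hmapD : ∀ (φ : F →+* ℝ) k, (dickson 1 (β / 4) k).map φ = dickson 1 (c φ ^ 2) k := by
    intro φ k
    rw [map_dickson, map_div₀, hcβ, map_ofNat]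
    congr 1
    ring
  have hD' : ∀ N : ℕ, ∃ D' : F[X], (D' - X ^ N).degree < (N : WithBot ℕ) ∧
      ∀ (φ : F →+* ℝ) (t : ℝ), t ^ 2 ≤ 4 * c φ ^ 2 → |(D'.map φ).eval t| ≤ 2 * c φ ^ N := by
    intro N
    cases N with
    | zero => exact ⟨1, by simp, fun φ t _ => by simp⟩
    | succ N =>
      refine ⟨dickson 1 (β / 4) (N + 1), dickson_degree _ _ _, fun φ t ht => ?_⟩
      rw [hmapD]
      exact D_bound (hc φ).le ht _
  obtain ⟨K0, hK0⟩ : ∃ K0 : ℕ, θ ^ K0 < (1 - θ) / (4 * Cc) :=
    exists_pow_lt_of_lt_one (by have : 0 < 1 - θ := by linarith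
                                positivity) hθ1
  set K := max (max K0 r0) 1 with hK
  have hK1 : 1 ≤ K := le_max_right _ _
  have hKr : r0 ≤ K := (le_max_right _ _).trans (le_max_left _ _)
  have hKK : K0 ≤ K := (le_max_left _ _).trans (le_max_left _ _)
  obtain ⟨βR, hβR⟩ : ∃ βR : integralClosure ℤ F, algebraMap _ F βR = β := ⟨⟨β, hβ⟩, rfl⟩
  obtain ⟨r, hr, hr1, A, B, hD, hB⟩ := D_top βR K
  have inner : ∀ N : ℕ, N ≤ r → ∀ H : F[X], H.degree < (N : WithBot ℕ) →
      ∃ G : F[X], (∀ k, IsIntegral ℤ (G.coeff k)) ∧ G.degree < (N : WithBot ℕ) ∧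
        ∀ (φ : F →+* ℝ) (t : ℝ), t ^ 2 ≤ 4 * c φ ^ 2 →
          |((H - G).map φ).eval t| ≤ 2 * Cc * θ ^ (r + 1 - N) / (1 - θ) * c φ ^ r := by
    intro N
    induction N with
    | zero =>
      intro _ H hH
      have hH0 : H = 0 := by simpa using hH
      refine ⟨0, fun k => by simpa using isIntegral_zero, by simp, fun φ t _ => ?_⟩
      have : 0 < 1 - θ := by linarith
      have := hc φ
      rw [hH0]; simp only [sub_self, Polynomial.map_zero, eval_zero, abs_zero]; positivity
    | succ N ih =>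
      intro hN H hH
      obtain ⟨D', hD1, hD2⟩ := hD' N
      obtain ⟨n, hn, hnb⟩ := happ (fun φ => (θ * c φ) ^ (r - N))
        (fun φ => by have := hc φ; positivity) (hY _) (H.coeff N)
      have hdeg : (H - C (H.coeff N) * X ^ N - C (H.coeff N - n) * (D' - X ^ N)).degree <
          (N : WithBot ℕ) := by
        refine (degree_sub_le _ _).trans_lt (max_lt ?_ ?_)
        · rw [degree_lt_iff_coeff_zero]
          intro m hm
          rw [coeff_sub, coeff_C_mul, coeff_X_pow]
          rcases eq_or_lt_of_le hm with h1 | h1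
          · simp [h1]
          · rw [if_neg h1.ne', mul_zero, sub_zero]
            exact coeff_eq_zero_of_degree_lt (hH.trans_le (by exact_mod_cast h1))
        · rw [← smul_eq_C_mul]
          exact (degree_smul_le _ _).trans_lt hD1
      obtain ⟨G, hG1, hG2, hG3⟩ := ih (by omega) _ hdeg
      refine ⟨C n * X ^ N + G, fun k => ?_, ?_, fun φ t ht => ?_⟩
      · rw [coeff_add, coeff_C_mul, coeff_X_pow]
        refine IsIntegral.add ?_ (hG1 k)
        split_ifs
        · simpa using hn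
        · simpa using isIntegral_zero
      · refine (degree_add_le _ _).trans_lt (max_lt ?_ (hG2.trans ?_))
        · refine (degree_C_mul_X_pow_le _ _).trans_lt ?_
          exact_mod_cast Nat.lt_succ_self N
        · exact_mod_cast Nat.lt_succ_self N
      · have e : H - (C n * X ^ N + G) =
            (H - C (H.coeff N) * X ^ N - C (H.coeff N - n) * (D' - X ^ N) - G) +
              C (H.coeff N - n) * D' := by
          rw [map_sub]; ring
        rw [e, Polynomial.map_add, eval_add, Polynomial.map_mul, eval_mul, map_C, eval_C]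
        have h1 := hG3 φ t ht
        have h2 : |φ (H.coeff N - n) * (D'.map φ).eval t| ≤
            (Cc * (θ * c φ) ^ (r - N)) * (2 * c φ ^ N) := by
          rw [abs_mul]
          have := hc φ
          exact mul_le_mul (hnb φ) (hD2 φ t ht) (abs_nonneg _) (by positivity)
        refine (abs_add_le _ _).trans ((add_le_add h1 h2).trans (le_of_eq ?_))
        have h3 : 1 - θ ≠ 0 := by linarith
        have h4 : r + 1 - N = (r - N) + 1 := by omega
        have h5 : r + 1 - (N + 1) = r - N := by omega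
        have h6 : c φ ^ r = c φ ^ (r - N) * c φ ^ N := by
          rw [← pow_add]; congr 1; omega
        rw [h4, h5, h6, mul_pow]
        field_simp
        ring
  set D : F[X] := dickson 1 (β / 4) r with hDdef
  obtain ⟨r', rfl⟩ : ∃ r', r = r' + 1 := ⟨r - 1, by omega⟩
  set r := r' + 1 with hr'
  have hDdeg : (D - X ^ r).degree < (r : WithBot ℕ) := dickson_degree _ _ _
  set N := r + 1 - K with hN
  have hNr : N ≤ r := by omega
  set H0 : F[X] := ∑ k ∈ Finset.range N, monomial k (D.coeff k) with hH0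
  have hH0c : ∀ k, H0.coeff k = if k < N then D.coeff k else 0 := by
    intro k
    rw [hH0, finset_sum_coeff]
    simp only [coeff_monomial]
    rw [Finset.sum_ite_eq' (Finset.range N) k]
    simp
  have hH0d : H0.degree < (N : WithBot ℕ) := by
    rw [degree_lt_iff_coeff_zero]
    intro m hm
    rw [hH0c, if_neg (by omega)]
  obtain ⟨G, hG1, hG2, hG3⟩ := inner N hNr H0 hH0d
  have hmon : (D - (H0 - G) - X ^ r).degree < (r : WithBot ℕ) := by
    have e : D - (H0 - G) - X ^ r = (D - X ^ r) - (H0 - G) := by ring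
    rw [e]
    have hNr' : (N : WithBot ℕ) ≤ r := by exact_mod_cast hNr
    exact (degree_sub_le _ _).trans_lt (max_lt hDdeg ((degree_sub_le _ _).trans_lt
      (max_lt (hH0d.trans_le hNr') (hG2.trans_le hNr'))))
  have hDm := monic_of_degree_sub_lt hDdeg
  have hDint : ∀ k, N ≤ k → IsIntegral ℤ (D.coeff k) := by
    intro k hk
    rcases lt_trichotomy k r with h1 | h1 | h1
    · have e1 : (dickson 1 β r).coeff k = 2 ^ K * algebraMap (integralClosure ℤ F) F (A.coeff k) := by
        have e0 : (2 : (integralClosure ℤ F)[X]) ^ K = C (2 ^ K) := by simp [map_ofNat]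
        rw [← hβR, ← map_dickson, coeff_map, hD, coeff_add, coeff_add, coeff_X_pow, if_neg h1.ne,
          coeff_eq_zero_of_natDegree_lt (p := B) (by omega), e0, coeff_C_mul, zero_add, add_zero,
          map_mul, map_pow, map_ofNat]
      have e2 := congrArg (fun p => p.coeff k) (D_scale (β / 4) r)
      simp only [comp_C_mul_X_coeff, coeff_C_mul] at e2
      rw [show 4 * (β / 4) = β by ring] at e2
      rw [e1] at e2
      have e3 : D.coeff k = 2 ^ (K + k - r) * algebraMap (integralClosure ℤ F) F (A.coeff k) := by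
        have e4 : (2 : F) ^ K * 2 ^ k = 2 ^ r * 2 ^ (K + k - r) := by
          rw [← pow_add, ← pow_add]; congr 1; omega
        have e5 : (2 : F) ^ r ≠ 0 := pow_ne_zero _ two_ne_zero
        apply mul_left_cancel₀ e5
        rw [← e2]
        linear_combination (algebraMap (integralClosure ℤ F) F (A.coeff k)) * e4
      rw [e3]
      refine IsIntegral.mul (IsIntegral.pow ?_ _) (A.coeff k).2
      simpa using (isIntegral_algebraMap (R := ℤ) (A := F) (x := 2))
    · rw [h1, ← hDm.2, hDm.1.coeff_natDegree]; exact isIntegral_one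
    · rw [coeff_eq_zero_of_natDegree_lt (by rw [hDm.2]; exact h1)]; exact isIntegral_zero
  have hgm := monic_of_degree_sub_lt hmon
  refine ⟨r, by omega, hr1, D - (H0 - G), hgm.1, hgm.2, fun k => ?_, fun φ t ht => ?_⟩
  · rw [coeff_sub, coeff_sub, hH0c]
    split_ifs with hk
    · simpa using hG1 k
    · simpa using (hDint k (by omega)).add (hG1 k)
  · rw [Polynomial.map_sub, eval_sub, hDdef, hmapD, sub_sub_cancel_left, abs_neg]
    refine (hG3 φ t ht).trans ?_
    have h1 : r + 1 - N = K := by omega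
    rw [h1]
    have h2 : θ ^ K ≤ θ ^ K0 := pow_le_pow_of_le_one hθ0.le hθ1.le hKK
    have h3 : 0 < 1 - θ := by linarith
    have h4 : 2 * Cc * θ ^ K / (1 - θ) ≤ 1 / 2 := by
      rw [div_le_iff₀ h3]
      rw [lt_div_iff₀ (by positivity)] at hK0
      nlinarith
    have h5 : 0 < c φ ^ r := pow_pos (hc φ) _
    nlinarith

end Pool.Agent.H77Z.Py
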