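import Pool.Agent.H77Z.Py.Core
import Pool.Agent.H77Z.Py.Rob

namespace Pool.Agent.H77Z.Py

open Polynomial Module Submodule

lemma isIntegral_of_monic {L : Type*} [Field L] {p : L[X]} (hp : p.Monic)
    (hc : ∀ k, IsIntegral ℤ (p.coeff k)) {x : L} (hx : p.eval x = 0) : IsIntegral ℤ x := by
  have h1 : p ∈ lifts (algebraMap (integralClosure ℤ L) L) :=
    (lifts_iff_coeff_lifts p).2 fun k => ⟨⟨p.coeff k, hc k⟩, rfl⟩
  obtain ⟨q, hq, -, hqm⟩ := lifts_and_natDegree_eq_and_monic h1 hp
  have h2 : IsIntegral (integralClosure ℤ L) x := ⟨q, hqm, by rw [← eval_map, hq, hx]⟩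
  exact isIntegral_trans x h2

lemma finrank_conic_le {K L : Type*} [Field K] [Field L] [Algebra K L] [FiniteDimensional K L]
    {x y : L} {β : K} (hxy : x ^ 2 + y ^ 2 = algebraMap K L β)
    (hadj : Algebra.adjoin K {x, y} = ⊤) : finrank K L ≤ (minpoly K x).natDegree * 2 := by
  classical
  have hxi : IsIntegral K x := Algebra.IsIntegral.isIntegral x
  set E := IntermediateField.adjoin K {x} with hE
  have hfin : finrank K E = (minpoly K x).natDegree := IntermediateField.adjoin.finrank hxi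
  have hxE : x ∈ E := IntermediateField.mem_adjoin_simple_self K x
  have hsp : span E ({1, y} : Set L) = ⊤ := by
    have h1 : ∀ z ∈ Algebra.adjoin K {x, y}, ∀ w ∈ span E ({1, y} : Set L),
        z * w ∈ span E ({1, y} : Set L) := by
      intro z hz
      induction hz using Algebra.adjoin_induction with
      | mem z hz =>
        intro w hw
        rcases hz with rfl | rfl
        · exact smul_mem _ (⟨z, hxE⟩ : E) hw
        · obtain ⟨a, b, rfl⟩ := mem_span_pair.1 hw
          refine mem_span_pair.2 ⟨b * ⟨algebraMap K L β - x ^ 2,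
            sub_mem (E.algebraMap_mem β) (pow_mem hxE 2)⟩, a, ?_⟩
          simp only [IntermediateField.smul_def, smul_eq_mul, MulMemClass.coe_mul]
          rw [← hxy]; ring
      | algebraMap c =>
        intro w hw
        exact smul_mem _ (⟨algebraMap K L c, E.algebraMap_mem c⟩ : E) hw
      | add x z _ _ hx hz => intro w hw; rw [add_mul]; exact add_mem (hx w hw) (hz w hw)
      | mul x z _ _ hx hz => intro w hw; rw [mul_assoc]; exact hx _ (hz w hw)
    rw [eq_top_iff]
    intro z _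
    simpa using h1 z (hadj ▸ Algebra.mem_top) 1 (subset_span (by simp))
  have h2 : finrank E L ≤ 2 := by
    rw [← finrank_top, ← hsp]
    have := finrank_span_finset_le_card (R := E) ({1, y} : Finset L)
    rw [Finset.coe_pair] at this
    exact this.trans Finset.card_le_two
  have h3 := Module.finrank_mul_finrank K E L
  rw [← hfin, ← h3]
  exact Nat.mul_le_mul_left _ h2

lemma hDm (R : Type*) [CommRing R] [Nontrivial R] (a : R) (k : ℕ) :
    (dickson 1 a (k + 1)).Monic ∧ (dickson 1 a (k + 1)).natDegree = k + 1 :=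
  monic_of_degree_sub_lt (dickson_degree 1 a k)

variable {F : Type*} [Field F] [NumberField F]

lemma intCast_integral {L : Type*} [Field L] (z : ℤ) : IsIntegral ℤ (z : L) := by
  simpa using (isIntegral_algebraMap (R := ℤ) (A := L) (x := z))

set_option maxHeartbeats 800000 in
/-- The key step: make `β` a sum of two squares without creating new small integers. -/
theorem key_step {Ω : Type*} [Field Ω] [IsAlgClosed Ω] [Algebra F Ω] (hF : TR F) {α β : F}
    (hβ : IsIntegral ℤ β) (hα0 : ∀ φ : F →+* ℝ, 0 ≤ φ α) (hβ0 : ∀ φ : F →+* ℝ, 0 ≤ φ β)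
    (hαβ : NP α < NP β) (h4 : 4 ^ finrank ℚ F < NP β) :
    ∃ L : IntermediateField F Ω, FiniteDimensional F L ∧ TR L ∧ 3 ≤ finrank F L ∧
      (∃ x y : L, IsIntegral ℤ x ∧ IsIntegral ℤ y ∧ x ^ 2 + y ^ 2 = algebraMap F L β) ∧
      ∀ (k : ℕ) (γ : Fin k → L), (∀ i, IsIntegral ℤ (γ i)) →
        algebraMap F L α = ∑ i, γ i ^ 2 → ∀ i, γ i ∈ Set.range (algebraMap F L) := by
  classical
  haveI : CharZero Ω := charZero_of_injective_algebraMap (algebraMap F Ω).injective
  set d := finrank ℚ F with hd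
  have hd0 : 0 < d := finrank_pos
  have hβne : β ≠ 0 := by
    rintro rfl
    obtain ⟨φ⟩ := nonempty_emb hF
    have : NP (0 : F) = 0 := Finset.prod_eq_zero (Finset.mem_univ φ) (by simp)
    rw [this] at h4
    have : (0 : ℝ) < 4 ^ d := by positivity
    linarith
  set cA : (F →+* ℝ) → ℝ := fun φ => √(φ α) / 2 with hcA
  set cB : (F →+* ℝ) → ℝ := fun φ => √(φ β) / 2 with hcB
  have hA : ∀ φ : F →+* ℝ, φ α = 4 * cA φ ^ 2 := fun φ => by
    simp only [hcA, div_pow, Real.sq_sqrt (hα0 φ)]; ring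
  have hB : ∀ φ : F →+* ℝ, φ β = 4 * cB φ ^ 2 := fun φ => by
    simp only [hcB, div_pow, Real.sq_sqrt (hβ0 φ)]; ring
  have hcB0 : ∀ φ, 0 < cB φ := fun φ => by
    have : 0 < φ β := lt_of_le_of_ne (hβ0 φ) (Ne.symm ((_root_.map_ne_zero φ).2 hβne))
    simp only [hcB]
    have := Real.sqrt_pos.2 this
    linarith
  have hNP : ∀ (z : F) (c : (F →+* ℝ) → ℝ), (∀ φ : F →+* ℝ, φ z = 4 * c φ ^ 2) →
      NP z = 4 ^ d * ∏ φ, c φ ^ 2 := by
    intro z c hc
    rw [NP, hd, ← card_emb hF, ← Finset.card_univ, ← Finset.prod_const, ← Finset.prod_mul_distrib]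
    refine Finset.prod_congr rfl fun φ _ => ?_
    rw [hc, abs_of_nonneg (by positivity)]
  have h4d : (0 : ℝ) < 4 ^ d := by positivity
  set P := ∏ φ, cB φ with hP
  have hP0 : 0 < P := Finset.prod_pos fun φ _ => hcB0 φ
  have hPB : ∏ φ, cB φ ^ 2 = P ^ 2 := Finset.prod_pow _ _ _
  rw [hNP α cA hA, hNP β cB hB, hPB] at hαβ
  rw [hNP β cB hB, hPB] at h4
  have hP2 : 1 < P ^ 2 := by
    by_contra h
    push Not at h
    nlinarith
  have hP1 : 1 < P := by nlinarith
  have hPA : ∏ φ, cA φ ^ 2 < P ^ 2 := lt_of_mul_lt_mul_left hαβ h4d.le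
  set cc := max (∏ φ, cA φ ^ 2) P with hcc
  have hcc1 : P ≤ cc := le_max_right _ _
  have hcc2 : cc < P ^ 2 := max_lt hPA (by nlinarith)
  have hcc0 : 0 < cc := by linarith
  obtain ⟨ρ, hρ1, hρ⟩ := exists_root_prod hF cB hP1
  rw [← hd, ← hP] at hρ
  obtain ⟨Cb, hC, hbox⟩ := box hF
  obtain ⟨κ, hκ0, hκ⟩ := kappa F
  obtain ⟨r1, hr1⟩ := pow_unbounded_of_one_lt (4 * Cb) hρ1
  have hrat : 1 < P ^ 2 / cc := (one_lt_div hcc0).2 hcc2
  obtain ⟨r2, hr2⟩ := pow_unbounded_of_one_lt (2 * (4 * Cb) ^ (4 * d)) hrat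
  obtain ⟨r, hr0, hr, g, hgm, hgd, hgi, hg⟩ := robinson hF hβ cB hcB0 hB hP1 (max r1 r2)
  have hr1' : 4 * Cb ≤ ρ ^ r := hr1.le.trans (pow_le_pow_right₀ hρ1.le ((le_max_left _ _).trans hr0))
  have hr2' : 2 * (4 * Cb) ^ (4 * d) ≤ (P ^ 2 / cc) ^ (2 * r) :=
    hr2.le.trans (pow_le_pow_right₀ hrat.le (((le_max_right _ _).trans hr0).trans (by omega)))
  have hρr : 0 < ρ ^ r := by positivity
  obtain ⟨lam, hlami, hlam0, hlam⟩ := hbox (fun φ => cB φ ^ r / ρ ^ r)
    (fun φ => by have := hcB0 φ; positivity) (by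
      rw [Finset.prod_div_distrib, Finset.prod_pow, Finset.prod_const, Finset.card_univ,
        card_emb hF, ← hd, ← hP, ← pow_mul, mul_comm r d, pow_mul, hρ, div_self (by positivity)])
  obtain ⟨j, hj1, hj2⟩ := exists_nat_pow_near (x := ρ ^ r / (4 * Cb)) (y := 2)
    ((one_le_div (by positivity)).2 hr1') one_lt_two
  set b : ℕ := 2 ^ (j + 1) with hb
  have hbR : (b : ℝ) = 2 ^ (j + 1) := by rw [hb]; push_cast; rfl
  have hb0 : 0 < b := by positivity
  have hb0' : (0 : ℝ) < b := by exact_mod_cast hb0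
  have hb1 : 2 * b * Cb ≤ ρ ^ r := by
    rw [le_div_iff₀ (by positivity)] at hj1
    rw [hbR, pow_succ]; linarith
  have hb2 : 2 * cc ^ (2 * r) ≤ (b : ℝ) ^ (4 * d) := by
    rw [← hbR, div_lt_iff₀ (by positivity)] at hj2
    have h1 : (ρ ^ r) ^ (4 * d) ≤ (b * (4 * Cb)) ^ (4 * d) := pow_le_pow_left₀ hρr.le hj2.le _
    have h2 : (ρ ^ r) ^ (4 * d) = (P ^ 2) ^ (2 * r) := by
      rw [← hρ, ← pow_mul, ← pow_mul, ← pow_mul]; congr 1; ring
    rw [h2, mul_pow] at h1
    rw [div_pow, le_div_iff₀ (by positivity)] at hr2'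
    have h3 : (0 : ℝ) < (4 * Cb) ^ (4 * d) := by positivity
    have h5 : (2 * cc ^ (2 * r)) * (4 * Cb) ^ (4 * d) ≤ (b : ℝ) ^ (4 * d) * (4 * Cb) ^ (4 * d) := by
      linarith
    exact le_of_mul_le_mul_right h5 h3
  obtain ⟨M, hM⟩ := exists_M ((512 * κ * (2 * r + 1) ^ 8 : ℝ) ^ (4 * d) * cc ^ (2 * r + 2)) (32 * d)
  obtain ⟨t, D, q, hD, hq0, hq, ht, hDq⟩ := sqfree_pair ((j + 1) * (M + 1) - 1)
  have hbM : (2 : ℤ) ^ ((j + 1) * (M + 1) - 1 + 1) = (b : ℤ) ^ (M + 1) := by
    have : 1 ≤ (j + 1) * (M + 1) := Nat.one_le_iff_ne_zero.2 (by positivity)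
    rw [Nat.sub_add_cancel this, pow_mul, hb]; push_cast; rfl
  rw [hbM] at ht hDq
  -- the roots
  obtain ⟨u, hu⟩ := IsAlgClosed.exists_root (dickson 1 ((b : Ω) ^ 2) (M + 1) - C (t : Ω)) (by
    rw [degree_sub_C (by rw [degree_eq_natDegree (hDm _ _ _).1.ne_zero, (hDm _ _ _).2]; positivity),
      degree_eq_natDegree (hDm _ _ _).1.ne_zero, (hDm _ _ _).2]
    exact_mod_cast Nat.succ_ne_zero M)
  have hu' : (dickson 1 ((b : Ω) ^ 2) (M + 1)).eval u = t := by
    have := hu.eq_zero
    rwa [eval_sub, eval_C, sub_eq_zero] at this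
  have hui : IsIntegral ℤ u := by
    refine ⟨dickson 1 ((b : ℤ) ^ 2) (M + 1) - C t, ?_, ?_⟩
    · refine (hDm _ _ _).1.sub_of_left (degree_C_le.trans_lt ?_)
      rw [degree_eq_natDegree (hDm _ _ _).1.ne_zero, (hDm _ _ _).2]; positivity
    · rw [← eval_map, Polynomial.map_sub, map_dickson, map_C, eval_sub, eval_C]
      simp [hu']
  have hgdeg : (g.map (algebraMap F Ω)).degree = r := by
    rw [degree_map, degree_eq_natDegree hgm.ne_zero, hgd]
  have hrpos : (0 : WithBot ℕ) < r := by exact_mod_cast hr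
  obtain ⟨x, hx⟩ := IsAlgClosed.exists_root
    (g.map (algebraMap F Ω) - C (algebraMap F Ω lam * u)) (by
      rw [degree_sub_C (by rwa [hgdeg]), hgdeg]; exact hrpos.ne')
  have hx' : aeval x g = algebraMap F Ω lam * u := by
    have := hx.eq_zero
    rwa [eval_sub, eval_C, sub_eq_zero, eval_map_algebraMap] at this
  have hint : ∀ z : F, IsIntegral ℤ z → IsIntegral ℤ (algebraMap F Ω z) :=
    fun z hz => map_isIntegral_int _ hz
  have hxi : IsIntegral ℤ x := by
    refine isIntegral_of_monic ((hgm.map _).sub_of_left (degree_C_le.trans_lt (by rwa [hgdeg])))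
      (fun k => ?_) hx.eq_zero
    rw [coeff_sub, coeff_map, coeff_C]
    refine (hint _ (hgi k)).sub ?_
    split_ifs
    · exact (hint _ hlami).mul hui
    · exact isIntegral_zero
  obtain ⟨y, hy⟩ := IsAlgClosed.exists_pow_nat_eq (algebraMap F Ω β - x ^ 2) (n := 2) two_pos
  have hyi : IsIntegral ℤ y :=
    IsIntegral.of_pow two_pos (by rw [hy]; exact (hint _ hβ).sub (hxi.pow 2))
  have hFi : ∀ z ∈ ({x, y} : Set Ω), IsIntegral F z := by
    rintro _ (rfl | rfl)
    · exact hxi.tower_top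
    · exact hyi.tower_top
  set L := IntermediateField.adjoin F ({x, y} : Set Ω) with hL
  haveI hfd : FiniteDimensional F L := IntermediateField.finiteDimensional_adjoin hFi
  have hxL : x ∈ L := IntermediateField.subset_adjoin _ _ (by simp)
  have hyL : y ∈ L := IntermediateField.subset_adjoin _ _ (by simp)
  set x' : L := ⟨x, hxL⟩ with hx'def
  set y' : L := ⟨y, hyL⟩ with hy'def
  have hlamL : algebraMap F L lam ≠ 0 := (_root_.map_ne_zero _).2 hlam0
  set u' : L := aeval x' g / algebraMap F L lam with hu'def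
  have hcoe : ∀ f : F[X], ((aeval x' f : L) : Ω) = aeval x f := fun f =>
    (aeval_algebraMap_apply Ω x' f).symm
  have huu : (u' : Ω) = u := by
    rw [hu'def, IntermediateField.coe_div, hcoe, hx']
    change _ / algebraMap F Ω lam = _
    rw [mul_div_cancel_left₀ _ ((_root_.map_ne_zero _).2 hlam0)]
  have hiL : ∀ z : L, IsIntegral ℤ (z : Ω) → IsIntegral ℤ z := fun z hz =>
    (isIntegral_algebraMap_iff (algebraMap L Ω).injective).1 hz
  have hxy : x' ^ 2 + y' ^ 2 = algebraMap F L β := by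
    apply Subtype.ext
    change x ^ 2 + y ^ 2 = algebraMap F Ω β
    rw [hy]; ring
  have hut : (dickson 1 ((b : L) ^ 2) (M + 1)).eval u' = t := by
    apply (algebraMap L Ω).injective
    rw [← eval₂_at_apply, ← eval_map, map_dickson, map_pow, map_natCast, map_intCast]
    change eval (u' : Ω) _ = _
    rw [huu, hu']
  have hadj : Algebra.adjoin F {x', y'} = ⊤ := by
    rw [eq_top_iff]
    intro z _
    have h1 : (z : Ω) ∈ Algebra.adjoin F ({x, y} : Set Ω) := by
      rw [← IntermediateField.adjoin_toSubalgebra_of_isAlgebraic fun z hz => (hFi z hz).isAlgebraic]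
      exact z.2
    have h2 : Algebra.adjoin F ({x, y} : Set Ω) = (Algebra.adjoin F {x', y'}).map L.val := by
      rw [AlgHom.map_adjoin, Set.image_pair]; rfl
    rw [h2] at h1
    obtain ⟨w, hw, hwz⟩ := h1
    rwa [← Subtype.ext hwz]
  have hgx : aeval x' g = algebraMap F L lam * u' := by
    rw [hu'def, mul_div_cancel₀ _ hlamL]
  have hTR : TR L := by
    intro φ
    set ψ := reEmb (φ.comp (algebraMap F L)) (hF _) with hψ
    have hψφ : ∀ z, ((ψ z : ℝ) : ℂ) = φ (algebraMap F L z) := fun z => ofReal_reEmb _ _ z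
    have htR : |(t : ℝ)| ≤ b ^ (M + 1) := by exact_mod_cast ht
    obtain ⟨hu1, hu2⟩ := real_roots hb0' (r := M + 1) (by omega)
      (p := dickson 1 ((b : ℝ) ^ 2) (M + 1) - C (t : ℝ))
      ((natDegree_sub_le _ _).trans (max_le (D_natDegree_le _ _) (by simp)))
      (fun s _ => by
        rw [eval_sub, eval_C, sub_sub_cancel_left, abs_neg]
        have : (0 : ℝ) < b ^ (M + 1) := by positivity
        linarith) (z := φ u') (by
        have h1 := congrArg φ hut
        rw [← eval₂_at_apply, ← eval_map, map_dickson, map_pow, map_natCast, map_intCast] at h1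
        rw [map_sub, aeval_C, ← eval_map_algebraMap, map_dickson, map_pow, map_natCast, h1]
        simp)
    have hu3 : ((φ u').re : ℂ) = φ u' := by apply Complex.ext <;> simp [hu1]
    obtain ⟨hx1, hx2⟩ := real_roots (hcB0 ψ) hr (p := g.map ψ - C (ψ lam * (φ u').re))
      ((natDegree_sub_le _ _).trans (max_le (natDegree_map_le.trans hgd.le)
        (by rw [natDegree_C]; exact Nat.zero_le _)))
      (fun s hs => by
        have h1 := hg ψ s hs
        have h2 : |(φ u').re| ≤ 2 * b := abs_le_of_sq_le_sq (by nlinarith) (by positivity)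
        have h3 := hlam ψ
        have h5 : 0 < cB ψ ^ r := pow_pos (hcB0 ψ) _
        have h4 : |ψ lam * (φ u').re| ≤ cB ψ ^ r := by
          rw [abs_mul]
          calc |ψ lam| * |(φ u').re| ≤ (Cb * (cB ψ ^ r / ρ ^ r)) * (2 * b) :=
                mul_le_mul h3 h2 (abs_nonneg _) (by positivity)
            _ = (2 * b * Cb) / ρ ^ r * cB ψ ^ r := by ring
            _ ≤ 1 * cB ψ ^ r := by
                gcongr
                exact (div_le_one hρr).2 hb1
            _ = _ := one_mul _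
        rw [eval_sub, eval_C]
        have h6 := abs_le.1 h1
        have h7 := abs_le.1 h4
        rw [abs_lt]
        constructor <;> linarith [h6.1, h6.2, h7.1, h7.2]) (z := φ x') (by
        have h1 := congrArg φ hgx
        rw [aeval_def, hom_eval₂, map_mul] at h1
        rw [map_sub, aeval_C, aeval_def, eval₂_map]
        have h2 : (algebraMap ℝ ℂ).comp ψ = φ.comp (algebraMap F L) := RingHom.ext hψφ
        rw [h2, h1, map_mul]
        change _ - ((ψ lam : ℝ) : ℂ) * (((φ u').re : ℝ) : ℂ) = 0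
        rw [hψφ, hu3, sub_self])
    have hy1 : (φ y').im = 0 := by
      have h1 := congrArg φ hxy
      rw [map_add, map_pow, map_pow, ← hψφ, hB] at h1
      have h2 := congrArg Complex.re h1
      have h3 := congrArg Complex.im h1
      simp only [sq, Complex.add_re, Complex.add_im, Complex.mul_re, Complex.mul_im, hx1,
        Complex.ofReal_re, Complex.ofReal_im] at h2 h3
      by_contra hne
      have h5 : (φ y').re = 0 := by
        have : (φ y').re * (φ y').im = 0 := by linarith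
        exact (mul_eq_zero.1 this).resolve_right hne
      rw [h5] at h2
      have h6 : 0 < (φ y').im * (φ y').im := mul_self_pos.2 hne
      nlinarith
    intro z
    have hz : z ∈ Algebra.adjoin F {x', y'} := hadj ▸ Algebra.mem_top
    induction hz using Algebra.adjoin_induction with
    | mem z hz =>
      rcases hz with rfl | rfl
      · exact hx1
      · exact hy1
    | algebraMap c => rw [← hψφ]; simp
    | add a c _ _ ha hc => rw [map_add, Complex.add_im, ha, hc, add_zero]
    | mul a c _ _ ha hc => rw [map_mul, Complex.mul_im, ha, hc]; simp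
  have hm : finrank F L ≤ 2 * r * (M + 1) := by
    refine (finrank_conic_le hxy hadj).trans ?_
    have hc1 : (C lam⁻¹ * g).natDegree = r := by rw [natDegree_C_mul (inv_ne_zero hlam0), hgd]
    have hc2 : ((dickson 1 ((b : F) ^ 2) (M + 1)).comp (C lam⁻¹ * g) - C (t : F)).natDegree =
        (M + 1) * r := by
      rw [natDegree_sub_C, natDegree_comp, (hDm _ _ _).2, hc1]
    have hc3 : (dickson 1 ((b : F) ^ 2) (M + 1)).comp (C lam⁻¹ * g) - C (t : F) ≠ 0 := by
      intro h
      rw [h, natDegree_zero] at hc2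
      have : 0 < (M + 1) * r := by positivity
      omega
    have hc4 := natDegree_le_natDegree (minpoly.degree_le_of_ne_zero F x' hc3 (by
      rw [map_sub, aeval_comp, map_mul, aeval_C, aeval_C, hgx, map_inv₀,
        inv_mul_cancel_left₀ hlamL, ← eval_map_algebraMap, map_dickson, map_pow, map_natCast, hut,
        map_intCast, sub_self]))
    rw [hc2] at hc4
    nlinarith
  obtain ⟨h3, hall⟩ := core hTR hκ0 hκ cA cB (fun φ => by simp only [hcA]; positivity)
    (fun φ => (hcB0 φ).le) hA hB (hP1.le.trans hcc1) (le_max_left _ _)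
    (by rw [hPB]; gcongr) (hiL x' hxi) (hiL y' hyi) (hiL u' (huu ▸ hui)) hxy hadj hm hb0 hb2 hM hD
    hq0 hq ht hDq hut
  exact ⟨L, hfd, hTR, h3, ⟨x', y', hiL x' hxi, hiL y' hyi, hxy⟩, hall⟩

end Pool.Agent.H77Z.Py
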