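import Pool.Agent.H77Z.Py.NF

namespace Pool.Agent.H77Z.Py

open Module

/-- `z` is a sum of `k` squares of algebraic integers of the field. -/
def RepT {K : Type*} [Field K] (k : ℕ) (z : K) : Prop :=
  ∃ f : Fin k → K, (∀ i, IsIntegral ℤ (f i)) ∧ z = ∑ i, f i ^ 2

section
variable {K : Type*} [Field K]

lemma RepT.cons {k : ℕ} {z a : K} (h : RepT k z) (ha : IsIntegral ℤ a) :
    RepT (k + 1) (a ^ 2 + z) := by
  obtain ⟨f, hf, rfl⟩ := h
  refine ⟨Fin.cons a f, fun i => ?_, by rw [Fin.sum_univ_succ]; simp⟩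
  refine Fin.cases ?_ (fun j => ?_) i
  · simpa using ha
  · simpa using hf j

lemma RepT.zero (k : ℕ) : RepT k (0 : K) := ⟨fun _ => 0, fun _ => isIntegral_zero, by simp⟩

lemma RepT.succ {k : ℕ} {z : K} (h : RepT k z) : RepT (k + 1) z := by
  simpa using h.cons isIntegral_zero

lemma RepT.of_le {k l : ℕ} {z : K} (h : RepT k z) (hkl : k ≤ l) : RepT l z := by
  induction l, hkl using Nat.le_induction with
  | base => exact h
  | succ l _ ih => exact ih.succ

lemma RepT.nonneg {k : ℕ} {z : K} (h : RepT k z) (φ : K →+* ℝ) : 0 ≤ φ z := by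
  obtain ⟨f, -, rfl⟩ := h
  rw [map_sum]
  exact Finset.sum_nonneg fun i _ => by rw [map_pow]; exact sq_nonneg _

lemma RepT.isIntegral {k : ℕ} {z : K} (h : RepT k z) : IsIntegral ℤ z := by
  obtain ⟨f, hf, rfl⟩ := h
  exact IsIntegral.sum _ fun i _ => (hf i).pow 2

lemma RepT.of_step {n : ℕ} (h : ∀ z : K, RepT (n + 1) z → RepT n z) (m : ℕ) :
    ∀ z : K, RepT m z → RepT n z := by
  induction m with
  | zero =>
    rintro z ⟨f, -, rfl⟩
    simpa using RepT.zero n
  | succ m ih =>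
    rintro z ⟨f, hf, rfl⟩
    rw [Fin.sum_univ_succ]
    exact h _ ((ih _ ⟨fun i => f i.succ, fun i => hf _, rfl⟩).cons (hf 0))

lemma ne_zero_of_not_rep {n : ℕ} {y : Fin (n + 1) → K} (hy : ∀ i, IsIntegral ℤ (y i))
    (h : ¬ RepT n (∑ i, y i ^ 2)) (i : Fin (n + 1)) : y i ≠ 0 := by
  intro h0
  apply h
  rw [Fin.sum_univ_succAbove _ i, h0]
  exact ⟨fun j => y (i.succAbove j), fun j => hy _, by simp⟩

end

variable {F : Type*} [Field F] [NumberField F]

/-- The normalised norm. -/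
noncomputable def nu (z : F) : ℝ := NP z ^ ((finrank ℚ F : ℝ)⁻¹)

lemma nu_nonneg (z : F) : 0 ≤ nu z := Real.rpow_nonneg (NP_nonneg z) _

lemma nu_pow (z : F) : nu z ^ finrank ℚ F = NP z :=
  Real.rpow_inv_natCast_pow (NP_nonneg z) finrank_pos.ne'

lemma NP_lt_of_nu_lt {a b : F} (h : nu a < nu b) : NP a < NP b := by
  rw [← nu_pow, ← nu_pow]
  exact pow_lt_pow_left₀ h (nu_nonneg a) finrank_pos.ne'

lemma nu_algebraMap {L : Type*} [Field L] [NumberField L] [Algebra F L] (h : TR L) (x : F) :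
    nu (algebraMap F L x) = nu x := by
  haveI : IsScalarTower ℚ F L := IsScalarTower.of_algebraMap_eq' (by ext; simp)
  have h1 : finrank ℚ F * finrank F L = finrank ℚ L := Module.finrank_mul_finrank ℚ F L
  have h2 : finrank ℚ L ≠ 0 := finrank_pos.ne'
  refine (pow_left_inj₀ (nu_nonneg _) (nu_nonneg _) h2).1 ?_
  rw [nu_pow, NP_algebraMap h, ← h1, pow_mul, nu_pow]

lemma one_le_nu (h : TR F) {x : F} (hx : IsIntegral ℤ x) (h0 : x ≠ 0) : 1 ≤ nu x :=
  Real.one_le_rpow (one_le_NP h hx h0) (by positivity)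

lemma nu_natCast (h : TR F) (N : ℕ) : nu (N : F) = N := by
  refine (pow_left_inj₀ (nu_nonneg _) (by positivity) (finrank_pos (R := ℚ) (M := F)).ne').1 ?_
  rw [nu_pow, NP, ← card_emb h]
  simp

lemma nu_eq_prod (z : F) : nu z = ∏ φ : F →+* ℝ, |φ z| ^ ((finrank ℚ F : ℝ)⁻¹) := by
  rw [nu, NP, Real.finset_prod_rpow _ _ fun _ _ => abs_nonneg _]

lemma minkowski (h : TR F) {a b : F} (ha : ∀ φ : F →+* ℝ, 0 ≤ φ a) (hb : ∀ φ : F →+* ℝ, 0 < φ b) :
    nu a + nu b ≤ nu (a + b) := by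
  set w : ℝ := (finrank ℚ F : ℝ)⁻¹ with hw
  have hd : (0 : ℝ) < finrank ℚ F := by exact_mod_cast finrank_pos
  have hw0 : 0 ≤ w := by positivity
  have hsum : ∑ _φ : F →+* ℝ, w = 1 := by
    rw [Finset.sum_const, Finset.card_univ, card_emb h, nsmul_eq_mul, hw, mul_inv_cancel₀ hd.ne']
  have hab : ∀ φ : F →+* ℝ, 0 < φ (a + b) := fun φ => by
    rw [map_add]; linarith [ha φ, hb φ]
  have key : ∀ c : F, (∀ φ : F →+* ℝ, 0 ≤ φ c) →
      nu c ≤ (∑ φ : F →+* ℝ, w * (φ c / φ (a + b))) * nu (a + b) := by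
    intro c hc
    have h1 := Real.geom_mean_le_arith_mean_weighted Finset.univ (fun _ : F →+* ℝ => w)
      (fun φ => φ c / φ (a + b)) (fun _ _ => hw0) hsum (fun φ _ => div_nonneg (hc φ) (hab φ).le)
    refine le_trans (le_of_eq ?_) (mul_le_mul_of_nonneg_right h1 (nu_nonneg _))
    rw [nu_eq_prod, nu_eq_prod, ← Finset.prod_mul_distrib]
    refine Finset.prod_congr rfl fun φ _ => ?_
    rw [abs_of_nonneg (hc φ), abs_of_pos (hab φ),
      ← Real.mul_rpow (div_nonneg (hc φ) (hab φ).le) (hab φ).le, div_mul_cancel₀ _ (hab φ).ne']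
  have h2 := add_le_add (key a ha) (key b fun φ => (hb φ).le)
  rw [← add_mul, ← Finset.sum_add_distrib] at h2
  have h3 : ∑ φ : F →+* ℝ, (w * (φ a / φ (a + b)) + w * (φ b / φ (a + b))) = 1 := by
    rw [← hsum]
    refine Finset.sum_congr rfl fun φ _ => ?_
    rw [← mul_add, ← add_div, ← map_add, div_self (hab φ).ne', mul_one]
  rwa [h3, one_mul] at h2

lemma four_amgm {a b c e s : ℝ} (ha : 0 < a) (hb : 0 < b) (hc : 0 < c) (he : 0 < e)
    (hs : a + b + c + e ≤ s) (hne : ¬ (a = b ∧ c = e ∧ a = c)) : 256 * (a * b * c * e) < s ^ 4 := by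
  have h1 : 4 * (a * b) ≤ (a + b) ^ 2 := by nlinarith [sq_nonneg (a - b)]
  have h2 : 4 * (c * e) ≤ (c + e) ^ 2 := by nlinarith [sq_nonneg (c - e)]
  have h3 : 4 * ((a + b) * (c + e)) ≤ (a + b + c + e) ^ 2 := by nlinarith [sq_nonneg (a + b - c - e)]
  have h4 : (a + b + c + e) ^ 4 ≤ s ^ 4 := pow_le_pow_left₀ (by positivity) hs 4
  refine lt_of_lt_of_le ?_ h4
  have hab : 0 < a * b := by positivity
  have hce : 0 < c * e := by positivity
  have e4 : (a + b + c + e) ^ 4 = ((a + b + c + e) ^ 2) ^ 2 := by ring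
  have e5 : 256 * (a * b * c * e) = 16 * ((4 * (a * b)) * (4 * (c * e))) := by ring
  have e6 : (4 * ((a + b) * (c + e))) ^ 2 = 16 * ((a + b) ^ 2 * (c + e) ^ 2) := by ring
  have h5 : (4 * ((a + b) * (c + e))) ^ 2 ≤ ((a + b + c + e) ^ 2) ^ 2 :=
    pow_le_pow_left₀ (by positivity) h3 2
  rw [e4, e5]
  by_cases hab' : a = b
  · by_cases hce' : c = e
    · have hac : a ≠ c := fun h => hne ⟨hab', hce', h⟩
      have h6 : 4 * ((a + b) * (c + e)) < (a + b + c + e) ^ 2 := by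
        have : 0 < (a - c) ^ 2 := by positivity
        subst hab' hce'
        nlinarith
      have h7 := pow_lt_pow_left₀ h6 (by positivity) two_ne_zero
      rw [e6] at h7
      have h8 := mul_le_mul h1 h2 (by positivity) (by positivity)
      linarith
    · have h6 : 4 * (c * e) < (c + e) ^ 2 := by
        have : 0 < (c - e) ^ 2 := by have := sub_ne_zero.2 hce'; positivity
        nlinarith
      have h8 := mul_lt_mul' h1 h6 (by positivity) (by positivity)
      rw [e6] at h5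
      linarith
  · have h6 : 4 * (a * b) < (a + b) ^ 2 := by
      have : 0 < (a - b) ^ 2 := by have := sub_ne_zero.2 hab'; positivity
      nlinarith
    have h8 := mul_lt_mul h6 h2 (by positivity) (by positivity)
    rw [e6] at h5
    linarith

lemma four_lt (h : TR F) {n : ℕ} {y : Fin (n + 4) → F} (hy : ∀ i, IsIntegral ℤ (y i))
    (hn : ¬ RepT (n + 3) (∑ i, y i ^ 2)) : 4 ^ finrank ℚ F < NP (∑ i, y i ^ 2) := by
  have h0 := ne_zero_of_not_rep hy hn
  set a := y 0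
  set b := y (Fin.succ 0)
  set c := y (Fin.succ (Fin.succ 0))
  set e := y (Fin.succ (Fin.succ (Fin.succ 0)))
  have hr : RepT n (∑ i : Fin n, y i.succ.succ.succ.succ ^ 2) := ⟨_, fun i => hy _, rfl⟩
  have hsum : ∑ i, y i ^ 2 = a ^ 2 + b ^ 2 + c ^ 2 + e ^ 2 +
      ∑ i : Fin n, y i.succ.succ.succ.succ ^ 2 := by
    rw [Fin.sum_univ_succ, Fin.sum_univ_succ, Fin.sum_univ_succ, Fin.sum_univ_succ]
    ring
  have hne : ¬ (a ^ 2 = b ^ 2 ∧ c ^ 2 = e ^ 2 ∧ a ^ 2 = c ^ 2) := by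
    rintro ⟨h1, h2, h3⟩
    apply hn
    have h2' : IsIntegral ℤ (2 * a) := by rw [two_mul]; exact (hy _).add (hy _)
    have := hr.succ.succ.cons h2'
    convert this using 1
    rw [hsum, ← h1, ← h2, ← h3]; ring
  have h1 := one_le_NP h ((((hy _).mul (hy _)).mul (hy _)).mul (hy _))
    (mul_ne_zero (mul_ne_zero (mul_ne_zero (h0 0) (h0 (Fin.succ 0))) (h0 (Fin.succ (Fin.succ 0))))
      (h0 (Fin.succ (Fin.succ (Fin.succ 0)))))
  have h2 : ∏ φ : F →+* ℝ, (256 * |φ (a * b * c * e)| ^ 2) <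
      ∏ φ : F →+* ℝ, |φ (∑ i, y i ^ 2)| ^ 4 := by
    haveI := nonempty_emb h
    have hp : ∀ (φ : F →+* ℝ) i, 0 < φ (y i) ^ 2 := fun φ i => by
      have := (map_ne_zero φ).2 (h0 i); positivity
    refine Finset.prod_lt_prod_of_nonempty (fun φ _ => ?_) (fun φ _ => ?_) Finset.univ_nonempty
    · rw [sq_abs, map_mul, map_mul, map_mul, mul_pow, mul_pow, mul_pow]
      have := hp φ
      exact mul_pos (by norm_num) (mul_pos (mul_pos (mul_pos (this _) (this _)) (this _)) (this _))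
    · rw [sq_abs, map_mul, map_mul, map_mul, mul_pow, mul_pow, mul_pow]
      refine four_amgm (hp φ _) (hp φ _) (hp φ _) (hp φ _) ?_ ?_
      · refine le_trans ?_ (le_abs_self _)
        rw [hsum]
        simp only [map_add, map_pow]
        linarith [hr.nonneg φ]
      · simp only [← map_pow, φ.injective.eq_iff]
        exact hne
  rw [Finset.prod_mul_distrib, Finset.prod_pow, Finset.prod_pow, Finset.prod_const, Finset.card_univ,
    card_emb h] at h2
  change _ * NP _ ^ 2 < NP _ ^ 4 at h2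
  refine lt_of_pow_lt_pow_left₀ 4 (NP_nonneg _) (lt_of_le_of_lt ?_ h2)
  have h3 : ((4 : ℝ) ^ finrank ℚ F) ^ 4 = 256 ^ finrank ℚ F := by
    rw [← pow_mul, mul_comm, pow_mul]; norm_num
  rw [h3]
  exact le_mul_of_one_le_right (by positivity) (one_le_pow₀ h1)

end Pool.Agent.H77Z.Py
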