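import Pool.Agent.H77Z.Py.Tower

namespace Pool.Agent.H77Z.Py

open Module

lemma inf_dim {K : Type*} [Field K] [CharZero K]
    (h : ∀ l : ℕ, l.Prime → 5 < l → ∃ s : K, s ^ 2 = l) : ¬ FiniteDimensional ℚ K := by
  intro hfd
  haveI : NumberField K := { to_finiteDimensional := hfd }
  obtain ⟨κ, hκ0, hκ⟩ := kappa K
  obtain ⟨l, hl1, hl⟩ := Nat.exists_infinite_primes (κ + 6)
  obtain ⟨s, hs⟩ := h l hl (by omega)
  have hl0 : (l : K) ≠ 0 := Nat.cast_ne_zero.2 hl.ne_zero
  have h1 := hκ s⁻¹ l (Int.squarefree_natCast.2 hl.squarefree) (by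
    rw [inv_pow, hs, Int.cast_natCast, inv_mul_cancel₀ hl0]; exact isIntegral_one)
  have h2 : IsIntegral ℤ (algebraMap ℚ K ((κ : ℚ) ^ 2 / l)) := by
    convert h1.pow 2 using 1
    rw [mul_pow, inv_pow, hs]; simp [div_eq_mul_inv]
  obtain ⟨z, hz⟩ := IsIntegrallyClosed.isIntegral_iff.1
    ((isIntegral_algebraMap_iff (algebraMap ℚ K).injective).1 h2)
  have hl0' : (l : ℚ) ≠ 0 := Nat.cast_ne_zero.2 hl.ne_zero
  have h3 : (κ : ℤ) ^ 2 = l * z := by
    have : (κ : ℚ) ^ 2 = l * z := by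
      have hz' : (z : ℚ) = (κ : ℚ) ^ 2 / l := by simpa using hz
      rw [hz']; field_simp
    exact_mod_cast this
  have h4 : l ∣ κ ^ 2 := Int.natCast_dvd_natCast.1 ⟨z, by exact_mod_cast h3⟩
  have h5 := Nat.le_of_dvd hκ0 (hl.dvd_of_dvd_pow h4)
  omega

instance algClosure_isAlgebraic : @Algebra.IsAlgebraic ℚ (AlgebraicClosure ℚ) _ _
    DivisionRing.toRatAlgebra := by
  convert AlgebraicClosure.isAlgebraic ℚ
  · rfl
  · exact Subsingleton.elim _ _

lemma sub_isAlgebraic (K : IntermediateField ℚ (AlgebraicClosure ℚ)) : Algebra.IsAlgebraic ℚ K :=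
  ⟨fun z => (isAlgebraic_algHom_iff K.val K.val.injective).1 (Algebra.IsAlgebraic.isAlgebraic _)⟩

/-- The field of totally real algebraic numbers. -/
def Tot : IntermediateField ℚ (AlgebraicClosure ℚ) where
  carrier := {z | ∀ σ : AlgebraicClosure ℚ →+* ℂ, (σ z).im = 0}
  mul_mem' ha hb σ := by rw [map_mul, Complex.mul_im, ha σ, hb σ]; simp
  add_mem' ha hb σ := by rw [map_add, Complex.add_im, ha σ, hb σ]; simp
  algebraMap_mem' q σ := by simp
  inv_mem' a ha σ := by rw [map_inv₀, Complex.inv_im, ha σ]; simp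

lemma TR_of_le {K : IntermediateField ℚ (AlgebraicClosure ℚ)} (h : K ≤ Tot) : TR K := by
  intro φ x
  letI : Algebra K ℂ := φ.toAlgebra
  haveI : Algebra.IsAlgebraic K (AlgebraicClosure ℚ) := Algebra.IsAlgebraic.tower_top (K := ℚ) K
  let ψ : AlgebraicClosure ℚ →ₐ[K] ℂ := IsAlgClosed.lift
  have : φ x = ψ (algebraMap K _ x) := (ψ.commutes x).symm
  rw [this]
  exact h x.2 ψ.toRingHom

lemma sqrt_mem_Tot {K : IntermediateField ℚ (AlgebraicClosure ℚ)} (h : K ≤ Tot) {k : ℕ} {z : K}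
    (hz : RepT k z) {s : AlgebraicClosure ℚ} (hs : s ^ 2 = z) : s ∈ Tot := by
  intro σ
  have h1 := hz.nonneg (reEmb (σ.comp K.val.toRingHom) (TR_of_le h _))
  have h2 := ofReal_reEmb (σ.comp K.val.toRingHom) (TR_of_le h _) z
  generalize reEmb (σ.comp K.val.toRingHom) (TR_of_le h _) z = t at h1 h2
  have h3 : σ s ^ 2 = t := by rw [h2, ← map_pow, hs]; rfl
  have h4 := congrArg Complex.re h3
  have h5 := congrArg Complex.im h3
  simp only [sq, Complex.mul_re, Complex.mul_im, Complex.ofReal_re, Complex.ofReal_im] at h4 h5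
  by_contra hne
  have h6 : (σ s).re = 0 := by
    have : (σ s).re * (σ s).im = 0 := by linarith
    exact (mul_eq_zero.1 this).resolve_right hne
  have h7 : 0 < (σ s).im * (σ s).im := mul_self_pos.2 hne
  rw [h6] at h4
  linarith

lemma rep_nat {K : Type*} [Field K] (l : ℕ) : RepT l (l : K) :=
  ⟨fun _ => 1, fun _ => isIntegral_one, by simp⟩

lemma rep_one_of_sq {K : Type*} [Field K] {k : ℕ} {z s : K} (hz : RepT k z) (hs : s ^ 2 = z) :
    RepT 1 z :=
  ⟨fun _ => s, fun _ => IsIntegral.of_pow two_pos (hs ▸ hz.isIntegral), by simp [hs]⟩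

theorem case_one : Algebra.IsAlgebraic ℚ Tot ∧ ¬ FiniteDimensional ℚ Tot ∧ TR Tot ∧
    (∀ m (z : Tot), RepT m z → RepT 1 z) := by
  have key : ∀ m (z : Tot), RepT m z → ∃ s : Tot, s ^ 2 = z := by
    intro m z hz
    obtain ⟨s, hs⟩ := IsAlgClosed.exists_pow_nat_eq (z : AlgebraicClosure ℚ) (n := 2) two_pos
    exact ⟨⟨s, sqrt_mem_Tot le_rfl hz hs⟩, Subtype.ext hs⟩
  refine ⟨sub_isAlgebraic _, inf_dim fun l _ _ => key l _ (rep_nat l), TR_of_le le_rfl, fun m z hz => ?_⟩
  obtain ⟨s, hs⟩ := key m z hz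
  exact rep_one_of_sq hz hs

instance : Fact (Nat.Prime 5) := ⟨by norm_num⟩

theorem case_two : ∃ K : IntermediateField ℚ (AlgebraicClosure ℚ), Algebra.IsAlgebraic ℚ K ∧
    ¬ FiniteDimensional ℚ K ∧ TR K ∧ (∀ z : K, RepT 3 z → RepT 2 z) ∧
    ∃ z : K, (∃ m, RepT m z) ∧ ¬ RepT 1 z := by
  classical
  let ι : AlgebraicClosure ℚ →ₐ[ℚ] PadicAlgCl 5 := IsAlgClosed.lift
  have hrat : ∀ q : ℚ, ‖ι (algebraMap ℚ _ q)‖ = ‖(q : ℚ_[5])‖ := by
    intro q
    rw [ι.commutes, ← PadicAlgCl.norm_extends]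
    congr 1
  have hnat : ∀ l : ℕ, ‖ι l‖ = ‖(l : ℚ_[5])‖ := fun l => by simpa using hrat l
  have hunit : ∀ l : ℕ, ¬ 5 ∣ l → ‖ι l‖ = 1 := by
    intro l hl
    rw [hnat]
    refine le_antisymm (by simpa using Padic.norm_int_le_one (p := 5) l) (not_lt.1 fun h => hl ?_)
    have := (Padic.norm_intCast_lt_one_iff (p := 5) (k := l)).1 (by simpa using h)
    exact_mod_cast this
  have h2 : ‖ι 2‖ = 1 := by simpa using hunit 2 (by norm_num)
  let S : Set (IntermediateField ℚ (AlgebraicClosure ℚ)) :=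
    {E | ∀ z ∈ E, z ≠ 0 → ∃ k : ℤ, ‖ι z‖ = 5 ^ k}
  have hbot : ⊥ ∈ S := by
    intro z hz hz0
    obtain ⟨q, rfl⟩ := IntermediateField.mem_bot.1 hz
    have hq : (q : ℚ_[5]) ≠ 0 := by
      rintro h
      exact hz0 (by rw [Rat.cast_eq_zero.1 h, map_zero])
    exact ⟨_, by rw [hrat, Padic.norm_eq_zpow_neg_valuation hq]; rfl⟩
  obtain ⟨E, -, hE⟩ := zorn_le_nonempty₀ S (fun c hc hchain y hy => by
    haveI : Nonempty c := ⟨⟨y, hy⟩⟩
    have hdir : Directed (· ≤ ·) (fun x : c => x.1) := hchain.directedOn.directed_val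
    refine ⟨⨆ x : c, x.1, fun z hz => ?_, fun z hz => le_iSup (fun x : c => x.1) ⟨z, hz⟩⟩
    obtain ⟨x, hx⟩ := Set.mem_iUnion.1 ((IntermediateField.coe_iSup_of_directed hdir).subset hz)
    exact hc x.2 z hx) ⊥ hbot
  have hsq : ∀ s : AlgebraicClosure ℚ, s ^ 2 ∈ E → ‖ι s‖ = 1 → s ∈ E := by
    intro s hs hs1
    by_contra hsE
    have hne : ∀ a ∈ E, ∀ b ∈ E, a + b * s = 0 → b = 0 := by
      intro a ha b hb h
      by_contra hb0
      apply hsE
      have : s = -a / b := by rw [eq_div_iff hb0]; linear_combination h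
      rw [this]
      exact div_mem (neg_mem ha) hb
    have hconj : ∀ a ∈ E, ∀ b ∈ E, a + b * s ≠ 0 → a - b * s ≠ 0 := by
      intro a ha b hb h h0
      have h1 := hne a ha (-b) (neg_mem hb) (by linear_combination h0)
      rw [neg_eq_zero] at h1
      rw [h1] at h h0
      exact h (by simpa using h0)
    have hform : ∀ z ∈ IntermediateField.adjoin ℚ (insert s (E : Set (AlgebraicClosure ℚ))),
        ∃ a ∈ E, ∃ b ∈ E, z = a + b * s := by
      intro z hz
      induction hz using IntermediateField.adjoin_induction with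
      | mem z hz =>
        rcases hz with rfl | hz
        · exact ⟨0, zero_mem _, 1, one_mem _, by simp⟩
        · exact ⟨z, hz, 0, zero_mem _, by simp⟩
      | algebraMap q => exact ⟨_, E.algebraMap_mem q, 0, zero_mem _, by simp⟩
      | add x y _ _ hx hy =>
        obtain ⟨a, ha, b, hb, rfl⟩ := hx
        obtain ⟨c, hc, e, he, rfl⟩ := hy
        exact ⟨a + c, add_mem ha hc, b + e, add_mem hb he, by ring⟩
      | inv x _ hx =>
        obtain ⟨a, ha, b, hb, rfl⟩ := hx
        by_cases h0 : a + b * s = 0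
        · exact ⟨0, zero_mem _, 0, zero_mem _, by simp [h0]⟩
        · have h1 := hconj a ha b hb h0
          have hN : a ^ 2 - b ^ 2 * s ^ 2 ∈ E := sub_mem (pow_mem ha 2) (mul_mem (pow_mem hb 2) hs)
          have e1 : a ^ 2 - b ^ 2 * s ^ 2 = (a + b * s) * (a - b * s) := by ring
          refine ⟨a / (a ^ 2 - b ^ 2 * s ^ 2), div_mem ha hN, -b / (a ^ 2 - b ^ 2 * s ^ 2),
            div_mem (neg_mem hb) hN, ?_⟩
          rw [e1]; field_simp; ring
      | mul x y _ _ hx hy =>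
        obtain ⟨a, ha, b, hb, rfl⟩ := hx
        obtain ⟨c, hc, e, he, rfl⟩ := hy
        exact ⟨a * c + b * e * s ^ 2, add_mem (mul_mem ha hc) (mul_mem (mul_mem hb he) hs),
          a * e + b * c, add_mem (mul_mem ha he) (mul_mem hb hc), by ring⟩
    have hS : IntermediateField.adjoin ℚ (insert s (E : Set (AlgebraicClosure ℚ))) ∈ S := by
      intro z hz hz0
      obtain ⟨a, ha, b, hb, rfl⟩ := hform z hz
      by_cases hb0 : b = 0
      · rw [hb0, zero_mul, add_zero] at hz0 ⊢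
        exact hE.prop a ha hz0
      obtain ⟨kb, hkb⟩ := hE.prop b hb hb0
      have hbs : ‖ι (b * s)‖ = ‖ι b‖ := by rw [map_mul, norm_mul, hs1, mul_one]
      have hbpos : (0 : ℝ) < ‖ι b‖ := by rw [hkb]; positivity
      by_cases hab : ‖ι a‖ = ‖ι (b * s)‖
      · by_cases hc : ‖ι (a + b * s)‖ = ‖ι b‖
        · exact ⟨kb, by rw [hc, hkb]⟩
        · have h3 : ‖ι (a + b * s)‖ ≠ ‖-ι (2 * (b * s))‖ := by
            rw [norm_neg, map_mul ι 2, norm_mul, h2, one_mul, hbs]; exact hc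
          have h4 := IsUltrametricDist.norm_add_eq_max_of_norm_ne_norm h3
          have h5 : ‖ι (a + b * s)‖ ≤ ‖ι b‖ := by
            rw [map_add]
            refine (IsUltrametricDist.norm_add_le_max _ _).trans ?_
            rw [hab, hbs, max_self]
          rw [← map_neg, ← map_add, show a + b * s + -(2 * (b * s)) = a - b * s by ring, map_neg,
            norm_neg, map_mul ι 2, norm_mul, h2, one_mul, hbs, max_eq_right h5] at h4
          have hN : (a + b * s) * (a - b * s) ∈ E := by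
            rw [show (a + b * s) * (a - b * s) = a ^ 2 - b ^ 2 * s ^ 2 by ring]
            exact sub_mem (pow_mem ha 2) (mul_mem (pow_mem hb 2) hs)
          obtain ⟨k, hk⟩ := hE.prop _ hN (mul_ne_zero hz0 (hconj a ha b hb hz0))
          rw [map_mul, norm_mul, h4, hkb] at hk
          refine ⟨k - kb, ?_⟩
          rw [zpow_sub₀ (by norm_num), eq_div_iff (by positivity), hk]
      · rw [map_add, IsUltrametricDist.norm_add_eq_max_of_norm_ne_norm hab, hbs]
        rcases le_total ‖ι a‖ ‖ι b‖ with h | h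
        · exact ⟨kb, by rw [max_eq_right h, hkb]⟩
        · rw [max_eq_left h]
          refine hE.prop a ha ?_
          rintro rfl
          rw [map_zero, norm_zero] at h
          linarith
    have hle : E ≤ IntermediateField.adjoin ℚ (insert s (E : Set (AlgebraicClosure ℚ))) :=
      fun z hz => IntermediateField.subset_adjoin _ _ (Set.mem_insert_of_mem _ hz)
    exact hsE (hE.le_of_ge hS hle (IntermediateField.subset_adjoin _ _ (Set.mem_insert _ _)))
  set K := Tot ⊓ E with hK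
  have hKT : K ≤ Tot := inf_le_left
  let N : K → ℝ := fun z => ‖ι z‖
  have key : ∀ m (z c : K), RepT m z → c ≠ 0 → N z = N c ^ 2 → ∃ s : K, s ^ 2 = z := by
    intro m z c hz hc0 hN
    obtain ⟨s, hs⟩ := IsAlgClosed.exists_pow_nat_eq (z : AlgebraicClosure ℚ) (n := 2) two_pos
    have hc0' : (c : AlgebraicClosure ℚ) ≠ 0 := fun h => hc0 (Subtype.ext h)
    have hcn : ‖ι c‖ ≠ 0 := by simpa using hc0
    have h1 : s / c ∈ E := by
      refine hsq _ (by rw [div_pow, hs]; exact div_mem z.2.2 (pow_mem c.2.2 2)) ?_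
      have h3 : ‖ι s‖ ^ 2 = ‖ι c‖ ^ 2 := by rw [← norm_pow, ← map_pow, hs]; exact hN
      rw [map_div₀, norm_div, (pow_left_inj₀ (norm_nonneg _) (norm_nonneg _) two_ne_zero).1 h3,
        div_self hcn]
    have h3 : s ∈ E := by
      have := mul_mem h1 c.2.2
      rwa [div_mul_cancel₀ _ hc0'] at this
    exact ⟨⟨s, sqrt_mem_Tot hKT hz hs, h3⟩, Subtype.ext hs⟩
  have hpair : ∀ a b : K, IsIntegral ℤ a → IsIntegral ℤ b → RepT 2 (a ^ 2 + b ^ 2) := by
    intro a b ha hb
    simpa using ((RepT.zero 0).cons hb).cons ha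
  have hthree : ∀ a b c : K, IsIntegral ℤ a → IsIntegral ℤ b → IsIntegral ℤ c → N b ≤ N a →
      N c ≤ N a → RepT 2 (a ^ 2 + b ^ 2 + c ^ 2) := by
    intro a b c ha hb hc hba hca
    by_cases ha0 : a = 0
    · simpa [ha0] using hpair b c hb hc
    have fin : ∀ x y w : K, IsIntegral ℤ x → IsIntegral ℤ y → IsIntegral ℤ w →
        N (x ^ 2 + y ^ 2) = N a ^ 2 → RepT 2 (w ^ 2 + (x ^ 2 + y ^ 2)) := by
      intro x y w hx hy hw h
      obtain ⟨s, hs⟩ := key 2 _ a (hpair x y hx hy) ha0 h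
      exact (rep_one_of_sq (hpair x y hx hy) hs).cons hw
    have hle : ∀ x : K, N x ≤ N a → N (a ^ 2 + x ^ 2) ≤ N a ^ 2 := by
      intro x hx
      change ‖ι ((a : AlgebraicClosure ℚ) ^ 2 + (x : AlgebraicClosure ℚ) ^ 2)‖ ≤ _
      rw [map_add, map_pow, map_pow]
      refine (IsUltrametricDist.norm_add_le_max _ _).trans (max_le (by rw [norm_pow]) ?_)
      rw [norm_pow]
      exact pow_le_pow_left₀ (norm_nonneg _) hx 2
    by_cases h1 : N (a ^ 2 + b ^ 2) = N a ^ 2
    · convert fin a b c ha hb hc h1 using 1; ring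
    by_cases h3 : N (a ^ 2 + c ^ 2) = N a ^ 2
    · convert fin a c b ha hc hb h3 using 1; ring
    have h4 : N (b ^ 2 + c ^ 2) = N a ^ 2 := by
      have h5 := lt_of_le_of_ne (hle b hba) h1
      have h6 := lt_of_le_of_ne (hle c hca) h3
      have h7 : ‖ι ((a ^ 2 + b ^ 2 : K) + (a ^ 2 + c ^ 2 : K))‖ < N a ^ 2 := by
        rw [map_add]
        exact (IsUltrametricDist.norm_add_le_max _ _).trans_lt (max_lt h5 h6)
      have h8 : ‖-ι (2 * (a : AlgebraicClosure ℚ) ^ 2)‖ = N a ^ 2 := by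
        rw [norm_neg, map_mul, norm_mul, h2, one_mul, map_pow, norm_pow]
      have h9 := IsUltrametricDist.norm_add_eq_max_of_norm_ne_norm (h7.trans_eq h8.symm).ne
      rw [h8, max_eq_right h7.le, ← map_neg, ← map_add] at h9
      rw [← h9]
      simp only [N]
      congr 2
      push_cast
      ring
    convert fin b c a hb hc ha h4 using 1; ring
  refine ⟨K, sub_isAlgebraic _, inf_dim fun l hl hl5 => key l _ 1 (rep_nat l) one_ne_zero ?_,
    TR_of_le hKT, ?_, (5 : ℕ), ⟨5, rep_nat 5⟩, ?_⟩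
  · have h1 := hunit l fun h => by
      have := (Nat.prime_dvd_prime_iff_eq (by norm_num) hl).1 h
      omega
    simpa [N] using h1
  · rintro _ ⟨y, hy, rfl⟩
    rw [Fin.sum_univ_three]
    rcases le_total (N (y 0)) (N (y 1)) with h01 | h01
    · rcases le_total (N (y 1)) (N (y 2)) with h12 | h12
      · convert hthree _ _ _ (hy 2) (hy 0) (hy 1) (h01.trans h12) h12 using 1; ring
      · convert hthree _ _ _ (hy 1) (hy 0) (hy 2) h01 h12 using 1; ring
    · rcases le_total (N (y 0)) (N (y 2)) with h02 | h02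
      · convert hthree _ _ _ (hy 2) (hy 0) (hy 1) h02 (h01.trans h02) using 1; ring
      · exact hthree _ _ _ (hy 0) (hy 1) (hy 2) h01 h02
  · rintro ⟨y, -, hy⟩
    rw [Fin.sum_univ_one] at hy
    have h1 : ((5 : ℕ) : AlgebraicClosure ℚ) = (y 0 : AlgebraicClosure ℚ) ^ 2 := by
      have := congrArg K.val hy
      rw [map_natCast, map_pow] at this
      exact this
    have h3 : (y 0 : AlgebraicClosure ℚ) ≠ 0 := by
      intro h
      rw [h] at h1
      norm_num at h1
    obtain ⟨k, hk⟩ := hE.prop _ (y 0).2.2 h3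
    have h4 := hnat 5
    rw [Padic.norm_p, h1, map_pow, norm_pow, hk, ← zpow_natCast, ← zpow_mul, ← zpow_neg_one] at h4
    have h5 := zpow_right_injective₀ (a := (5 : ℝ)) (by norm_num) (by norm_num) h4
    omega

end Pool.Agent.H77Z.Py
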