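import Pool.Agent.H77Z.Py.Key
import Pool.Agent.H77Z.Py.Nu
import Pool.Agent.H618Z.PyMain

namespace Pool.Agent.H77Z.Py

open Module

lemma TR.of_equiv {K L : Type*} [Field K] [Field L] (h : TR L) (e : K ≃+* L) : TR K := by
  intro φ x
  simpa using h (φ.comp e.symm.toRingHom) (e x)

lemma RepT.map {K L : Type*} [Field K] [Field L] (e : K →+* L) {k : ℕ} {z : K} (h : RepT k z) :
    RepT k (e z) := by
  obtain ⟨f, hf, rfl⟩ := h
  exact ⟨fun i => e (f i), fun i => map_isIntegral_int e (hf i), by simp⟩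

lemma isIntegral_of_map {K L : Type*} [Field K] [Field L] (e : K →+* L) {z : K}
    (h : IsIntegral ℤ (e z)) : IsIntegral ℤ z := by
  obtain ⟨p, hp, h0⟩ := h
  refine ⟨p, hp, e.injective ?_⟩
  rw [Polynomial.hom_eval₂, map_zero, ← h0]
  congr 1
  exact Subsingleton.elim _ _

/-- Totally real number fields inside the complex numbers. -/
structure NFld where
  F : IntermediateField ℚ ℂ
  fd : FiniteDimensional ℚ F
  tr : TR F

instance (A : NFld) : NumberField A.F := { to_finiteDimensional := A.fd }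

lemma nu_inclusion {A B : NFld} (h : A.F ≤ B.F) (z : A.F) :
    nu (IntermediateField.inclusion h z) = nu z := by
  letI : Algebra A.F B.F := (IntermediateField.inclusion h).toRingHom.toAlgebra
  exact nu_algebraMap B.tr z

lemma step_two (A : NFld) {α β : A.F} (hβ : IsIntegral ℤ β) (hα0 : ∀ φ : A.F →+* ℝ, 0 ≤ φ α)
    (hβ0 : ∀ φ : A.F →+* ℝ, 0 ≤ φ β) (hαβ : nu α < nu β) (h4 : 4 ^ finrank ℚ A.F < NP β) :
    ∃ (B : NFld) (h : A.F ≤ B.F), finrank ℚ A.F < finrank ℚ B.F ∧
      RepT 2 (IntermediateField.inclusion h β) ∧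
      ∀ k, RepT k (IntermediateField.inclusion h α) → RepT k α := by
  obtain ⟨L, hfd, hTR, h3, ⟨x, y, hx, hy, hxy⟩, hall⟩ :=
    key_step (Ω := ℂ) A.tr hβ hα0 hβ0 (NP_lt_of_nu_lt hαβ) h4
  haveI hfd' : FiniteDimensional ℚ L := Module.Finite.trans A.F L
  let e : (L.restrictScalars ℚ) ≃+* L := RingEquiv.refl _
  let B : NFld := ⟨L.restrictScalars ℚ, hfd', hTR.of_equiv e⟩
  have hle : A.F ≤ B.F := fun z hz => L.algebraMap_mem ⟨z, hz⟩
  have hinc : ∀ z : A.F, e (IntermediateField.inclusion hle z) = algebraMap A.F L z := fun z => rfl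
  refine ⟨B, hle, ?_, ?_, fun k hk => ?_⟩
  · have h1 : finrank ℚ A.F * finrank A.F L = finrank ℚ L := Module.finrank_mul_finrank ℚ A.F L
    have h2 : 0 < finrank ℚ A.F := finrank_pos
    change finrank ℚ A.F < finrank ℚ L
    nlinarith
  · have h1 : RepT 2 (algebraMap A.F L β) := by
      have := ((RepT.zero 0).cons hy).cons hx
      rwa [add_zero, hxy] at this
    exact h1.map e.symm.toRingHom
  · obtain ⟨γ, hγ, hs⟩ := hk.map e.toRingHom
    have hs' : algebraMap A.F L α = ∑ i, γ i ^ 2 := hs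
    choose δ hδ using hall k γ hγ hs'
    refine ⟨δ, fun i => isIntegral_of_map (algebraMap A.F L) (by rw [hδ]; exact hγ i), ?_⟩
    apply (algebraMap A.F L).injective
    rw [hs', map_sum]
    simp only [map_pow, hδ]

lemma exists_long (m : ℕ) : ∃ (A : NFld) (z : A.F), RepT (m + 1) z ∧ ¬ RepT m z := by
  classical
  set K : IntermediateField ℚ ℂ := IntermediateField.adjoin ℚ
    {z : ℂ | ∃ n ∈ {n : ℕ | 0 < n}, ∃ ζ : ℂ, IsPrimitiveRoot ζ n ∧ z = ζ + ζ⁻¹} with hK
  obtain ⟨f, hf, hne⟩ := H618Z.PyMain.main {n : ℕ | 0 < n} (Set.Ioi_infinite 0) (fun _ h => h)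
    (fun a ha b hb => ⟨a * b, Nat.mul_pos ha hb, dvd_mul_right _ _, dvd_mul_left _ _⟩) K hK m
  have hgen : ∀ z ∈ {z : ℂ | ∃ n ∈ {n : ℕ | 0 < n}, ∃ ζ : ℂ, IsPrimitiveRoot ζ n ∧ z = ζ + ζ⁻¹},
      IsIntegral ℚ z := by
    rintro _ ⟨n, hn, ζ, hζ, rfl⟩
    exact ((hζ.isIntegral hn).add (hζ.inv.isIntegral hn)).tower_top
  haveI : Algebra.IsAlgebraic ℚ K := IntermediateField.isAlgebraic_adjoin hgen
  have hKTR : TR K := by
    intro φ
    have key : ∀ z (hz : z ∈ K), (φ ⟨z, hz⟩).im = 0 := by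
      intro z hz
      induction hz using IntermediateField.adjoin_induction with
      | mem z hz =>
        obtain ⟨n, hn, ζ, hζ, rfl⟩ := hz
        set w : K := ⟨ζ + ζ⁻¹, IntermediateField.subset_adjoin _ _ ⟨n, hn, ζ, hζ, rfl⟩⟩ with hw
        have hn' : n ≠ 0 := Nat.pos_iff_ne_zero.1 hn
        have hζ0 : ζ ≠ 0 := hζ.ne_zero hn'
        have h1 : (Polynomial.dickson 1 (1 : K) n).eval w = 2 := by
          apply (algebraMap K ℂ).injective
          rw [← Polynomial.eval₂_at_apply, ← Polynomial.eval_map, Polynomial.map_dickson, map_one,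
            map_ofNat]
          change Polynomial.eval (ζ + ζ⁻¹) _ = _
          rw [Polynomial.dickson_one_one_eval_add_inv ζ ζ⁻¹ (mul_inv_cancel₀ hζ0), inv_pow,
            hζ.pow_eq_one]
          norm_num
        have h2 := congrArg φ h1
        rw [← Polynomial.eval₂_at_apply, ← Polynomial.eval_map, Polynomial.map_dickson, map_one,
          map_ofNat] at h2
        obtain ⟨sq, hsq⟩ := IsAlgClosed.exists_pow_nat_eq (φ w ^ 2 - 4) (n := 2) two_pos
        have h3 : (φ w + sq) / 2 * ((φ w - sq) / 2) = 1 := by linear_combination (-1 / 4 : ℂ) * hsq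
        have h4 : φ w = (φ w + sq) / 2 + (φ w - sq) / 2 := by ring
        generalize (φ w + sq) / 2 = ξ at h3 h4
        generalize (φ w - sq) / 2 = η at h3 h4
        rw [h4, Polynomial.dickson_one_one_eval_add_inv ξ η h3] at h2
        have h5 : ξ ^ n * η ^ n = 1 := by rw [← mul_pow, h3, one_pow]
        have h6 : ξ ^ n = 1 := by
          have : (ξ ^ n - 1) ^ 2 = 0 := by linear_combination ξ ^ n * h2 - h5
          exact sub_eq_zero.1 (pow_eq_zero_iff two_ne_zero |>.1 this)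
        have h7 : ‖ξ‖ = 1 := Complex.norm_eq_one_of_pow_eq_one h6 hn'
        have h8 : η = (starRingEnd ℂ) ξ := by
          rw [← Complex.inv_eq_conj h7]
          exact eq_inv_of_mul_eq_one_right h3
        change (φ w).im = 0
        rw [h4, h8]
        simp
      | algebraMap q =>
        have : (⟨algebraMap ℚ ℂ q, K.algebraMap_mem q⟩ : K) = (q : K) := Subtype.ext (by simp)
        rw [this, map_ratCast]; simp
      | add a b ha hb iha ihb =>
        have : (⟨a + b, add_mem ha hb⟩ : K) = ⟨a, ha⟩ + ⟨b, hb⟩ := rfl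
        rw [this, map_add, Complex.add_im, iha, ihb, add_zero]
      | inv a ha iha =>
        have : (⟨a⁻¹, inv_mem ha⟩ : K) = (⟨a, ha⟩ : K)⁻¹ := rfl
        rw [this, map_inv₀, Complex.inv_im, iha]; simp
      | mul a b ha hb iha ihb =>
        have : (⟨a * b, mul_mem ha hb⟩ : K) = ⟨a, ha⟩ * ⟨b, hb⟩ := rfl
        rw [this, map_mul, Complex.mul_im, iha, ihb]; simp
    exact fun z => key z.1 z.2
  set F : IntermediateField ℚ ℂ := IntermediateField.adjoin ℚ (Set.range f) with hF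
  have hFK : F ≤ K := IntermediateField.adjoin_le_iff.2 (by rintro _ ⟨i, rfl⟩; exact (hf i).1)
  have hfd : FiniteDimensional ℚ F := IntermediateField.finiteDimensional_adjoin (by
    rintro _ ⟨i, rfl⟩; exact (hf i).2.tower_top)
  have hTR : TR F := by
    letI : Algebra F K := (IntermediateField.inclusion hFK).toRingHom.toAlgebra
    haveI : IsScalarTower ℚ F K := IsScalarTower.of_algebraMap_eq' (by ext; simp)
    haveI : Algebra.IsAlgebraic F K := Algebra.IsAlgebraic.tower_top (K := ℚ) F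
    exact hKTR.of_algebra
  let g : Fin (m + 1) → F := fun i => ⟨f i, IntermediateField.subset_adjoin _ _ ⟨i, rfl⟩⟩
  refine ⟨⟨F, hfd, hTR⟩, ∑ i, g i ^ 2,
    ⟨g, fun i => isIntegral_of_map F.val.toRingHom (hf i).2, rfl⟩, ?_⟩
  rintro ⟨δ, hδ, hs⟩
  refine hne (fun i => δ i) (fun i => ⟨hFK (δ i).2, map_isIntegral_int F.val.toRingHom (hδ i)⟩) ?_
  have := congrArg F.val hs
  simpa [g] using this

theorem tower (n : ℕ) : ∃ K : IntermediateField ℚ ℂ, Algebra.IsAlgebraic ℚ K ∧
    ¬ FiniteDimensional ℚ K ∧ TR K ∧ (∀ z : K, RepT (n + 4) z → RepT (n + 3) z) ∧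
    ∃ z : K, (∃ m, RepT m z) ∧ ¬ RepT (n + 2) z := by
  classical
  set S : Set ℝ := {s | ∃ (A : NFld) (z : A.F), (∃ m, RepT m z) ∧ ¬ RepT (n + 2) z ∧ s = nu z}
    with hS
  have hSne : S.Nonempty := by
    obtain ⟨A, z, h1, h2⟩ := exists_long (n + 2)
    exact ⟨_, A, z, ⟨_, h1⟩, h2, rfl⟩
  have hSb : BddBelow S := ⟨0, by rintro _ ⟨A, z, -, -, rfl⟩; exact nu_nonneg z⟩
  obtain ⟨_, ⟨A0, α0, ⟨m0, hm0⟩, hα0, rfl⟩, hlt⟩ :=
    exists_lt_of_csInf_lt hSne (lt_add_one (sInf S))
  let St := {A : NFld // ∃ h : A0.F ≤ A.F, ¬ RepT (n + 2) (IntermediateField.inclusion h α0)}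
  have step : ∀ (A : St) (y : Fin (n + 4) → ℂ), ∃ B : St, ∃ h : A.1.F ≤ B.1.F,
      finrank ℚ A.1.F < finrank ℚ B.1.F ∧
      ∀ y' : Fin (n + 4) → A.1.F, (∀ i, (y' i : ℂ) = y i) → (∀ i, IsIntegral ℤ (y' i)) →
        RepT (n + 3) (IntermediateField.inclusion h (∑ i, y' i ^ 2)) := by
    rintro ⟨A, h0, hA⟩ y
    have sub : ∀ β : A.F, IsIntegral ℤ β → (∀ φ : A.F →+* ℝ, 0 ≤ φ β) → sInf S + 1 ≤ nu β →
        4 ^ finrank ℚ A.F < NP β → ∃ B : St, ∃ h : A.F ≤ B.1.F,
          finrank ℚ A.F < finrank ℚ B.1.F ∧ RepT 2 (IntermediateField.inclusion h β) := by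
      intro β hβ hβ0 h1 h4
      obtain ⟨B, h, h2, h3, h5⟩ := step_two A (α := IntermediateField.inclusion h0 α0) hβ
        (hm0.map (IntermediateField.inclusion h0).toRingHom).nonneg hβ0
        (by rw [nu_inclusion]; linarith) h4
      exact ⟨⟨B, h0.trans h, fun h6 => hA (h5 _ h6)⟩, h, h2, h3⟩
    by_cases hy : ∃ y' : Fin (n + 4) → A.F, (∀ i, (y' i : ℂ) = y i) ∧ (∀ i, IsIntegral ℤ (y' i)) ∧
        ¬ RepT (n + 3) (∑ i, y' i ^ 2)
    · obtain ⟨y', hy1, hy2, hy3⟩ := hy
      have hr : RepT (n + 4) (∑ i, y' i ^ 2) := ⟨y', hy2, rfl⟩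
      have hr' : RepT (n + 3) (∑ i : Fin (n + 3), y' i.succ ^ 2) := ⟨_, fun i => hy2 _, rfl⟩
      have h00 := ne_zero_of_not_rep hy2 hy3 0
      obtain ⟨B, h, h2, h3⟩ := sub _ hr.isIntegral hr.nonneg (by
        have h1 : sInf S ≤ nu (∑ i : Fin (n + 3), y' i.succ ^ 2) := by
          refine csInf_le hSb ⟨A, _, ⟨_, hr'⟩, fun h => hy3 ?_, rfl⟩
          rw [Fin.sum_univ_succ]
          exact h.cons (hy2 0)
        have h2 := one_le_nu A.tr ((hy2 0).pow 2) (pow_ne_zero 2 h00)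
        have h3 := minkowski A.tr hr'.nonneg (b := y' 0 ^ 2) (fun φ => by
          rw [map_pow]
          have := (map_ne_zero φ).2 h00
          positivity)
        rw [Fin.sum_univ_succ, add_comm (y' 0 ^ 2)]
        linarith) (four_lt A.tr hy2 hy3)
      refine ⟨B, h, h2, fun y'' hy'' _ => ?_⟩
      have : y'' = y' := funext fun i => Subtype.ext (by rw [hy'', hy1])
      rw [this]
      exact RepT.of_le h3 (by omega)
    · obtain ⟨N, hN⟩ := exists_nat_gt (max (sInf S + 1) 4)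
      obtain ⟨B, h, h2, -⟩ := sub (N : A.F) (by simpa using intCast_integral (L := A.F) N)
        (fun φ => by simp) (by rw [nu_natCast A.tr]; exact (le_max_left _ _).trans hN.le) (by
          rw [← nu_pow, nu_natCast A.tr]
          exact pow_lt_pow_left₀ ((le_max_right _ _).trans_lt hN) (by norm_num) finrank_pos.ne')
      refine ⟨B, h, h2, fun y' hy1 hy2 => ?_⟩
      by_contra hcon
      exact hy ⟨y', hy1, hy2, fun h3 => hcon (h3.map (IntermediateField.inclusion h).toRingHom)⟩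
  choose nxt hle hrk hrep using step
  have hcount : ({y : Fin (n + 4) → ℂ | ∀ i, y i ∈ {z : ℂ | IsAlgebraic ℚ z}}).Countable :=
    Set.countable_pi fun _ => Algebraic.countable ℚ ℂ
  obtain ⟨en, hen⟩ := hcount.exists_eq_range ⟨fun _ => 0, fun _ => isAlgebraic_zero⟩
  let s : ℕ → St := fun i => Nat.rec ⟨A0, le_rfl, hα0⟩ (fun j A => nxt A (en (Nat.unpair j).1)) i
  have hs : ∀ j, s (j + 1) = nxt (s j) (en (Nat.unpair j).1) := fun j => rfl
  have hmono : Monotone fun j => (s j).1.F := monotone_nat_of_le_succ fun j => hle _ _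
  set K : IntermediateField ℚ ℂ := ⨆ j, (s j).1.F with hK
  have hKle : ∀ j, (s j).1.F ≤ K := fun j => le_iSup (fun j => (s j).1.F) j
  have hmem : ∀ z : K, ∃ j, (z : ℂ) ∈ (s j).1.F := by
    intro z
    have h1 := IntermediateField.coe_iSup_of_directed hmono.directed_le
    exact Set.mem_iUnion.1 (h1.subset z.2)
  have hmemf : ∀ {k : ℕ} (y : Fin k → K), ∃ j, ∀ j' ≥ j, ∃ y' : Fin k → (s j').1.F,
      ∀ i, IntermediateField.inclusion (hKle j') (y' i) = y i := by
    intro k y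
    choose j hj using fun i => hmem (y i)
    refine ⟨Finset.univ.sup j, fun j' hj' => ⟨fun i => ⟨y i, hmono
      ((Finset.le_sup (f := j) (Finset.mem_univ i)).trans hj') (hj i)⟩, fun i => rfl⟩⟩
  have halg : ∀ z : K, IsAlgebraic ℚ (z : ℂ) := by
    intro z
    obtain ⟨j, hj⟩ := hmem z
    exact (Algebra.IsAlgebraic.isAlgebraic (R := ℚ) (⟨z, hj⟩ : (s j).1.F)).algHom (s j).1.F.val
  refine ⟨K, ⟨fun z => (isAlgebraic_algHom_iff K.val K.val.injective).1 (halg z)⟩,
    fun hfd => ?_, fun φ z => ?_, ?_, IntermediateField.inclusion (hKle 0) α0,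
    ⟨m0, hm0.map (IntermediateField.inclusion (hKle 0)).toRingHom⟩, ?_⟩
  · have h1 : ∀ j, j ≤ finrank ℚ (s j).1.F := by
      intro j
      induction j with
      | zero => exact Nat.zero_le _
      | succ j ih => exact lt_of_le_of_lt ih (hrk _ _)
    have h2 := (h1 (finrank ℚ K + 1)).trans
      (IntermediateField.finrank_le_of_le_right (E := K) (hKle (finrank ℚ K + 1)))
    omega
  · obtain ⟨j, hj⟩ := hmem z
    exact (s j).1.tr (φ.comp (IntermediateField.inclusion (hKle j)).toRingHom) ⟨z, hj⟩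
  · rintro _ ⟨y, hy, rfl⟩
    obtain ⟨j, hj⟩ := hmemf y
    obtain ⟨a, ha⟩ : (fun i => (y i : ℂ)) ∈ Set.range en := by
      rw [← hen]; exact fun i => halg (y i)
    obtain ⟨y', hy'⟩ := hj (Nat.pair a j) (Nat.right_le_pair _ _)
    have h1 := hrep (s (Nat.pair a j)) (en (Nat.unpair (Nat.pair a j)).1) y' (fun i => by
      rw [Nat.unpair_pair, ha]; exact congrArg Subtype.val (hy' i))
      (fun i => isIntegral_of_map (IntermediateField.inclusion (hKle _)).toRingHom
        (by have := hy i; rwa [← hy' i] at this))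
    have h2 := h1.map (IntermediateField.inclusion (hKle (Nat.pair a j + 1))).toRingHom
    convert h2 using 1
    apply Subtype.ext
    simp only [← hy']
    simp
  · rintro ⟨y, hy, hsum⟩
    obtain ⟨j, hj⟩ := hmemf y
    obtain ⟨y', hy'⟩ := hj j le_rfl
    obtain ⟨h0, hA⟩ := (s j).2
    refine hA ⟨y', fun i => isIntegral_of_map (IntermediateField.inclusion (hKle _)).toRingHom
        (by have := hy i; rwa [← hy' i] at this), ?_⟩
    apply IntermediateField.inclusion_injective (hKle j)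
    rw [map_sum]
    simp only [map_pow, hy']
    rw [← hsum]; rfl

end Pool.Agent.H77Z.Py
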